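import Mathlib

section

set_option autoImplicit false

namespace Pool.Agent.Lib.MP_699f60_co

open Complex

/-- Real inner product of plane vectors. -/
def dot (z w : ℂ) : ℝ := z.re * w.re + z.im * w.im

/-- Cross product of plane vectors. -/
def crs (z w : ℂ) : ℝ := z.re * w.im - z.im * w.re

/-- The identity or complex conjugation. -/
noncomputable def sg (b : Bool) (z : ℂ) : ℂ := if b then z else (starRingEnd ℂ) z

variable {V : Type*}

/-- `u` is an infinitesimal isometry of the placement `p` on `A`. -/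
def IsRot (p u : V → ℂ) (A : Finset V) : Prop :=
  ∃ (ω : ℝ) (t : ℂ), ∀ x ∈ A, u x = ω * (I * p x) + t

/-- `q` is the image of `p` under an isometry, on `A`. -/
def Cong (p q : V → ℂ) (A : Finset V) : Prop :=
  ∃ (b : Bool) (a t : ℂ), normSq a = 1 ∧ ∀ x ∈ A, q x = a * sg b (p x) + t

/-- General position: injective and no three collinear points. -/
def GP (p : V → ℂ) : Prop :=
  (∀ x y, x ≠ y → p x ≠ p y) ∧
  ∀ x y z, x ≠ y → y ≠ z → x ≠ z → crs (p y - p x) (p z - p x) ≠ 0

/-- Mirror image of `z` in the line through `a` and `b`. -/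
noncomputable def mir (a b z : ℂ) : ℂ :=
  (b - a) / (starRingEnd ℂ) (b - a) * (starRingEnd ℂ) (z - a) + a

theorem dot_add_right (z w w' : ℂ) : dot z (w + w') = dot z w + dot z w' := by
  simp only [dot, add_re, add_im]
  ring

theorem dot_sub_right (z w w' : ℂ) : dot z (w - w') = dot z w - dot z w' := by
  simp only [dot, sub_re, sub_im]
  ring

theorem dot_smul_right (z w : ℂ) (c : ℝ) : dot z (c * w) = c * dot z w := by
  simp only [dot, mul_re, mul_im, ofReal_re, ofReal_im]
  ring

theorem dot_zero_right (z : ℂ) : dot z 0 = 0 := by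
  simp [dot]

theorem normSq_eq_dot (z : ℂ) : normSq z = dot z z := by
  simp [normSq_apply, dot]

theorem dot_I_mul (z : ℂ) (c : ℝ) : dot z (c * (I * z)) = 0 := by
  simp only [dot, mul_re, mul_im, ofReal_re, ofReal_im, I_re, I_im]
  ring

/-- Two non-parallel vectors orthogonal to `v` force `v = 0`. -/
theorem eq_zero_of_dot {z w v : ℂ} (h : crs z w ≠ 0) (h1 : dot z v = 0) (h2 : dot w v = 0) :
    v = 0 := by
  unfold dot at h1 h2
  unfold crs at h
  apply Complex.ext
  · have : (z.re * w.im - z.im * w.re) * v.re = 0 := by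
      linear_combination w.im * h1 - z.im * h2
    rcases mul_eq_zero.mp this with h3 | h3
    · exact absurd h3 h
    · simpa using h3
  · have : (z.re * w.im - z.im * w.re) * v.im = 0 := by
      linear_combination z.re * h2 - w.re * h1
    rcases mul_eq_zero.mp this with h3 | h3
    · exact absurd h3 h
    · simpa using h3

/-- Solve two linear equations. -/
theorem exists_dot_eq {z w : ℂ} (h : crs z w ≠ 0) (a b : ℝ) :
    ∃ v : ℂ, dot z v = a ∧ dot w v = b := by
  unfold crs at h
  refine ⟨⟨(w.im * a - z.im * b) / (z.re * w.im - z.im * w.re),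
    (z.re * b - w.re * a) / (z.re * w.im - z.im * w.re)⟩, ?_, ?_⟩
  · simp only [dot]
    rw [mul_div_assoc', mul_div_assoc', ← add_div, div_eq_iff h]
    ring
  · simp only [dot]
    rw [mul_div_assoc', mul_div_assoc', ← add_div, div_eq_iff h]
    ring

theorem rot_coeff_zero {z w t : ℂ} {ω : ℝ} (hzw : z ≠ w) (h1 : (ω : ℂ) * (I * z) + t = 0)
    (h2 : (ω : ℂ) * (I * w) + t = 0) : ω = 0 ∧ t = 0 := by
  have h3 : (ω : ℂ) * (I * (z - w)) = 0 := by linear_combination h1 - h2
  have hω : (ω : ℂ) = 0 := by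
    rcases mul_eq_zero.mp h3 with h | h
    · exact h
    · exfalso
      rcases mul_eq_zero.mp h with h | h
      · exact I_ne_zero h
      · exact hzw (sub_eq_zero.mp h)
  refine ⟨by exact_mod_cast hω, ?_⟩
  rw [hω] at h1
  simpa using h1

theorem IsRot.mono {p u : V → ℂ} {A B : Finset V} (h : IsRot p u B) (hAB : A ⊆ B) :
    IsRot p u A := by
  obtain ⟨ω, t, h⟩ := h
  exact ⟨ω, t, fun x hx => h x (hAB hx)⟩

theorem IsRot.congr {p u p' u' : V → ℂ} {A : Finset V} (h : IsRot p u A)
    (hp : ∀ x ∈ A, p' x = p x) (hu : ∀ x ∈ A, u' x = u x) : IsRot p' u' A := by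
  obtain ⟨ω, t, h⟩ := h
  exact ⟨ω, t, fun x hx => by rw [hu x hx, hp x hx, h x hx]⟩

theorem IsRot.dot_eq {p u : V → ℂ} {A : Finset V} (h : IsRot p u A) {x y : V} (hx : x ∈ A)
    (hy : y ∈ A) : dot (p x - p y) (u x - u y) = 0 := by
  obtain ⟨ω, t, h⟩ := h
  have : u x - u y = ω * (I * (p x - p y)) := by
    rw [h x hx, h y hy]
    ring
  rw [this]
  exact dot_I_mul _ _

theorem IsRot.lin {p u u' : V → ℂ} {A : Finset V} (h : IsRot p u A) (h' : IsRot p u' A)
    (c c' : ℝ) : IsRot p (fun x => c * u x + c' * u' x) A := by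
  obtain ⟨ω, t, h⟩ := h
  obtain ⟨ω', t', h'⟩ := h'
  refine ⟨c * ω + c' * ω', c * t + c' * t', fun x hx => ?_⟩
  simp only [h x hx, h' x hx]
  push_cast
  ring

theorem isRot_pair [DecidableEq V] {p u : V → ℂ} {x y : V} (hp : p x ≠ p y)
    (h : dot (p x - p y) (u x - u y) = 0) : IsRot p u {x, y} := by
  -- `u x - u y` is orthogonal to `p x - p y`
  have hne : p x - p y ≠ 0 := sub_ne_zero.mpr hp
  have hN : normSq (p x - p y) ≠ 0 := fun h0 => hne (normSq_eq_zero.mp h0)
  obtain ⟨d, hd⟩ : ∃ d, d = p x - p y := ⟨_, rfl⟩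
  obtain ⟨e, he⟩ : ∃ e, e = u x - u y := ⟨_, rfl⟩
  rw [← hd] at hN h hne
  rw [← he] at h
  let ω : ℝ := crs d e / normSq d
  have hω : e = ω * (I * d) := by
    have h1 : normSq d * e.re = - crs d e * d.im := by
      simp only [normSq_apply, crs, dot] at h ⊢
      linear_combination d.re * h
    have h2 : normSq d * e.im = crs d e * d.re := by
      simp only [normSq_apply, crs, dot] at h ⊢
      linear_combination d.im * h
    apply Complex.ext
    · simp only [mul_re, mul_im, ofReal_re, ofReal_im, I_re, I_im, ω]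
      field_simp
      linarith
    · simp only [mul_re, mul_im, ofReal_re, ofReal_im, I_re, I_im, ω]
      field_simp
      linarith
  refine ⟨ω, u y - ω * (I * p y), ?_⟩
  intro z hz
  simp only [Finset.mem_insert, Finset.mem_singleton] at hz
  rcases hz with rfl | rfl
  · have : u z = e + u y := by rw [he]; ring
    rw [this, hω, hd]
    ring
  · ring

theorem isRot_insert [DecidableEq V] {p u : V → ℂ} {A : Finset V} {w : V} (h : IsRot p u A)
    (hw : w ∉ A) : ∃ c : ℂ, IsRot p (Function.update u w c) (insert w A) := by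
  obtain ⟨ω, t, h⟩ := h
  refine ⟨ω * (I * p w) + t, ω, t, ?_⟩
  intro x hx
  rcases Finset.mem_insert.mp hx with rfl | hx
  · simp
  · have : x ≠ w := fun e => hw (e ▸ hx)
    rw [Function.update_of_ne this, h x hx]

/-- An infinitesimal isometry vanishing at two distinct points vanishes. -/
theorem IsRot.eq_zero {p u : V → ℂ} {A : Finset V} (h : IsRot p u A) {x y : V} (hx : x ∈ A)
    (hy : y ∈ A) (hp : p x ≠ p y) (h1 : u x = 0) (h2 : u y = 0) : ∀ z ∈ A, u z = 0 := by
  obtain ⟨ω, t, h⟩ := h
  obtain ⟨hω, ht⟩ := rot_coeff_zero hp (by rw [← h x hx]; exact h1) (by rw [← h y hy]; exact h2)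
  intro z hz
  rw [h z hz, hω, ht]
  simp

/-- Gluing along two points. -/
theorem IsRot.union [DecidableEq V] {p u : V → ℂ} {A B : Finset V} (hA : IsRot p u A)
    (hB : IsRot p u B) {x y : V} (hxA : x ∈ A) (hyA : y ∈ A) (hxB : x ∈ B) (hyB : y ∈ B)
    (hp : p x ≠ p y) : IsRot p u (A ∪ B) := by
  obtain ⟨ω, t, hA⟩ := hA
  obtain ⟨ω', t', hB⟩ := hB
  have h1 : ((ω - ω' : ℝ) : ℂ) * (I * p x) + (t - t') = 0 := by
    push_cast
    linear_combination (hB x hxB) - (hA x hxA)
  have h2 : ((ω - ω' : ℝ) : ℂ) * (I * p y) + (t - t') = 0 := by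
    push_cast
    linear_combination (hB y hyB) - (hA y hyA)
  obtain ⟨h3, h4⟩ := rot_coeff_zero hp h1 h2
  refine ⟨ω, t, fun z hz => ?_⟩
  rcases Finset.mem_union.mp hz with hz | hz
  · exact hA z hz
  · rw [hB z hz]
    have h5 : ω = ω' := sub_eq_zero.mp h3
    have h6 : t = t' := sub_eq_zero.mp h4
    rw [h5, h6]

/-- Three pieces pairwise sharing the vertices of a proper triangle. -/
theorem IsRot.triangle [DecidableEq V] {p u : V → ℂ} {A B C : Finset V} (hA : IsRot p u A)
    (hB : IsRot p u B) (hC : IsRot p u C) {x y z : V} (hxA : x ∈ A) (hyA : y ∈ A)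
    (hyB : y ∈ B) (hzB : z ∈ B) (hxC : x ∈ C) (hzC : z ∈ C)
    (hp : crs (p y - p x) (p z - p x) ≠ 0) : IsRot p u (A ∪ B ∪ C) := by
  have hxy : p x ≠ p y := by
    intro h
    apply hp
    rw [h]
    simp [crs]
  have hxz : p x ≠ p z := by
    intro h
    apply hp
    rw [h]
    simp [crs]
  have hyz : p y ≠ p z := by
    intro h
    apply hp
    rw [h]
    simp only [crs]
    ring
  obtain ⟨ω, t, hA'⟩ := hA
  -- subtract the motion of `A`
  have hBz := (⟨ω, t, hA'⟩ : IsRot p u A)
  have key : u z = ω * (I * p z) + t := by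
    have h1 := hB.dot_eq hyB hzB
    have h2 := hC.dot_eq hxC hzC
    rw [hA' y hyA] at h1
    rw [hA' x hxA] at h2
    obtain ⟨v, hv⟩ : ∃ v, v = u z - (ω * (I * p z) + t) := ⟨_, rfl⟩
    have h3 : dot (p y - p z) v = 0 := by
      have e1 : (ω : ℂ) * (I * p y) + t - u z = ω * (I * (p y - p z)) - v := by
        rw [hv]; ring
      rw [e1, dot_sub_right, dot_I_mul] at h1
      linarith
    have h4 : dot (p x - p z) v = 0 := by
      have e1 : (ω : ℂ) * (I * p x) + t - u z = ω * (I * (p x - p z)) - v := by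
        rw [hv]; ring
      rw [e1, dot_sub_right, dot_I_mul] at h2
      linarith
    have h5 : crs (p y - p z) (p x - p z) ≠ 0 := by
      have : crs (p y - p z) (p x - p z) = crs (p y - p x) (p z - p x) * (-1) := by
        simp only [crs, sub_re, sub_im]
        ring
      rw [this]
      exact mul_ne_zero hp (by norm_num)
    have h6 := eq_zero_of_dot h5 h3 h4
    rw [hv] at h6
    linear_combination h6
  have hAz : IsRot p u (insert z A) := by
    refine ⟨ω, t, fun w hw => ?_⟩
    rcases Finset.mem_insert.mp hw with rfl | hw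
    · exact key
    · exact hA' w hw
  have h1 : IsRot p u (insert z A ∪ B) :=
    hAz.union hB (Finset.mem_insert_of_mem hyA) (Finset.mem_insert_self _ _) hyB hzB hyz
  have h2 : IsRot p u (insert z A ∪ B ∪ C) :=
    h1.union hC (Finset.mem_union_left _ (Finset.mem_insert_of_mem hxA))
      (Finset.mem_union_left _ (Finset.mem_insert_self _ _)) hxC hzC hxz
  apply h2.mono
  intro w hw
  simp only [Finset.mem_union, Finset.mem_insert] at hw ⊢
  tauto

end Pool.Agent.Lib.MP_699f60_co
end

section

set_option autoImplicit false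

namespace Pool.Agent.Lib.MP_699f60_co

open Complex

variable {V : Type*}

theorem normSq_sg (b : Bool) (z : ℂ) : normSq (sg b z) = normSq z := by
  unfold sg
  split_ifs
  · rfl
  · exact normSq_conj z

theorem sg_sub (b : Bool) (z w : ℂ) : sg b (z - w) = sg b z - sg b w := by
  unfold sg
  split_ifs
  · rfl
  · exact map_sub _ _ _

theorem sg_add (b : Bool) (z w : ℂ) : sg b (z + w) = sg b z + sg b w := by
  unfold sg
  split_ifs
  · rfl
  · exact map_add _ _ _

theorem sg_real_mul (b : Bool) (c : ℝ) (z : ℂ) : sg b (c * z) = c * sg b z := by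
  unfold sg
  split_ifs
  · rfl
  · rw [map_mul, conj_ofReal]

theorem Cong.refl (p : V → ℂ) (A : Finset V) : Cong p p A :=
  ⟨true, 1, 0, by simp, fun x _ => by simp [sg]⟩

theorem Cong.mono {p q : V → ℂ} {A B : Finset V} (h : Cong p q B) (hAB : A ⊆ B) :
    Cong p q A := by
  obtain ⟨b, a, t, ha, h⟩ := h
  exact ⟨b, a, t, ha, fun x hx => h x (hAB hx)⟩

theorem Cong.congr {p q p' q' : V → ℂ} {A : Finset V} (h : Cong p q A)
    (hp : ∀ x ∈ A, p' x = p x) (hq : ∀ x ∈ A, q' x = q x) : Cong p' q' A := by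
  obtain ⟨b, a, t, ha, h⟩ := h
  exact ⟨b, a, t, ha, fun x hx => by rw [hp x hx, hq x hx, h x hx]⟩

theorem mul_conj_of_normSq {a : ℂ} (ha : normSq a = 1) : a * (starRingEnd ℂ) a = 1 := by
  rw [mul_conj, ha]
  simp

theorem Cong.symm {p q : V → ℂ} {A : Finset V} (h : Cong p q A) : Cong q p A := by
  obtain ⟨b, a, t, ha, h⟩ := h
  have h1 := mul_conj_of_normSq ha
  cases b with
  | true =>
    refine ⟨true, (starRingEnd ℂ) a, - ((starRingEnd ℂ) a * t), by rw [normSq_conj, ha], ?_⟩
    intro x hx
    have h2 := h x hx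
    simp only [sg, if_true] at h2 ⊢
    rw [h2]
    linear_combination (- p x) * h1
  | false =>
    refine ⟨false, a, - (a * (starRingEnd ℂ) t), ha, ?_⟩
    intro x hx
    have h2 := h x hx
    simp only [sg, Bool.false_eq_true, if_false] at h2 ⊢
    rw [h2, map_add, map_mul, Complex.conj_conj]
    linear_combination (- p x) * h1

theorem Cong.normSq_sub {p q : V → ℂ} {A : Finset V} (h : Cong p q A) {x y : V} (hx : x ∈ A)
    (hy : y ∈ A) : normSq (q x - q y) = normSq (p x - p y) := by
  obtain ⟨b, a, t, ha, h⟩ := h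
  have : q x - q y = a * sg b (p x - p y) := by
    rw [h x hx, h y hy, sg_sub]
    ring
  rw [this, normSq_mul, ha, normSq_sg, one_mul]

theorem cong_pair [DecidableEq V] {p q : V → ℂ} {x y : V} (hp : p x ≠ p y)
    (h : normSq (q x - q y) = normSq (p x - p y)) : Cong p q {x, y} := by
  have hne : p x - p y ≠ 0 := sub_ne_zero.mpr hp
  have hN : normSq (p x - p y) ≠ 0 := fun h0 => hne (normSq_eq_zero.mp h0)
  refine ⟨true, (q x - q y) / (p x - p y), q y - (q x - q y) / (p x - p y) * p y, ?_, ?_⟩
  · rw [normSq_div, h, div_self hN]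
  · intro z hz
    simp only [Finset.mem_insert, Finset.mem_singleton] at hz
    rcases hz with rfl | rfl
    · simp only [sg, if_true]
      field_simp
      ring
    · simp only [sg, if_true]
      ring

theorem Cong.insert [DecidableEq V] {p q : V → ℂ} {A : Finset V} {w : V}
    {b : Bool} {a t : ℂ} (ha : normSq a = 1) (h : ∀ x ∈ A, q x = a * sg b (p x) + t)
    (hw : w ∉ A) (z : ℂ) :
    Cong (Function.update p w z) (Function.update q w (a * sg b z + t)) (insert w A) := by
  refine ⟨b, a, t, ha, ?_⟩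
  intro x hx
  rcases Finset.mem_insert.mp hx with rfl | hx
  · simp
  · have : x ≠ w := fun e => hw (e ▸ hx)
    rw [Function.update_of_ne this, Function.update_of_ne this, h x hx]

section mirror

theorem mir_left (a b : ℂ) : mir a b a = a := by
  simp [mir]

theorem mir_right (a b : ℂ) : mir a b b = b := by
  unfold mir
  by_cases h : b - a = 0
  · rw [sub_eq_zero] at h
    simp [h]
  · have h' : (starRingEnd ℂ) (b - a) ≠ 0 := by
      intro h0
      apply h
      have := congrArg (starRingEnd ℂ) h0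
      simpa using this
    field_simp
    ring

theorem mir_form (a b z : ℂ) : mir a b z =
    (b - a) / (starRingEnd ℂ) (b - a) * sg false z
      + (a - (b - a) / (starRingEnd ℂ) (b - a) * (starRingEnd ℂ) a) := by
  simp only [mir, sg, Bool.false_eq_true, if_false, map_sub]
  ring

theorem mir_coeff {a b : ℂ} (h : a ≠ b) : normSq ((b - a) / (starRingEnd ℂ) (b - a)) = 1 := by
  have hne : b - a ≠ 0 := sub_ne_zero.mpr (Ne.symm h)
  have hN : normSq (b - a) ≠ 0 := fun h0 => hne (normSq_eq_zero.mp h0)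
  rw [normSq_div, normSq_conj, div_self hN]

theorem mir_mir {a b : ℂ} (h : a ≠ b) (z : ℂ) : mir a b (mir a b z) = z := by
  have hne : b - a ≠ 0 := sub_ne_zero.mpr (Ne.symm h)
  have h' : (starRingEnd ℂ) (b - a) ≠ 0 := by
    intro h0
    apply hne
    have := congrArg (starRingEnd ℂ) h0
    simpa using this
  unfold mir
  simp only [add_sub_cancel_right, map_mul, map_div₀, Complex.conj_conj]
  field_simp
  ring

theorem mir_ne {a b z : ℂ} (h : crs (b - a) (z - a) ≠ 0) : mir a b z ≠ z := by
  intro h0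
  have hne : b - a ≠ 0 := by
    intro h1
    apply h
    rw [h1]
    simp [crs]
  have h' : (starRingEnd ℂ) (b - a) ≠ 0 := by
    intro h1
    apply hne
    have := congrArg (starRingEnd ℂ) h1
    simpa using this
  have h2 : (b - a) * (starRingEnd ℂ) (z - a) = (z - a) * (starRingEnd ℂ) (b - a) := by
    have : (b - a) / (starRingEnd ℂ) (b - a) * (starRingEnd ℂ) (z - a) = z - a := by
      unfold mir at h0
      linear_combination h0
    rw [div_mul_eq_mul_div, div_eq_iff h'] at this
    exact this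
  apply h
  have h3 := congrArg Complex.im h2
  simp only [mul_im, conj_re, conj_im] at h3
  unfold crs
  linarith

/-- Reflecting the point of `v` in the line through `x` and `y` is a congruence of `{v, x, y}`. -/
theorem cong_mir [DecidableEq V] {p : V → ℂ} {v x y : V} (hvx : v ≠ x) (hvy : v ≠ y)
    (hp : p x ≠ p y) :
    Cong p (Function.update p v (mir (p x) (p y) (p v))) {v, x, y} := by
  refine ⟨false, (p y - p x) / (starRingEnd ℂ) (p y - p x),
    (p x - (p y - p x) / (starRingEnd ℂ) (p y - p x) * (starRingEnd ℂ) (p x)),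
    mir_coeff hp, ?_⟩
  intro z hz
  rw [← mir_form]
  simp only [Finset.mem_insert, Finset.mem_singleton] at hz
  rcases hz with rfl | rfl | rfl
  · simp
  · rw [Function.update_of_ne (Ne.symm hvx), mir_left]
  · rw [Function.update_of_ne (Ne.symm hvy), mir_right]

end mirror

end Pool.Agent.Lib.MP_699f60_co
end
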