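import Mathlib
import Pool.Agent.Lib.MP_699f60_co.Iso

set_option autoImplicit false

namespace Pool.Agent.Lib.MP_699f60_co

open Complex

variable {V : Type*}

/-- Infinitesimal rigidity, relative to the pinned vertices outside `U`, of the system of
bodies `M` at the placement `p`. -/
def Rigid (M : Multiset (Finset V)) (U : Finset V) (p : V → ℂ) : Prop :=
  ∀ u : V → ℂ, (∀ x, x ∉ U → u x = 0) → (∀ A ∈ M, IsRot p u A) → ∀ x, u x = 0

/-- The tight count. -/
def Tight (M : Multiset (Finset V)) (U : Finset V) : Prop :=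
  (∀ A ∈ M, 2 ≤ A.card) ∧ (M.map (fun A => (2 * (A.card : ℤ) - 3))).sum = 2 * U.card

section index

variable {ι : Type*} [Fintype ι] [Fintype V] [DecidableEq V]

/-- The linear system of pinned body motions. -/
noncomputable def Lmap (A : ι → Finset V) (U : Finset V) (p : V → ℂ) :
    ((U → ℂ) × (ι → ℝ) × (ι → ℂ)) →ₗ[ℝ] ((i : ι) → (A i → ℂ)) where
  toFun X := fun i x => (if h : (x : V) ∈ U then X.1 ⟨x, h⟩ else 0)
    - ((X.2.1 i : ℝ) : ℂ) * (I * p x) - X.2.2 i
  map_add' := by
    intro X Y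
    funext i x
    simp only [Prod.fst_add, Prod.snd_add, Pi.add_apply]
    split_ifs
    · push_cast
      ring
    · push_cast
      ring
  map_smul' := by
    intro c X
    funext i x
    simp only [Prod.smul_fst, Prod.smul_snd, Pi.smul_apply, RingHom.id_apply, real_smul,
      smul_eq_mul]
    split_ifs
    · push_cast
      ring
    · push_cast
      ring

theorem Lmap_injective (A : ι → Finset V) (U : Finset V) (p : V → ℂ)
    (hA : ∀ i, ∃ x ∈ A i, ∃ y ∈ A i, p x ≠ p y)
    (hR : ∀ u : V → ℂ, (∀ x, x ∉ U → u x = 0) → (∀ i, IsRot p u (A i)) → ∀ x, u x = 0) :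
    Function.Injective (Lmap A U p) := by
  rw [← LinearMap.ker_eq_bot, LinearMap.ker_eq_bot']
  intro X hX
  have h1 : ∀ i (x : V) (hx : x ∈ A i), (if h : x ∈ U then X.1 ⟨x, h⟩ else 0)
      = ((X.2.1 i : ℝ) : ℂ) * (I * p x) + X.2.2 i := by
    intro i x hx
    have h2 := congrFun (congrFun hX i) ⟨x, hx⟩
    simp only [Lmap, LinearMap.coe_mk, AddHom.coe_mk, Pi.zero_apply] at h2
    linear_combination h2
  have h0 := hR (fun x => if h : x ∈ U then X.1 ⟨x, h⟩ else 0)
    (fun x hx => by simp [hx]) (fun i => ⟨X.2.1 i, X.2.2 i, fun x hx => h1 i x hx⟩)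
  have h3 : ∀ i, X.2.1 i = 0 ∧ X.2.2 i = 0 := by
    intro i
    obtain ⟨x, hx, y, hy, hxy⟩ := hA i
    apply rot_coeff_zero hxy
    · rw [← h1 i x hx]
      exact h0 x
    · rw [← h1 i y hy]
      exact h0 y
  refine Prod.ext ?_ (Prod.ext ?_ ?_)
  · funext x
    have := h0 x
    simpa using this
  · funext i
    exact (h3 i).1
  · funext i
    exact (h3 i).2

theorem finrank_source (U : Finset V) :
    Module.finrank ℝ ((U → ℂ) × (ι → ℝ) × (ι → ℂ)) = 2 * U.card + 3 * Fintype.card ι := by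
  rw [Module.finrank_prod, Module.finrank_prod, Module.finrank_pi_fintype,
    Module.finrank_pi_fintype, Module.finrank_pi_fintype]
  simp only [Complex.finrank_real_complex, Module.finrank_self, Finset.sum_const,
    Finset.card_univ, Fintype.card_coe, smul_eq_mul]
  ring

theorem finrank_target (A : ι → Finset V) :
    Module.finrank ℝ ((i : ι) → (A i → ℂ)) = ∑ i, 2 * (A i).card := by
  rw [Module.finrank_pi_fintype]
  apply Finset.sum_congr rfl
  intro i _
  rw [Module.finrank_pi_fintype]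
  simp only [Complex.finrank_real_complex, Finset.sum_const, Finset.card_univ,
    Fintype.card_coe, smul_eq_mul]
  ring

theorem index_dim_le (A : ι → Finset V) (U : Finset V) (p : V → ℂ)
    (hA : ∀ i, ∃ x ∈ A i, ∃ y ∈ A i, p x ≠ p y)
    (hR : ∀ u : V → ℂ, (∀ x, x ∉ U → u x = 0) → (∀ i, IsRot p u (A i)) → ∀ x, u x = 0) :
    (2 * (U.card : ℤ)) ≤ ∑ i, (2 * ((A i).card : ℤ) - 3) := by
  have h := LinearMap.finrank_le_finrank_of_injective (Lmap_injective A U p hA hR)
  rw [finrank_source, finrank_target] at h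
  have h' : (2 * (U.card : ℤ) + 3 * (Fintype.card ι : ℤ)) ≤ ∑ i, 2 * ((A i).card : ℤ) := by
    exact_mod_cast h
  rw [Finset.sum_sub_distrib]
  simp only [Finset.sum_const, Finset.card_univ, nsmul_eq_mul]
  linarith

theorem index_surj (A : ι → Finset V) (U : Finset V) (p : V → ℂ)
    (hA : ∀ i, ∃ x ∈ A i, ∃ y ∈ A i, p x ≠ p y)
    (hR : ∀ u : V → ℂ, (∀ x, x ∉ U → u x = 0) → (∀ i, IsRot p u (A i)) → ∀ x, u x = 0)
    (hT : ∑ i, (2 * ((A i).card : ℤ) - 3) = 2 * (U.card : ℤ))
    (G : V → ℂ) (Y : ι → V → ℂ) :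
    ∃ (u : V → ℂ) (ω : ι → ℝ) (t : ι → ℂ), (∀ x, x ∉ U → u x = G x) ∧
      ∀ i, ∀ x ∈ A i, u x - ω i * (I * p x) - t i = Y i x := by
  have hinj := Lmap_injective A U p hA hR
  have hfr : Module.finrank ℝ ((U → ℂ) × (ι → ℝ) × (ι → ℂ))
      = Module.finrank ℝ ((i : ι) → (A i → ℂ)) := by
    rw [finrank_source, finrank_target]
    have h' : (2 * (U.card : ℤ) + 3 * (Fintype.card ι : ℤ)) = ∑ i, 2 * ((A i).card : ℤ) := by
      rw [Finset.sum_sub_distrib] at hT
      simp only [Finset.sum_const, Finset.card_univ, nsmul_eq_mul] at hT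
      linarith
    exact_mod_cast h'
  have hsurj : Function.Surjective (Lmap A U p) :=
    (LinearMap.injective_iff_surjective_of_finrank_eq_finrank hfr).mp hinj
  obtain ⟨X, hX⟩ := hsurj (fun i x => Y i x - (if (x : V) ∈ U then 0 else G x))
  refine ⟨fun x => if h : x ∈ U then X.1 ⟨x, h⟩ else G x, X.2.1, X.2.2, ?_, ?_⟩
  · intro x hx
    simp [hx]
  · intro i x hx
    have h2 := congrFun (congrFun hX i) ⟨x, hx⟩
    simp only [Lmap, LinearMap.coe_mk, AddHom.coe_mk] at h2
    by_cases hxU : x ∈ U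
    · simp only [hxU, dif_pos, if_true] at h2 ⊢
      linear_combination h2
    · simp only [hxU, dif_neg, if_false, not_false_eq_true] at h2 ⊢
      linear_combination h2

end index

section multi

variable [Fintype V] [DecidableEq V]

theorem sum_toList (M : Multiset (Finset V)) (f : Finset V → ℤ) :
    ∑ i : Fin M.toList.length, f (M.toList.get i) = (M.map f).sum := by
  have h1 : (M.map f).sum = (M.toList.map f).sum := by
    conv_lhs => rw [← Multiset.coe_toList M]
    rw [Multiset.map_coe, Multiset.sum_coe]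
  rw [h1, ← List.sum_ofFn]
  congr 1
  apply List.ext_get
  · simp
  · intro n h1 h2
    simp

/-- No body is collapsed. -/
def NC (M : Multiset (Finset V)) (p : V → ℂ) : Prop :=
  ∀ A ∈ M, ∃ x ∈ A, ∃ y ∈ A, p x ≠ p y

theorem nc_of_inj {M : Multiset (Finset V)} {p : V → ℂ} (hA : ∀ A ∈ M, 2 ≤ A.card)
    (hp : ∀ x y, x ≠ y → p x ≠ p y) : NC M p := by
  intro A hA'
  obtain ⟨x, hx, y, hy, hxy⟩ := Finset.one_lt_card.mp (hA A hA')
  exact ⟨x, hx, y, hy, hp x y hxy⟩

theorem dim_le {M : Multiset (Finset V)} {U : Finset V} {p : V → ℂ}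
    (hA : ∀ A ∈ M, 2 ≤ A.card) (hp : ∀ x y, x ≠ y → p x ≠ p y) (hR : Rigid M U p) :
    2 * (U.card : ℤ) ≤ (M.map (fun A => (2 * (A.card : ℤ) - 3))).sum := by
  rw [← sum_toList M (fun A => (2 * (A.card : ℤ) - 3))]
  apply index_dim_le (fun i : Fin M.toList.length => M.toList.get i) U p
  · intro i
    apply nc_of_inj hA hp
    rw [← Multiset.mem_toList]
    exact List.get_mem _ _
  · intro u hu hrot
    apply hR u hu
    intro A hA'
    rw [← Multiset.mem_toList] at hA'
    obtain ⟨i, hi⟩ := List.get_of_mem hA'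
    rw [← hi]
    exact hrot i

theorem surj' {M : Multiset (Finset V)} {U : Finset V} {p : V → ℂ}
    (hp : NC M p) (hT : Tight M U) (hR : Rigid M U p)
    (G : V → ℂ) (Y : Fin M.toList.length → V → ℂ) :
    ∃ (u : V → ℂ) (ω : Fin M.toList.length → ℝ) (t : Fin M.toList.length → ℂ),
      (∀ x, x ∉ U → u x = G x) ∧
      ∀ i, ∀ x ∈ M.toList.get i, u x - ω i * (I * p x) - t i = Y i x := by
  apply index_surj (fun i : Fin M.toList.length => M.toList.get i) U p
  · intro i
    apply hp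
    rw [← Multiset.mem_toList]
    exact List.get_mem _ _
  · intro u hu hrot
    apply hR u hu
    intro A hA'
    rw [← Multiset.mem_toList] at hA'
    obtain ⟨i, hi⟩ := List.get_of_mem hA'
    rw [← hi]
    exact hrot i
  · rw [sum_toList M (fun A => (2 * (A.card : ℤ) - 3))]
    exact hT.2

theorem surj {M : Multiset (Finset V)} {U : Finset V} {p : V → ℂ}
    (hp : ∀ x y, x ≠ y → p x ≠ p y) (hT : Tight M U) (hR : Rigid M U p)
    (G : V → ℂ) (Y : Fin M.toList.length → V → ℂ) :
    ∃ (u : V → ℂ) (ω : Fin M.toList.length → ℝ) (t : Fin M.toList.length → ℂ),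
      (∀ x, x ∉ U → u x = G x) ∧
      ∀ i, ∀ x ∈ M.toList.get i, u x - ω i * (I * p x) - t i = Y i x :=
  surj' (nc_of_inj hT.1 hp) hT hR G Y

end multi

end Pool.Agent.Lib.MP_699f60_co
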