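import Mathlib
import Pool.Agent.Lib.MP_699f60_co.Bodies

section

set_option autoImplicit false

namespace Pool.Agent.Lib.MP_699f60_co

open Complex MvPolynomial Topology

/-- The coordinates of a placement. -/
def coord {V : Type*} (p : V → ℂ) : V × Fin 2 → ℝ :=
  fun x => if x.2 = 0 then (p x.1).re else (p x.1).im

/-- The coordinates are algebraically independent over `ℚ`. -/
def Generic {V : Type*} (p : V → ℂ) : Prop := AlgebraicIndependent ℚ (coord p)

/-- The placement with given coordinates. -/
def ofCoord {V : Type*} (x : V × Fin 2 → ℝ) : V → ℂ := fun v => ⟨x (v, 0), x (v, 1)⟩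

theorem coord_ofCoord {V : Type*} (x : V × Fin 2 → ℝ) : coord (ofCoord x) = x := by
  funext ⟨v, k⟩
  fin_cases k <;> simp [coord, ofCoord]

theorem ofCoord_coord {V : Type*} (p : V → ℂ) : ofCoord (coord p) = p := by
  funext v
  simp [coord, ofCoord]

theorem continuous_ofCoord {V : Type*} : Continuous (ofCoord (V := V)) := by
  apply continuous_pi
  intro v
  have : (fun x : V × Fin 2 → ℝ => ofCoord x v) = fun x => (x (v, 0) : ℂ) + (x (v, 1) : ℂ) * I := by
    funext x
    apply Complex.ext <;> simp [ofCoord]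
  rw [this]
  fun_prop

theorem continuous_coord {V : Type*} : Continuous (coord (V := V)) := by
  apply continuous_pi
  rintro ⟨v, k⟩
  fin_cases k
  · have : (fun p : V → ℂ => coord p (v, 0)) = fun p => (p v).re := by
      funext p; simp [coord]
    exact this ▸ (Complex.continuous_re.comp (continuous_apply v))
  · have : (fun p : V → ℂ => coord p (v, 1)) = fun p => (p v).im := by
      funext p; simp [coord]
    exact this ▸ (Complex.continuous_im.comp (continuous_apply v))

theorem aeval_eq_eval_map {σ : Type*} (x : σ → ℝ) (G : MvPolynomial σ ℚ) :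
    aeval x G = eval x (map (algebraMap ℚ ℝ) G) := by
  rw [eval_map]
  rfl

theorem continuous_aeval_poly {σ : Type*} (G : MvPolynomial σ ℚ) :
    Continuous (fun x : σ → ℝ => aeval x G) := by
  simp only [aeval_eq_eval_map]
  exact MvPolynomial.continuous_eval _

theorem countable_poly (σ : Type*) [Fintype σ] : Countable (MvPolynomial σ ℚ) := by
  rw [← Cardinal.mk_le_aleph0_iff]
  refine le_trans MvPolynomial.cardinalMk_le_max_lift ?_
  simp

/-- The nonvanishing set of a nonzero polynomial is dense. -/
theorem dense_ne_zero {σ : Type*} [Fintype σ] {G : MvPolynomial σ ℚ} (hG : G ≠ 0) :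
    Dense {x : σ → ℝ | aeval x G ≠ 0} := by
  intro x
  rw [mem_closure_iff_nhds]
  intro S hS
  by_contra hcon
  rw [Set.not_nonempty_iff_eq_empty] at hcon
  have hzero : ∀ y ∈ S, aeval y G = 0 := by
    intro y hy
    by_contra hne
    have : y ∈ S ∩ {x : σ → ℝ | aeval x G ≠ 0} := ⟨hy, hne⟩
    rw [hcon] at this
    exact this
  -- S contains a box
  obtain ⟨ε, hε, hball⟩ := Metric.mem_nhds_iff.mp hS
  apply hG
  have hmap : map (algebraMap ℚ ℝ) G = 0 := by
    apply MvPolynomial.funext_set (fun i => Metric.ball (x i) ε)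
    · intro i
      exact (infinite_of_mem_nhds (x i) (Metric.ball_mem_nhds (x i) hε))
    · intro y hy
      rw [← aeval_eq_eval_map, hzero y, map_zero]
      apply hball
      rw [Metric.mem_ball, dist_pi_lt_iff hε]
      intro i
      exact hy i (Set.mem_univ i)
  have hinj : Function.Injective (map (σ := σ) (algebraMap ℚ ℝ)) :=
    MvPolynomial.map_injective _ (algebraMap ℚ ℝ).injective
  exact hinj (by rw [hmap, map_zero])

theorem generic_ne_zero {V : Type*} {p : V → ℂ} (hp : Generic p)
    {G : MvPolynomial (V × Fin 2) ℚ} (hG : G ≠ 0) : aeval (coord p) G ≠ 0 := by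
  intro h
  apply hG
  exact (algebraicIndependent_iff.mp hp) G h

/-- Generic placements are dense. -/
theorem exists_generic_near {V : Type*} [Fintype V] (p : V → ℂ) {S : Set (V → ℂ)}
    (hS : S ∈ 𝓝 p) : ∃ p' ∈ S, Generic p' := by
  have hD : Dense (⋂ G : {G : MvPolynomial (V × Fin 2) ℚ // G ≠ 0},
      {x : V × Fin 2 → ℝ | aeval x G.1 ≠ 0}) := by
    have := countable_poly (V × Fin 2)
    apply dense_iInter_of_isOpen
    · intro G
      exact isOpen_ne_fun (continuous_aeval_poly G.1) continuous_const
    · intro G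
      exact dense_ne_zero G.2
  have hS' : ofCoord ⁻¹' S ∈ 𝓝 (coord p) := by
    apply continuous_ofCoord.continuousAt
    rw [ofCoord_coord]
    exact hS
  have h1 := hD (coord p)
  rw [mem_closure_iff_nhds] at h1
  obtain ⟨x, hxS, hx⟩ := h1 _ hS'
  refine ⟨ofCoord x, hxS, ?_⟩
  unfold Generic
  rw [coord_ofCoord, algebraicIndependent_iff]
  intro G hG
  by_contra hne
  exact (Set.mem_iInter.mp hx ⟨G, hne⟩) hG

/-- Injectivity of a real matrix through its Gram determinant. -/
theorem gram_iff {R C : Type*} [Fintype R] [Fintype C] [DecidableEq C] (N : Matrix R C ℝ) :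
    (∀ c : C → ℝ, N.mulVec c = 0 → c = 0) ↔ (N.transpose * N).det ≠ 0 := by
  have hk := Matrix.ker_mulVecLin_transpose_mul_self N
  constructor
  · intro h hdet
    obtain ⟨v, hv, hv0⟩ := Matrix.exists_mulVec_eq_zero_iff.mpr hdet
    apply hv
    apply h
    have : v ∈ LinearMap.ker (N.transpose * N).mulVecLin := by
      rw [LinearMap.mem_ker, Matrix.mulVecLin_apply]
      exact hv0
    rw [hk, LinearMap.mem_ker, Matrix.mulVecLin_apply] at this
    exact this
  · intro hdet c hc
    by_contra hne
    apply hdet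
    apply Matrix.exists_mulVec_eq_zero_iff.mp
    refine ⟨c, hne, ?_⟩
    rw [← Matrix.mulVec_mulVec, hc, Matrix.mulVec_zero]

/-- Polynomial form of `gram_iff`. -/
theorem gram_poly {σ R C : Type*} [Fintype R] [Fintype C] [DecidableEq C]
    (N : Matrix R C (MvPolynomial σ ℚ)) :
    ∃ G : MvPolynomial σ ℚ, ∀ x : σ → ℝ,
      (∀ c : C → ℝ, (N.map (aeval x : MvPolynomial σ ℚ →ₐ[ℚ] ℝ)).mulVec c = 0 → c = 0) ↔
        aeval x G ≠ 0 := by
  refine ⟨(N.transpose * N).det, fun x => ?_⟩
  rw [gram_iff]
  have : aeval x (N.transpose * N).det =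
      ((N.map (aeval x : MvPolynomial σ ℚ →ₐ[ℚ] ℝ)).transpose
      * (N.map (aeval x : MvPolynomial σ ℚ →ₐ[ℚ] ℝ))).det := by
    rw [AlgHom.map_det, AlgHom.mapMatrix_apply, Matrix.map_mul]
    rfl
  rw [this]

end Pool.Agent.Lib.MP_699f60_co
end

section

set_option autoImplicit false

namespace Pool.Agent.Lib.MP_699f60_co

open Complex MvPolynomial Topology

variable {V : Type*} [Fintype V] [DecidableEq V]

/-- The polynomial matrix of the pinned body system. -/
noncomputable def NM {n : ℕ} (A : Fin n → Finset V) (U : Finset V) :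
    Matrix ((Fin n × V × Fin 2) ⊕ (V × Fin 2)) ((V × Fin 2) ⊕ (Fin n ⊕ (Fin n × Fin 2)))
      (MvPolynomial (V × Fin 2) ℚ) :=
  fun r c =>
    match r, c with
    | Sum.inl r, Sum.inl c => if r.2.1 ∈ A r.1 ∧ c = r.2 then 1 else 0
    | Sum.inl r, Sum.inr (Sum.inl j) => if r.2.1 ∈ A r.1 ∧ j = r.1 then
        (if r.2.2 = 0 then X (r.2.1, 1) else - X (r.2.1, 0)) else 0
    | Sum.inl r, Sum.inr (Sum.inr c) => if r.2.1 ∈ A r.1 ∧ c = (r.1, r.2.2) then -1 else 0
    | Sum.inr r, Sum.inl c => if r.1 ∉ U ∧ c = r then 1 else 0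
    | Sum.inr _, Sum.inr _ => 0

theorem NM_mulVec_inl {n : ℕ} (A : Fin n → Finset V) (U : Finset V) (p : V → ℂ)
    (c : (V × Fin 2) ⊕ (Fin n ⊕ (Fin n × Fin 2)) → ℝ) (i : Fin n) (x : V) (k : Fin 2) :
    ((NM A U).map (aeval (coord p) : MvPolynomial (V × Fin 2) ℚ →ₐ[ℚ] ℝ)).mulVec c
      (Sum.inl (i, x, k))
      = if x ∈ A i then c (Sum.inl (x, k))
          + (if k = 0 then (p x).im else - (p x).re) * c (Sum.inr (Sum.inl i))
          - c (Sum.inr (Sum.inr (i, k))) else 0 := by
  unfold Matrix.mulVec dotProduct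
  rw [Fintype.sum_sum_type, Fintype.sum_sum_type]
  simp only [Matrix.map_apply, NM]
  by_cases hx : x ∈ A i
  · simp only [hx, true_and, if_true]
    rw [Finset.sum_eq_single (x, k), Finset.sum_eq_single i, Finset.sum_eq_single (i, k)]
    · simp only [if_true, map_one, map_neg, one_mul, neg_mul]
      by_cases hk : k = 0
      · simp only [hk, if_true, aeval_X, coord]
        simp
        ring
      · simp only [hk, if_false, map_neg, aeval_X, coord]
        simp
        ring
    · intro b _ hb
      simp [hb]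
    · intro h
      exact absurd (Finset.mem_univ _) h
    · intro b _ hb
      simp [hb]
    · intro h
      exact absurd (Finset.mem_univ _) h
    · intro b _ hb
      simp [hb]
    · intro h
      exact absurd (Finset.mem_univ _) h
  · simp [hx]

theorem NM_mulVec_inr {n : ℕ} (A : Fin n → Finset V) (U : Finset V) (p : V → ℂ)
    (c : (V × Fin 2) ⊕ (Fin n ⊕ (Fin n × Fin 2)) → ℝ) (x : V) (k : Fin 2) :
    ((NM A U).map (aeval (coord p) : MvPolynomial (V × Fin 2) ℚ →ₐ[ℚ] ℝ)).mulVec c
      (Sum.inr (x, k))
      = if x ∉ U then c (Sum.inl (x, k)) else 0 := by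
  unfold Matrix.mulVec dotProduct
  rw [Fintype.sum_sum_type]
  simp only [Matrix.map_apply, NM]
  by_cases hx : x ∉ U
  · simp only [hx, true_and]
    rw [Finset.sum_eq_single (x, k)]
    · simp
    · intro b _ hb
      simp [hb]
    · intro h
      exact absurd (Finset.mem_univ _) h
  · simp [hx]

theorem index_rigid_iff {n : ℕ} (A : Fin n → Finset V) (U : Finset V) (p : V → ℂ)
    (hA : ∀ i, ∃ x ∈ A i, ∃ y ∈ A i, p x ≠ p y) :
    (∀ u : V → ℂ, (∀ x, x ∉ U → u x = 0) → (∀ i, IsRot p u (A i)) → ∀ x, u x = 0) ↔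
    (∀ c : (V × Fin 2) ⊕ (Fin n ⊕ (Fin n × Fin 2)) → ℝ,
      ((NM A U).map (aeval (coord p) : MvPolynomial (V × Fin 2) ℚ →ₐ[ℚ] ℝ)).mulVec c = 0 →
        c = 0) := by
  constructor
  · intro hR c hc
    have h1 : ∀ (i : Fin n) (x : V) (k : Fin 2), x ∈ A i → c (Sum.inl (x, k))
          + (if k = 0 then (p x).im else - (p x).re) * c (Sum.inr (Sum.inl i))
          - c (Sum.inr (Sum.inr (i, k))) = 0 := by
      intro i x k hx
      have := congrFun hc (Sum.inl (i, x, k))
      rw [NM_mulVec_inl, if_pos hx] at this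
      exact this
    have h2 : ∀ (x : V) (k : Fin 2), x ∉ U → c (Sum.inl (x, k)) = 0 := by
      intro x k hx
      have := congrFun hc (Sum.inr (x, k))
      rw [NM_mulVec_inr, if_pos hx] at this
      exact this
    have h3 : ∀ i, ∀ x ∈ A i, (⟨c (Sum.inl (x, 0)), c (Sum.inl (x, 1))⟩ : ℂ)
        = (c (Sum.inr (Sum.inl i)) : ℝ) * (I * p x)
          + ⟨c (Sum.inr (Sum.inr (i, 0))), c (Sum.inr (Sum.inr (i, 1)))⟩ := by
      intro i x hx
      have e0 := h1 i x 0 hx
      have e1 := h1 i x 1 hx
      simp at e0 e1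
      apply Complex.ext
      · simp
        linarith
      · simp
        linarith
    have h4 := hR (fun x => ⟨c (Sum.inl (x, 0)), c (Sum.inl (x, 1))⟩)
      (fun x hx => by
        apply Complex.ext
        · exact h2 x 0 hx
        · exact h2 x 1 hx)
      (fun i => ⟨c (Sum.inr (Sum.inl i)), _, h3 i⟩)
    have h5 : ∀ i, c (Sum.inr (Sum.inl i)) = 0 ∧
        (⟨c (Sum.inr (Sum.inr (i, 0))), c (Sum.inr (Sum.inr (i, 1)))⟩ : ℂ) = 0 := by
      intro i
      obtain ⟨x, hx, y, hy, hxy⟩ := hA i
      apply rot_coeff_zero hxy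
      · rw [← h3 i x hx]
        exact h4 x
      · rw [← h3 i y hy]
        exact h4 y
    funext s
    rcases s with ⟨x, k⟩ | i | ⟨i, k⟩
    · have := h4 x
      fin_cases k
      · exact congrArg Complex.re this
      · exact congrArg Complex.im this
    · exact (h5 i).1
    · have := (h5 i).2
      fin_cases k
      · exact congrArg Complex.re this
      · exact congrArg Complex.im this
  · intro hN u hu hrot x
    choose ω t h using hrot
    have h1 := hN (fun s => match s with
      | Sum.inl (x, k) => if k = 0 then (u x).re else (u x).im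
      | Sum.inr (Sum.inl i) => ω i
      | Sum.inr (Sum.inr (i, k)) => if k = 0 then (t i).re else (t i).im) ?_
    · apply Complex.ext
      · have := congrFun h1 (Sum.inl (x, 0))
        simpa using this
      · have := congrFun h1 (Sum.inl (x, 1))
        simpa using this
    · funext r
      rcases r with ⟨i, x, k⟩ | ⟨x, k⟩
      · rw [NM_mulVec_inl, Pi.zero_apply]
        by_cases hx : x ∈ A i
        · rw [if_pos hx]
          have h2 := h i x hx
          by_cases hk : k = 0
          · have := congrArg Complex.re h2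
            simp at this
            simp only [hk, if_true]
            linarith
          · have := congrArg Complex.im h2
            simp at this
            simp only [hk, if_false]
            linarith
        · rw [if_neg hx]
      · rw [NM_mulVec_inr, Pi.zero_apply]
        by_cases hx : x ∉ U
        · rw [if_pos hx]
          have h2 := hu x hx
          simp [h2]
        · rw [if_neg hx]

/-- Rigidity is the nonvanishing of a rational polynomial in the coordinates. -/
theorem rigid_poly (M : Multiset (Finset V)) (U : Finset V) :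
    ∃ G : MvPolynomial (V × Fin 2) ℚ, ∀ p : V → ℂ, NC M p →
      (Rigid M U p ↔ aeval (coord p) G ≠ 0) := by
  obtain ⟨G, hG⟩ := gram_poly (NM (fun i : Fin M.toList.length => M.toList.get i) U)
  refine ⟨G, fun p hp => ?_⟩
  rw [← hG (coord p), ← index_rigid_iff]
  · constructor
    · intro hR u hu hrot
      apply hR u hu
      intro A hA'
      rw [← Multiset.mem_toList] at hA'
      obtain ⟨i, hi⟩ := List.get_of_mem hA'
      rw [← hi]
      exact hrot i
    · intro hR u hu hrot
      apply hR u hu
      intro i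
      apply hrot
      rw [← Multiset.mem_toList]
      exact List.get_mem _ _
  · intro i
    apply hp
    rw [← Multiset.mem_toList]
    exact List.get_mem _ _

theorem generic_gp {p : V → ℂ} (hp : Generic p) : GP p := by
  constructor
  · intro x y hxy h
    have hG : (X (x, 0) - X (y, 0) : MvPolynomial (V × Fin 2) ℚ) ≠ 0 := by
      intro h0
      have := congrArg (eval (fun z : V × Fin 2 => if z = (x, 0) then (1 : ℚ) else 0)) h0
      simp [hxy.symm] at this
    have := generic_ne_zero hp hG
    apply this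
    simp [coord, h]
  · intro x y z hxy hyz hxz h
    have hG : ((X (y, 0) - X (x, 0)) * (X (z, 1) - X (x, 1))
        - (X (y, 1) - X (x, 1)) * (X (z, 0) - X (x, 0)) : MvPolynomial (V × Fin 2) ℚ) ≠ 0 := by
      intro h0
      have := congrArg (eval (fun w : V × Fin 2 => if w = (y, 0) then (1 : ℚ)
        else if w = (z, 1) then 1 else 0)) h0
      simp [hxy, hxy.symm, hyz.symm, hxz, hxz.symm] at this
    have := generic_ne_zero hp hG
    apply this
    simp only [map_sub, map_mul, aeval_X]
    simp only [coord, crs, sub_re, sub_im] at h ⊢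
    simpa using h

theorem gp_open : IsOpen {p : V → ℂ | GP p} := by
  have h1 : {p : V → ℂ | GP p} =
      (⋂ x : V, ⋂ y : V, {p : V → ℂ | x ≠ y → p x ≠ p y}) ∩
      (⋂ x : V, ⋂ y : V, ⋂ z : V, {p : V → ℂ | x ≠ y → y ≠ z → x ≠ z →
        crs (p y - p x) (p z - p x) ≠ 0}) := by
    ext p
    simp only [GP, Set.mem_inter_iff, Set.mem_iInter, Set.mem_ofPred_eq]
  rw [h1]
  apply IsOpen.inter
  · refine isOpen_iInter_of_finite fun x => isOpen_iInter_of_finite fun y => ?_
    by_cases hxy : x = y
    · simp [hxy]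
    · simp only [ne_eq, hxy, not_false_eq_true, true_implies]
      exact isOpen_ne_fun (continuous_apply x) (continuous_apply y)
  · refine isOpen_iInter_of_finite fun x => isOpen_iInter_of_finite fun y =>
      isOpen_iInter_of_finite fun z => ?_
    by_cases hxy : x = y
    · simp [hxy]
    · by_cases hyz : y = z
      · simp [hyz]
      · by_cases hxz : x = z
        · simp [hxz]
        · simp only [ne_eq, hxy, hyz, hxz, not_false_eq_true, true_implies]
          apply isOpen_ne_fun _ continuous_const
          unfold crs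
          have cre : ∀ v : V, Continuous fun p : V → ℂ => (p v).re :=
            fun v => Complex.continuous_re.comp (continuous_apply v)
          have cim : ∀ v : V, Continuous fun p : V → ℂ => (p v).im :=
            fun v => Complex.continuous_im.comp (continuous_apply v)
          simp only [sub_re, sub_im]
          exact ((((cre y).sub (cre x)).mul ((cim z).sub (cim x))).sub
            (((cim y).sub (cim x)).mul ((cre z).sub (cre x))))

/-- In general position and rigid. -/
def Fine (M : Multiset (Finset V)) (U : Finset V) (p : V → ℂ) : Prop := GP p ∧ Rigid M U p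

theorem fine_nhds {M : Multiset (Finset V)} {U : Finset V} {p : V → ℂ}
    (hA : ∀ A ∈ M, 2 ≤ A.card) (h : Fine M U p) : ∀ᶠ p' in 𝓝 p, Fine M U p' := by
  obtain ⟨G, hG⟩ := rigid_poly M U
  have h1 : ∀ᶠ p' in 𝓝 p, GP p' := gp_open.mem_nhds h.1
  have h2 : ∀ᶠ p' in 𝓝 p, aeval (coord p') G ≠ 0 := by
    have hcont : Continuous (fun p' : V → ℂ => aeval (coord p') G) :=
      (continuous_aeval_poly G).comp continuous_coord
    exact (isOpen_ne_fun hcont continuous_const).mem_nhds
      ((hG p (nc_of_inj hA h.1.1)).mp h.2)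
  filter_upwards [h1, h2] with p' hp1 hp2
  exact ⟨hp1, (hG p' (nc_of_inj hA hp1.1)).mpr hp2⟩

theorem nc_nhds {M : Multiset (Finset V)} {p : V → ℂ} (hp : NC M p) :
    ∀ᶠ p' in 𝓝 p, NC M p' := by
  have h : ∀ A ∈ M.toFinset, ∀ᶠ p' in 𝓝 p, ∃ x ∈ A, ∃ y ∈ A, p' x ≠ p' y := by
    intro A hA
    obtain ⟨x, hx, y, hy, hxy⟩ := hp A (Multiset.mem_toFinset.mp hA)
    have ho : IsOpen {p' : V → ℂ | p' x ≠ p' y} :=
      isOpen_ne_fun (continuous_apply x) (continuous_apply y)
    have := ho.mem_nhds hxy
    filter_upwards [this] with p' hp'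
    exact ⟨x, hx, y, hy, hp'⟩
  have h2 := (Filter.eventually_all_finset M.toFinset).mpr h
  filter_upwards [h2] with p' hp' A hA
  exact hp' A (Multiset.mem_toFinset.mpr hA)

/-- Rigidity persists nearby, when no body is collapsed. -/
theorem rigid_nhds {M : Multiset (Finset V)} {U : Finset V} {p : V → ℂ}
    (hp : NC M p) (h : Rigid M U p) :
    ∀ᶠ p' in 𝓝 p, Rigid M U p' := by
  obtain ⟨G, hG⟩ := rigid_poly M U
  have h2 : ∀ᶠ p' in 𝓝 p, aeval (coord p') G ≠ 0 := by
    have hcont : Continuous (fun p' : V → ℂ => aeval (coord p') G) :=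
      (continuous_aeval_poly G).comp continuous_coord
    exact (isOpen_ne_fun hcont continuous_const).mem_nhds ((hG p hp).mp h)
  filter_upwards [h2, nc_nhds hp] with p' hp2 hp3
  exact (hG p' hp3).mpr hp2

theorem fine_generic {M : Multiset (Finset V)} {U : Finset V} {p p' : V → ℂ}
    (hA : ∀ A ∈ M, 2 ≤ A.card) (h : Fine M U p) (hp' : Generic p') : Fine M U p' := by
  obtain ⟨G, hG⟩ := rigid_poly M U
  have hgp := generic_gp hp'
  refine ⟨hgp, (hG p' (nc_of_inj hA hgp.1)).mpr ?_⟩
  apply generic_ne_zero hp'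
  intro h0
  apply (hG p (nc_of_inj hA h.1.1)).mp h.2
  rw [h0, map_zero]

end Pool.Agent.Lib.MP_699f60_co
end
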