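import Mathlib
import Pool.Agent.Lib.MP_699f60_co.Iso
import Pool.Agent.Lib.MP_699f60_co.Fine

section

set_option autoImplicit false

namespace Pool.Agent.Lib.MP_699f60_co

open Set

/-- Being in a common circuit is transitive. -/
theorem circuit_trans {α : Type*} [Finite α] (M : Matroid α) {C₁ C₂ : Set α} {e f g : α}
    (h1 : M.IsCircuit C₁) (h2 : M.IsCircuit C₂) (he : e ∈ C₁) (hf1 : f ∈ C₁) (hf2 : f ∈ C₂)
    (hg : g ∈ C₂) (heg : e ≠ g) : ∃ C, M.IsCircuit C ∧ e ∈ C ∧ g ∈ C := by
  have _ := heg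
  by_contra hno
  push Not at hno
  have key : ∀ n : ℕ, ∀ D₁ D₂ : Set α, ∀ x : α, (D₁ ∪ D₂).ncard = n → M.IsCircuit D₁ →
      M.IsCircuit D₂ → e ∈ D₁ → g ∈ D₂ → x ∈ D₁ → x ∈ D₂ → False := by
    intro n
    induction n using Nat.strong_induction_on with
    | _ n ih =>
      intro D₁ D₂ x hn hD₁ hD₂ heD hgD hx₁ hx₂
      have heD₂ : e ∉ D₂ := fun h => hno D₂ hD₂ h hgD
      have hgD₁ : g ∉ D₁ := fun h => hno D₁ hD₁ heD h
      obtain ⟨D₃, hD₃s, hD₃, heD₃⟩ := hD₁.strong_elimination hD₂ hx₁ hx₂ heD heD₂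
      obtain ⟨D₄, hD₄s, hD₄, hgD₄⟩ := hD₂.strong_elimination hD₁ hx₂ hx₁ hgD hgD₁
      have hx₃ : x ∉ D₃ := fun h => (hD₃s h).2 rfl
      have hx₄ : x ∉ D₄ := fun h => (hD₄s h).2 rfl
      have hD₃U : D₃ ⊆ D₁ ∪ D₂ := fun z hz => (hD₃s hz).1
      have hD₄U : D₄ ⊆ D₁ ∪ D₂ := fun z hz => (hD₄s hz).1.symm
      -- `D₃` and `D₄` are disjoint
      have hdisj : ∀ z, z ∈ D₃ → z ∈ D₄ → False := by
        intro z hz3 hz4
        have hlt : (D₃ ∪ D₄).ncard < n := by
          rw [← hn]
          apply ncard_lt_ncard _ (toFinite _)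
          refine ⟨union_subset hD₃U hD₄U, ?_⟩
          intro hsub
          rcases hsub (Or.inl hx₁) with h | h
          · exact hx₃ h
          · exact hx₄ h
        exact ih _ hlt D₃ D₄ z rfl hD₃ hD₄ heD₃ hgD₄ hz3 hz4
      -- `D₃` meets `D₂ \ D₁`
      obtain ⟨y, hy3, hy1⟩ : ∃ y ∈ D₃, y ∉ D₁ := by
        by_contra hcon
        push Not at hcon
        have hsub : D₃ ⊆ D₁ := hcon
        have := hD₃.eq_of_subset_isCircuit hD₁ hsub
        exact hx₃ (this ▸ hx₁)
      have hy2 : y ∈ D₂ := (hD₃U hy3).resolve_left hy1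
      -- `D₄` meets `D₁ \ D₂`
      obtain ⟨u, hu4, hu2⟩ : ∃ u ∈ D₄, u ∉ D₂ := by
        by_contra hcon
        push Not at hcon
        have hsub : D₄ ⊆ D₂ := hcon
        have := hD₄.eq_of_subset_isCircuit hD₂ hsub
        exact hx₄ (this ▸ hx₂)
      have hu1 : u ∈ D₁ := (hD₄U hu4).resolve_right hu2
      have hlt : (D₃ ∪ D₂).ncard < n := by
        rw [← hn]
        apply ncard_lt_ncard _ (toFinite _)
        refine ⟨union_subset hD₃U subset_union_right, ?_⟩
        intro hsub
        rcases hsub (Or.inl hu1) with h | h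
        · exact hdisj u h hu4
        · exact hu2 h
      exact ih _ hlt D₃ D₂ y rfl hD₃ hD₂ heD₃ hgD hy3 hy2
  exact key _ C₁ C₂ f rfl h1 h2 he hg hf1 hf2

section lin

variable {α W : Type*} [Finite α] [AddCommGroup W] [Module ℝ W]

omit [Finite α] in
theorem linearIndepOn_ncard_le {r : α → W} {I J : Set α} (hIf : I.Finite) (hJf : J.Finite)
    (hJ : LinearIndepOn ℝ r J)
    (h : ∀ e ∈ J, r e ∈ Submodule.span ℝ (r '' I)) : J.ncard ≤ I.ncard := by
  have hfin : (r '' I).Finite := hIf.image r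
  have hfd : FiniteDimensional ℝ (Submodule.span ℝ (r '' I)) :=
    FiniteDimensional.span_of_finite ℝ hfin
  have : Fintype J := hJf.fintype
  let s : J → Submodule.span ℝ (r '' I) := fun j => ⟨r j, h j j.2⟩
  have hs : LinearIndependent ℝ s := by
    apply LinearIndependent.of_comp (Submodule.span ℝ (r '' I)).subtype
    exact hJ
  have h1 := hs.fintype_card_le_finrank
  have h2 : Module.finrank ℝ (Submodule.span ℝ (r '' I)) ≤ (r '' I).ncard := by
    have := hfin.fintype
    rw [ncard_eq_toFinset_card']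
    exact finrank_span_le_card (R := ℝ) (r '' I)
  have h3 : (r '' I).ncard ≤ I.ncard := ncard_image_le hIf
  rw [← Nat.card_eq_fintype_card] at h1
  exact h1.trans (h2.trans h3)

/-- The linear matroid of a family of vectors. -/
noncomputable def linM (r : α → W) : Matroid α :=
  (IndepMatroid.ofFinite (E := univ) finite_univ (fun F => LinearIndepOn ℝ r F)
    (linearIndepOn_empty ℝ r) (fun _ _ hJ hIJ => hJ.mono hIJ)
    (by
      intro I J hI hJ hlt
      by_contra hcon
      push Not at hcon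
      have h : ∀ e ∈ J, r e ∈ Submodule.span ℝ (r '' I) := by
        intro e he
        by_cases heI : e ∈ I
        · exact Submodule.subset_span (mem_image_of_mem r heI)
        · by_contra hspan
          exact hcon e he heI ((linearIndepOn_insert heI).2 ⟨hI, hspan⟩)
      have := linearIndepOn_ncard_le (toFinite I) (toFinite J) hJ h
      omega)
    (fun _ _ => subset_univ _)).matroid

theorem linM_E (r : α → W) : (linM r).E = Set.univ := rfl

theorem linM_indep_iff (r : α → W) (F : Set α) : (linM r).Indep F ↔ LinearIndepOn ℝ r F := by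
  unfold linM
  simp

theorem mem_linM_closure (r : α → W) (F : Set α) (e : α) :
    e ∈ (linM r).closure F ↔ r e ∈ Submodule.span ℝ (r '' F) := by
  obtain ⟨I, hI⟩ := (linM r).exists_isBasis F (by rw [linM_E]; exact subset_univ _)
  have hIind : LinearIndepOn ℝ r I := (linM_indep_iff r I).1 hI.indep
  have hspan : Submodule.span ℝ (r '' F) = Submodule.span ℝ (r '' I) := by
    apply le_antisymm
    · rw [Submodule.span_le]
      rintro _ ⟨f, hf, rfl⟩
      by_cases hfI : f ∈ I
      · exact Submodule.subset_span (mem_image_of_mem r hfI)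
      · by_contra hn
        apply hfI
        apply hI.mem_of_insert_indep hf
        rw [linM_indep_iff]
        exact (linearIndepOn_insert hfI).2 ⟨hIind, hn⟩
    · exact Submodule.span_mono (image_mono hI.subset)
  rw [← hI.closure_eq_closure, hspan, hI.indep.mem_closure_iff', linM_indep_iff, linM_E]
  simp only [mem_univ, true_and]
  by_cases heI : e ∈ I
  · simp only [heI, implies_true, true_iff]
    exact Submodule.subset_span (mem_image_of_mem r heI)
  · rw [linearIndepOn_insert heI]
    simp only [heI, imp_false, not_and, not_not]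
    exact ⟨fun h => h hIind, fun h _ => h⟩

end lin

end Pool.Agent.Lib.MP_699f60_co
end

section

set_option autoImplicit false

namespace Pool.Agent.Lib.MP_699f60_co

open Complex

variable {V : Type*}

/-- The strain functional of the pair `e` at the placement `p`. -/
noncomputable def SL (p : V → ℂ) (e : Sym2 V) : (V → ℂ) →ₗ[ℝ] ℝ :=
  Sym2.lift ⟨fun x y =>
    { toFun := fun u => dot (p x - p y) (u x - u y)
      map_add' := by
        intro u v
        simp only [Pi.add_apply, dot, sub_re, sub_im, add_re, add_im]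
        ring
      map_smul' := by
        intro c u
        simp only [Pi.smul_apply, dot, real_smul, sub_re, sub_im, mul_re, mul_im, ofReal_re,
          ofReal_im, RingHom.id_apply, smul_eq_mul]
        ring }, by
    intro x y
    ext u
    simp only [LinearMap.coe_mk, AddHom.coe_mk, dot, sub_re, sub_im]
    ring⟩ e

theorem SL_mk (p u : V → ℂ) (x y : V) : SL p s(x, y) u = dot (p x - p y) (u x - u y) := rfl

/-- `SL p e u` depends only on the values on `e`. -/
theorem SL_congr {p p' u u' : V → ℂ} {e : Sym2 V} (hp : ∀ x ∈ e, p x = p' x)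
    (hu : ∀ x ∈ e, u x = u' x) : SL p e u = SL p' e u' := by
  induction e using Sym2.ind with
  | _ x y =>
    rw [SL_mk, SL_mk, hp x (by simp), hp y (by simp), hu x (by simp), hu y (by simp)]

/-- `e` is implied by `F`. -/
def Cl (p : V → ℂ) (F : Set (Sym2 V)) (e : Sym2 V) : Prop :=
  ∀ u : V → ℂ, (∀ f ∈ F, SL p f u = 0) → SL p e u = 0

theorem Cl.mono {p : V → ℂ} {F F' : Set (Sym2 V)} {e : Sym2 V} (h : Cl p F e) (hF : F ⊆ F') :
    Cl p F' e := fun u hu => h u (fun f hf => hu f (hF hf))

theorem mem_span_iff_cl [Finite V] {p : V → ℂ} {F : Set (Sym2 V)} {e : Sym2 V} :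
    SL p e ∈ Submodule.span ℝ (SL p '' F) ↔ Cl p F e := by
  constructor
  · intro h u hu
    have : ∀ L ∈ Submodule.span ℝ (SL p '' F), L u = 0 := by
      intro L hL
      induction hL using Submodule.span_induction with
      | mem x hx =>
        obtain ⟨f, hf, rfl⟩ := hx
        exact hu f hf
      | zero => simp
      | add x y _ _ hx hy => rw [LinearMap.add_apply, hx, hy, add_zero]
      | smul a x _ hx => rw [LinearMap.smul_apply, hx, smul_zero]
    exact this _ h
  · intro h
    have h1 : SL p e ∈ Submodule.span ℝ (Set.range (fun f : F => SL p f)) := by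
      apply mem_span_of_iInf_ker_le_ker
      intro u hu
      rw [Submodule.mem_iInf] at hu
      rw [LinearMap.mem_ker]
      apply h
      intro f hf
      exact hu ⟨f, hf⟩
    rwa [Set.image_eq_range]

theorem indep_iff [Finite V] {p : V → ℂ} {F : Set (Sym2 V)} :
    LinearIndepOn ℝ (SL p) F ↔
      ∀ e ∈ F, ∃ u : V → ℂ, (∀ f ∈ F, f ≠ e → SL p f u = 0) ∧ SL p e u ≠ 0 := by
  rw [linearIndepOn_iff_notMem_span]
  apply forall₂_congr
  intro e he
  rw [mem_span_iff_cl]
  unfold Cl
  push Not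
  apply exists_congr
  intro u
  apply and_congr_left
  intro _
  constructor
  · intro h f hf hne
    exact h f ⟨hf, hne⟩
  · intro h f hf
    exact h f hf.1 hf.2

/-- `F` is infinitesimally rigid on `A`. -/
def RigidOn (p : V → ℂ) (F : Set (Sym2 V)) (A : Finset V) : Prop :=
  ∀ u : V → ℂ, (∀ e ∈ F, SL p e u = 0) → IsRot p u A

theorem IsRot.SL_eq {p u : V → ℂ} {A : Finset V} (h : IsRot p u A) {e : Sym2 V}
    (he : ∀ x ∈ e, x ∈ A) : SL p e u = 0 := by
  induction e using Sym2.ind with
  | _ x y =>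
    rw [SL_mk]
    exact h.dot_eq (he x (by simp)) (he y (by simp))

section count

variable [Fintype V] [DecidableEq V]

/-- Extension by zero. -/
noncomputable def extL (A : Finset V) : (A → ℂ) →ₗ[ℝ] (V → ℂ) where
  toFun u := fun x => if h : x ∈ A then u ⟨x, h⟩ else 0
  map_add' := by
    intro u v
    funext x
    by_cases h : x ∈ A <;> simp [h]
  map_smul' := by
    intro c u
    funext x
    by_cases h : x ∈ A <;> simp [h]

/-- The strain map on `A`. -/
noncomputable def strM (p : V → ℂ) (F : Finset (Sym2 V)) (A : Finset V) :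
    (A → ℂ) →ₗ[ℝ] (F → ℝ) :=
  LinearMap.pi (fun f : F => (SL p f).comp (extL A))

/-- The trivial motions. -/
noncomputable def trivM (p : V → ℂ) (A : Finset V) : (ℝ × ℂ) →ₗ[ℝ] (A → ℂ) where
  toFun X := fun x => (X.1 : ℂ) * (I * p x) + X.2
  map_add' := by
    intro X Y
    funext x
    simp only [Prod.fst_add, Prod.snd_add, Pi.add_apply]
    push_cast
    ring
  map_smul' := by
    intro c X
    funext x
    simp only [Prod.smul_fst, Prod.smul_snd, Pi.smul_apply, RingHom.id_apply, real_smul,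
      smul_eq_mul]
    push_cast
    ring

theorem trivM_injective {p : V → ℂ} {A : Finset V} (hp : ∃ x ∈ A, ∃ y ∈ A, p x ≠ p y) :
    Function.Injective (trivM p A) := by
  obtain ⟨x, hx, y, hy, hxy⟩ := hp
  rw [← LinearMap.ker_eq_bot, LinearMap.ker_eq_bot']
  intro X hX
  have h1 := congrFun hX ⟨x, hx⟩
  have h2 := congrFun hX ⟨y, hy⟩
  change (X.1 : ℂ) * (I * p x) + X.2 = 0 at h1
  change (X.1 : ℂ) * (I * p y) + X.2 = 0 at h2
  obtain ⟨h3, h4⟩ := rot_coeff_zero hxy h1 h2
  exact Prod.ext h3 h4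

theorem strM_apply {p : V → ℂ} {F : Finset (Sym2 V)} {A : Finset V}
    (hF : ∀ e ∈ F, ∀ x ∈ e, x ∈ A) (u : V → ℂ) (f : F) :
    strM p F A (fun x : A => u x) f = SL p f u := by
  change SL p f (extL A (fun x : A => u x)) = SL p f u
  apply SL_congr (fun _ _ => rfl)
  intro x hx
  have := hF f f.2 x hx
  simp [extL, this]

theorem trivM_le {p : V → ℂ} {F : Finset (Sym2 V)} {A : Finset V}
    (hF : ∀ e ∈ F, ∀ x ∈ e, x ∈ A) : (trivM p A).range ≤ (strM p F A).ker := by
  rintro _ ⟨X, rfl⟩
  rw [LinearMap.mem_ker]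
  funext f
  have h : IsRot p (fun x => (X.1 : ℂ) * (I * p x) + X.2) A := ⟨X.1, X.2, fun x _ => rfl⟩
  have := h.SL_eq (hF f f.2)
  rw [← strM_apply hF] at this
  exact this

theorem strM_surj {p : V → ℂ} {F : Finset (Sym2 V)} {A : Finset V}
    (hF : ∀ e ∈ F, ∀ x ∈ e, x ∈ A) (hI : LinearIndepOn ℝ (SL p) (F : Set (Sym2 V))) :
    Function.Surjective (strM p F A) := by
  rw [indep_iff] at hI
  choose! u hu1 hu2 using hI
  intro c
  refine ⟨∑ f : F, (c f / SL p f (u f)) • (fun x : A => u f x), ?_⟩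
  rw [map_sum]
  funext e
  rw [Finset.sum_apply, Finset.sum_eq_single e]
  · rw [map_smul, Pi.smul_apply, strM_apply hF, smul_eq_mul,
      div_mul_cancel₀ _ (hu2 e e.2)]
  · intro f _ hfe
    rw [map_smul, Pi.smul_apply, strM_apply hF, hu1 f f.2 e e.2, smul_zero]
    intro h
    exact hfe (Subtype.ext h.symm)
  · intro h
    exact absurd (Finset.mem_univ _) h

theorem finrank_ker {p : V → ℂ} {F : Finset (Sym2 V)} {A : Finset V}
    (hF : ∀ e ∈ F, ∀ x ∈ e, x ∈ A) (hI : LinearIndepOn ℝ (SL p) (F : Set (Sym2 V))) :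
    F.card + Module.finrank ℝ (strM p F A).ker = 2 * A.card := by
  have h1 := LinearMap.finrank_range_add_finrank_ker (strM p F A)
  rw [LinearMap.range_eq_top.mpr (strM_surj hF hI), finrank_top] at h1
  rw [Module.finrank_pi_fintype, Module.finrank_pi_fintype] at h1
  simp only [Complex.finrank_real_complex, Module.finrank_self, Finset.sum_const,
    Finset.card_univ, Fintype.card_coe, smul_eq_mul, mul_one] at h1
  rw [h1, mul_comm]

theorem finrank_triv {p : V → ℂ} {A : Finset V} (hp : ∃ x ∈ A, ∃ y ∈ A, p x ≠ p y) :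
    Module.finrank ℝ (trivM p A).range = 3 := by
  rw [LinearMap.finrank_range_of_inj (trivM_injective hp), Module.finrank_prod,
    Module.finrank_self, Complex.finrank_real_complex]

theorem indep_card_le {p : V → ℂ} {F : Finset (Sym2 V)} {A : Finset V}
    (hp : ∃ x ∈ A, ∃ y ∈ A, p x ≠ p y)
    (hF : ∀ e ∈ F, ∀ x ∈ e, x ∈ A) (hI : LinearIndepOn ℝ (SL p) (F : Set (Sym2 V))) :
    F.card + 3 ≤ 2 * A.card := by
  have h1 := finrank_ker hF hI
  have h2 := Submodule.finrank_mono (trivM_le (p := p) hF)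
  rw [finrank_triv hp] at h2
  omega

theorem rigidOn_of_card {p : V → ℂ} {F : Finset (Sym2 V)} {A : Finset V}
    (hp : ∃ x ∈ A, ∃ y ∈ A, p x ≠ p y)
    (hF : ∀ e ∈ F, ∀ x ∈ e, x ∈ A) (hI : LinearIndepOn ℝ (SL p) (F : Set (Sym2 V)))
    (hc : 2 * A.card ≤ F.card + 3) : RigidOn p F A := by
  have h1 := finrank_ker hF hI
  have h2 : (trivM p A).range = (strM p F A).ker := by
    apply Submodule.eq_of_le_of_finrank_le (trivM_le hF)
    rw [finrank_triv hp]
    omega
  intro u hu
  have h3 : (fun x : A => u x) ∈ (strM p F A).ker := by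
    rw [LinearMap.mem_ker]
    funext f
    rw [strM_apply hF]
    exact hu f f.2
  rw [← h2] at h3
  obtain ⟨X, hX⟩ := h3
  refine ⟨X.1, X.2, fun x hx => ?_⟩
  exact (congrFun hX ⟨x, hx⟩).symm

theorem card_of_rigidOn {p : V → ℂ} {F : Finset (Sym2 V)} {A : Finset V}
    (hp : ∃ x ∈ A, ∃ y ∈ A, p x ≠ p y)
    (hF : ∀ e ∈ F, ∀ x ∈ e, x ∈ A) (hI : LinearIndepOn ℝ (SL p) (F : Set (Sym2 V)))
    (hR : RigidOn p F A) : F.card + 3 = 2 * A.card := by
  have h1 := finrank_ker hF hI
  have h2 : (trivM p A).range = (strM p F A).ker := by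
    apply le_antisymm (trivM_le hF)
    intro u hu
    rw [LinearMap.mem_ker] at hu
    have h3 : ∀ e ∈ (F : Set (Sym2 V)), SL p e (extL A u) = 0 := by
      intro e he
      exact congrFun hu ⟨e, he⟩
    obtain ⟨ω, t, h⟩ := hR _ h3
    refine ⟨(ω, t), ?_⟩
    funext x
    have := h x x.2
    have h4 : extL A u x = u x := by simp [extL]
    rw [h4] at this
    exact this.symm
  rw [← h2, finrank_triv hp] at h1
  exact h1

end count

end Pool.Agent.Lib.MP_699f60_co
end

section

set_option autoImplicit false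

namespace Pool.Agent.Lib.MP_699f60_co

open Complex MvPolynomial

variable {V : Type*} [Fintype V] [DecidableEq V]

/-- The row of the pair `e`, over any commutative ring of coordinates. -/
def rowR {K : Type*} [CommRing K] (c : V × Fin 2 → K) (e : Sym2 V) : V × Fin 2 → K :=
  Sym2.lift ⟨fun x y z => (if z.1 = x then c (x, z.2) - c (y, z.2) else 0)
    + (if z.1 = y then c (y, z.2) - c (x, z.2) else 0), by
    intro x y
    funext z
    exact add_comm _ _⟩ e

theorem rowR_mk {K : Type*} [CommRing K] (c : V × Fin 2 → K) (x y : V) (z : V × Fin 2) :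
    rowR c s(x, y) z = (if z.1 = x then c (x, z.2) - c (y, z.2) else 0)
      + (if z.1 = y then c (y, z.2) - c (x, z.2) else 0) := rfl

theorem rowR_map {K K' : Type*} [CommRing K] [CommRing K'] (φ : K →+* K') (c : V × Fin 2 → K)
    (e : Sym2 V) (z : V × Fin 2) : rowR (fun x => φ (c x)) e z = φ (rowR c e z) := by
  induction e using Sym2.ind with
  | _ x y =>
    rw [rowR_mk, rowR_mk]
    split_ifs <;> simp

/-- The pairing of rows with velocity fields. -/
noncomputable def TT : (V × Fin 2 → ℝ) →ₗ[ℝ] ((V → ℂ) →ₗ[ℝ] ℝ) where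
  toFun r :=
    { toFun := fun u => ∑ z, r z * coord u z
      map_add' := by
        intro u v
        rw [← Finset.sum_add_distrib]
        apply Finset.sum_congr rfl
        intro z _
        simp only [coord, Pi.add_apply, add_re, add_im]
        split_ifs <;> ring
      map_smul' := by
        intro c u
        rw [RingHom.id_apply, smul_eq_mul, Finset.mul_sum]
        apply Finset.sum_congr rfl
        intro z _
        simp only [coord, Pi.smul_apply, real_smul, mul_re, mul_im, ofReal_re, ofReal_im]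
        split_ifs <;> ring }
  map_add' := by
    intro r r'
    apply LinearMap.ext
    intro u
    simp only [LinearMap.coe_mk, AddHom.coe_mk, LinearMap.add_apply, Pi.add_apply]
    rw [← Finset.sum_add_distrib]
    apply Finset.sum_congr rfl
    intro z _
    ring
  map_smul' := by
    intro c r
    apply LinearMap.ext
    intro u
    simp only [LinearMap.coe_mk, AddHom.coe_mk, LinearMap.smul_apply, Pi.smul_apply,
      smul_eq_mul, RingHom.id_apply]
    rw [Finset.mul_sum]
    apply Finset.sum_congr rfl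
    intro z _
    ring

theorem TT_apply (r : V × Fin 2 → ℝ) (u : V → ℂ) : TT r u = ∑ z, r z * coord u z := rfl

theorem TT_ker : LinearMap.ker (TT (V := V)) = ⊥ := by
  rw [LinearMap.ker_eq_bot']
  intro r hr
  funext z
  have h := LinearMap.congr_fun hr (ofCoord (Pi.single z 1))
  rw [TT_apply, coord_ofCoord, Finset.sum_eq_single z] at h
  · simpa using h
  · intro b _ hb
    simp [Pi.single_apply, hb]
  · intro h'
    exact absurd (Finset.mem_univ _) h'

theorem TT_row (p : V → ℂ) (e : Sym2 V) : TT (rowR (coord p) e) = SL p e := by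
  induction e using Sym2.ind with
  | _ x y =>
    apply LinearMap.ext
    intro u
    rw [TT_apply, SL_mk]
    simp only [rowR_mk, add_mul, Finset.sum_add_distrib, ite_mul, zero_mul]
    rw [Fintype.sum_prod_type, Fintype.sum_prod_type]
    simp only [Fin.sum_univ_two, Finset.sum_add_distrib, Finset.sum_ite_eq', Finset.mem_univ,
      if_true]
    simp only [coord, dot, sub_re, sub_im]
    simp
    ring

theorem indep_rows_iff (p : V → ℂ) (F : Set (Sym2 V)) :
    LinearIndepOn ℝ (rowR (coord p)) F ↔ LinearIndepOn ℝ (SL p) F := by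
  have h : SL p = TT ∘ rowR (coord p) := by
    funext e
    exact (TT_row p e).symm
  rw [h]
  unfold LinearIndepOn
  have := LinearMap.linearIndependent_iff (TT (V := V)) TT_ker
    (v := fun x : F => rowR (coord p) x)
  exact this.symm

/-- The polynomial matrix whose columns are the rows of the pairs in `F`. -/
noncomputable def RM (F : Set (Sym2 V)) : Matrix (V × Fin 2) F (MvPolynomial (V × Fin 2) ℚ) :=
  fun z e => rowR (fun x => (X x : MvPolynomial (V × Fin 2) ℚ)) e.1 z

/-- Independence at one placement implies independence at generic placements. -/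
theorem indep_generic {p p' : V → ℂ} (hp : Generic p) {F : Set (Sym2 V)}
    (h : LinearIndepOn ℝ (SL p') F) : LinearIndepOn ℝ (SL p) F := by
  classical
  have : Fintype F := Fintype.ofFinite F
  obtain ⟨G, hG⟩ := gram_poly (RM F)
  have key : ∀ p : V → ℂ, LinearIndepOn ℝ (SL p) F ↔ aeval (coord p) G ≠ 0 := by
    intro p
    rw [← hG (coord p), ← indep_rows_iff]
    unfold LinearIndepOn
    rw [Fintype.linearIndependent_iff]
    have hrow : ∀ (c : F → ℝ), (∑ i, c i • rowR (coord p) (i : Sym2 V)) =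
        ((RM F).map (aeval (coord p) : MvPolynomial (V × Fin 2) ℚ →ₐ[ℚ] ℝ)).mulVec c := by
      intro c
      funext z
      rw [Finset.sum_apply]
      unfold Matrix.mulVec dotProduct
      apply Finset.sum_congr rfl
      intro e _
      rw [Pi.smul_apply, smul_eq_mul, mul_comm]
      congr 1
      have := rowR_map (V := V) (aeval (coord p) : MvPolynomial (V × Fin 2) ℚ →ₐ[ℚ] ℝ).toRingHom
        (fun x => (X x : MvPolynomial (V × Fin 2) ℚ)) e.1 z
      simp only [AlgHom.toRingHom_eq_coe, RingHom.coe_coe, aeval_X] at this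
      exact this
    constructor
    · intro h c hc
      funext i
      exact h c (by rw [hrow]; exact hc) i
    · intro h c hc i
      rw [hrow] at hc
      exact congrFun (h c hc) i
  rw [key p]
  apply generic_ne_zero hp
  intro h0
  apply (key p').mp h
  rw [h0, map_zero]

end Pool.Agent.Lib.MP_699f60_co
end

section

set_option autoImplicit false

namespace Pool.Agent.Lib.MP_699f60_co

open Complex Function

variable {V : Type*} [Fintype V] [DecidableEq V]

/-- The rigidity matroid at the placement `p`, on all pairs. -/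
noncomputable def Mx (p : V → ℂ) : Matroid (Sym2 V) := linM (SL p)

theorem Mx_indep {p : V → ℂ} {F : Set (Sym2 V)} :
    (Mx p).Indep F ↔ LinearIndepOn ℝ (SL p) F := linM_indep_iff _ _

theorem Mx_closure {p : V → ℂ} {F : Set (Sym2 V)} {e : Sym2 V} :
    e ∈ (Mx p).closure F ↔ Cl p F e := by
  unfold Mx
  rw [mem_linM_closure, mem_span_iff_cl]

theorem Mx_E (p : V → ℂ) : (Mx p).E = Set.univ := linM_E _

/-- The vertex set of a set of pairs. -/
noncomputable def vs (C : Set (Sym2 V)) : Finset V := by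
  classical
  exact Finset.univ.filter (fun x => ∃ e ∈ C, x ∈ e)

theorem mem_vs {C : Set (Sym2 V)} {x : V} : x ∈ vs C ↔ ∃ e ∈ C, x ∈ e := by
  classical
  simp [vs]

theorem circuit_cl {p : V → ℂ} {C : Set (Sym2 V)} (hC : (Mx p).IsCircuit C) {e : Sym2 V}
    (he : e ∈ C) : Cl p (C \ {e}) e :=
  Mx_closure.mp (hC.mem_closure_sdiff_singleton_of_mem he)

theorem exists_circuit {p : V → ℂ} {F : Set (Sym2 V)} {e : Sym2 V} (h : Cl p F e)
    (he : e ∉ F) : ∃ C ⊆ insert e F, (Mx p).IsCircuit C ∧ e ∈ C :=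
  Matroid.exists_isCircuit_of_mem_closure (Mx_closure.mpr h) he

theorem not_indep_of_cl {p : V → ℂ} {F : Set (Sym2 V)} {e : Sym2 V} (h : Cl p F e)
    (he : e ∉ F) : ¬ LinearIndepOn ℝ (SL p) (insert e F) := by
  intro hI
  rw [indep_iff] at hI
  obtain ⟨u, hu1, hu2⟩ := hI e (Set.mem_insert _ _)
  apply hu2
  apply h
  intro f hf
  exact hu1 f (Set.mem_insert_of_mem _ hf) (fun e' => he (e' ▸ hf))

theorem indep_insert {p : V → ℂ} {F : Set (Sym2 V)} {e : Sym2 V}
    (hF : LinearIndepOn ℝ (SL p) F) (h : ¬ Cl p F e) :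
    LinearIndepOn ℝ (SL p) (insert e F) := by
  have heF : e ∉ F := fun he => h (fun u hu => hu e he)
  rw [linearIndepOn_insert heF]
  exact ⟨hF, fun h' => h (mem_span_iff_cl.mp h')⟩

theorem SL_diag {p : V → ℂ} {e : Sym2 V} (he : e.IsDiag) (u : V → ℂ) : SL p e u = 0 := by
  induction e using Sym2.ind with
  | _ x y =>
    rw [Sym2.mk_isDiag_iff] at he
    subst he
    rw [SL_mk, sub_self, sub_self, dot_zero_right]

/-- A circuit with a diagonal element is a singleton. -/
theorem circuit_diag {p : V → ℂ} {C : Set (Sym2 V)} (hC : (Mx p).IsCircuit C) {e : Sym2 V}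
    (he : e ∈ C) (hd : e.IsDiag) : C = {e} := by
  symm
  apply hC.eq_of_not_indep_subset
  · rw [Mx_indep, indep_iff]
    intro h
    obtain ⟨u, -, hu⟩ := h e rfl
    exact hu (SL_diag hd u)
  · simpa using he

/-- Values on one vertex. -/
theorem SL_single {p : V → ℂ} {z : V} {c : ℂ} {f : Sym2 V} (hf : z ∉ f) :
    SL p f (update 0 z c) = 0 := by
  have : SL p f (update 0 z c) = SL p f 0 := by
    apply SL_congr (fun _ _ => rfl)
    intro x hx
    have : x ≠ z := fun e => hf (e ▸ hx)
    rw [update_of_ne this]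
  rw [this, map_zero]

theorem SL_single' {p : V → ℂ} {z x : V} (hzx : z ≠ x) {c : ℂ} :
    SL p s(z, x) (update 0 z c) = dot (p z - p x) c := by
  rw [SL_mk, update_self, update_of_ne (Ne.symm hzx), Pi.zero_apply, sub_zero]

/-- Vertices of circuits have at least three edges. -/
theorem min_degree {p : V → ℂ} (hp : GP p) {C : Set (Sym2 V)} (hC : (Mx p).IsCircuit C)
    (hd : ∀ e ∈ C, ¬ e.IsDiag) {z x y : V} (hx : s(z, x) ∈ C) :
    ∃ e ∈ C, z ∈ e ∧ e ≠ s(z, x) ∧ e ≠ s(z, y) := by
  by_contra hcon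
  push Not at hcon
  have hzx : z ≠ x := by
    intro e
    apply hd _ hx
    rw [Sym2.mk_isDiag_iff]
    exact e
  have hcl := circuit_cl hC hx
  by_cases hy : y = x ∨ y = z
  · -- a single edge
    have h1 := hcl (update 0 z (p z - p x)) (by
      intro f hf
      apply SL_single
      intro hzf
      have h2 := hcon f hf.1 hzf hf.2
      rcases hy with rfl | rfl
      · exact hf.2 h2
      · apply hd f hf.1
        rw [h2, Sym2.mk_isDiag_iff])
    rw [SL_single' hzx, ← normSq_eq_dot, normSq_eq_zero, sub_eq_zero] at h1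
    exact hp.1 z x hzx h1
  · push Not at hy
    have hcr : crs (p z - p x) (p z - p y) ≠ 0 := by
      have := hp.2 z x y hzx hy.1.symm hy.2.symm
      intro h0
      apply this
      simp only [crs, sub_re, sub_im] at h0 ⊢
      linarith
    obtain ⟨c, hc1, hc2⟩ := exists_dot_eq hcr 1 0
    have h1 := hcl (update 0 z c) (by
      intro f hf
      by_cases hzf : z ∈ f
      · have h2 := hcon f hf.1 hzf hf.2
        rw [h2, SL_single' hy.2.symm, hc2]
      · exact SL_single hzf)
    rw [SL_single' hzx, hc1] at h1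
    exact one_ne_zero h1

/-- The 1-extension preserves independence. -/
theorem one_ext {p : V → ℂ} (hp : Generic p) {C' : Set (Sym2 V)} {x y t z : V}
    (hzx : z ≠ x) (hzy : z ≠ y) (hzt : z ≠ t) (hxy : x ≠ y) (hyt : y ≠ t) (hxt : x ≠ t)
    (hC' : ∀ e ∈ C', z ∉ e) (hxyC : s(x, y) ∉ C')
    (h : LinearIndepOn ℝ (SL p) (insert s(x, y) C')) :
    LinearIndepOn ℝ (SL p) (C' ∪ {s(z, x), s(z, y), s(z, t)}) := by
  have hgp := generic_gp hp
  obtain ⟨m, hm⟩ : ∃ m, m = (p x + p y) / 2 := ⟨_, rfl⟩
  apply indep_generic hp (p' := update p z m)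
  have hcr : crs (p y - p x) (m - p t) ≠ 0 := by
    have h1 := hgp.2 x y t hxy hyt hxt
    intro h0
    apply h1
    rw [hm] at h0
    simp only [crs, sub_re, sub_im, add_re, add_im, div_ofNat_re, div_ofNat_im] at h0 ⊢
    linarith
  rw [indep_iff] at h ⊢
  -- solving at `z`
  have hsolve : ∀ (u : V → ℂ) (α : ℝ), ∃ c : ℂ, dot (p y - p x) c = α ∧
      dot (m - p t) (c - u t) = 0 := by
    intro u α
    obtain ⟨c, hc1, hc2⟩ := exists_dot_eq hcr α (dot (m - p t) (u t))
    exact ⟨c, hc1, by rw [dot_sub_right]; linarith⟩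
  have hSx : ∀ (u : V → ℂ) (c : ℂ), SL (update p z m) s(z, x) (update u z c)
      = (dot (p y - p x) c - dot (p y - p x) (u x)) / 2 := by
    intro u c
    rw [SL_mk, update_self, update_self, update_of_ne hzx.symm, update_of_ne hzx.symm, hm]
    simp only [dot, sub_re, sub_im, add_re, add_im, div_ofNat_re, div_ofNat_im]
    ring
  have hSy : ∀ (u : V → ℂ) (c : ℂ), SL (update p z m) s(z, y) (update u z c)
      = - (dot (p y - p x) c - dot (p y - p x) (u y)) / 2 := by
    intro u c
    rw [SL_mk, update_self, update_self, update_of_ne hzy.symm, update_of_ne hzy.symm, hm]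
    simp only [dot, sub_re, sub_im, add_re, add_im, div_ofNat_re, div_ofNat_im]
    ring
  have hSt : ∀ (u : V → ℂ) (c : ℂ), SL (update p z m) s(z, t) (update u z c)
      = dot (m - p t) (c - u t) := by
    intro u c
    rw [SL_mk, update_self, update_self, update_of_ne hzt.symm, update_of_ne hzt.symm]
  have hSo : ∀ (u : V → ℂ) (c : ℂ), ∀ f ∈ C', SL (update p z m) f (update u z c) = SL p f u := by
    intro u c f hf
    apply SL_congr
    · intro w hw
      have : w ≠ z := fun e => hC' f hf (e ▸ hw)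
      rw [update_of_ne this]
    · intro w hw
      have : w ≠ z := fun e => hC' f hf (e ▸ hw)
      rw [update_of_ne this]
  have hzfree : ∀ w : V, s(z, w) ∉ C' := fun w hw => hC' _ hw (by simp)
  intro e he
  rcases he with he | he
  · -- an old edge
    obtain ⟨u, hu1, hu2⟩ := h e (Set.mem_insert_of_mem _ he)
    have hxyu : dot (p y - p x) (u y) = dot (p y - p x) (u x) := by
      have := hu1 s(x, y) (Set.mem_insert _ _) (fun e' => hxyC (e' ▸ he))
      rw [SL_mk] at this
      simp only [dot, sub_re, sub_im] at this ⊢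
      linarith
    obtain ⟨c, hc1, hc2⟩ := hsolve u (dot (p y - p x) (u x))
    refine ⟨update u z c, ?_, ?_⟩
    · intro f hf hfe
      rcases hf with hf | hf
      · rw [hSo u c f hf]
        exact hu1 f (Set.mem_insert_of_mem _ hf) hfe
      · simp only [Set.mem_insert_iff, Set.mem_singleton_iff] at hf
        rcases hf with rfl | rfl | rfl
        · rw [hSx, hc1]; ring
        · rw [hSy, hc1, hxyu]; ring
        · rw [hSt, hc2]
    · rw [hSo u c e he]
      exact hu2
  · obtain ⟨u, hu1, hu2⟩ := h s(x, y) (Set.mem_insert _ _)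
    have hu3 : ∀ f ∈ C', SL p f u = 0 := fun f hf =>
      hu1 f (Set.mem_insert_of_mem _ hf) (fun e' => hxyC (e' ▸ hf))
    have hxyu : dot (p y - p x) (u y) - dot (p y - p x) (u x) ≠ 0 := by
      rw [SL_mk] at hu2
      intro h0
      apply hu2
      simp only [dot, sub_re, sub_im] at h0 ⊢
      linarith
    simp only [Set.mem_insert_iff, Set.mem_singleton_iff] at he
    rcases he with rfl | rfl | rfl
    · obtain ⟨c, hc1, hc2⟩ := hsolve u (dot (p y - p x) (u y))
      refine ⟨update u z c, ?_, ?_⟩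
      · intro f hf hfe
        rcases hf with hf | hf
        · rw [hSo u c f hf]
          exact hu3 f hf
        · simp only [Set.mem_insert_iff, Set.mem_singleton_iff] at hf
          rcases hf with rfl | rfl | rfl
          · exact absurd rfl hfe
          · rw [hSy, hc1]; ring
          · rw [hSt, hc2]
      · rw [hSx, hc1]
        intro h0
        apply hxyu
        linarith
    · obtain ⟨c, hc1, hc2⟩ := hsolve u (dot (p y - p x) (u x))
      refine ⟨update u z c, ?_, ?_⟩
      · intro f hf hfe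
        rcases hf with hf | hf
        · rw [hSo u c f hf]
          exact hu3 f hf
        · simp only [Set.mem_insert_iff, Set.mem_singleton_iff] at hf
          rcases hf with rfl | rfl | rfl
          · rw [hSx, hc1]; ring
          · exact absurd rfl hfe
          · rw [hSt, hc2]
      · rw [hSy, hc1]
        intro h0
        apply hxyu
        linarith
    · obtain ⟨c, hc1, hc2⟩ := exists_dot_eq hcr 0 1
      refine ⟨update 0 z c, ?_, ?_⟩
      · intro f hf hfe
        rcases hf with hf | hf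
        · exact SL_single (hC' f hf)
        · simp only [Set.mem_insert_iff, Set.mem_singleton_iff] at hf
          rcases hf with rfl | rfl | rfl
          · rw [hSx, hc1, Pi.zero_apply, dot_zero_right]; ring
          · rw [hSy, hc1, Pi.zero_apply, dot_zero_right]; ring
          · exact absurd rfl hfe
      · rw [hSt, Pi.zero_apply, sub_zero, hc2]
        exact one_ne_zero

/-- A flexible circuit has a vertex with exactly three edges. -/
theorem exists_degree_three {p : V → ℂ} (hp : GP p) {C : Set (Sym2 V)}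
    (hC : (Mx p).IsCircuit C) (hd : ∀ e ∈ C, ¬ e.IsDiag) (hR : ¬ RigidOn p C (vs C)) :
    ∃ z x y t : V, z ≠ x ∧ z ≠ y ∧ z ≠ t ∧ x ≠ y ∧ y ≠ t ∧ x ≠ t ∧ s(z, x) ∈ C ∧
      s(z, y) ∈ C ∧ s(z, t) ∈ C ∧ ∀ e ∈ C, z ∈ e → e = s(z, x) ∨ e = s(z, y) ∨ e = s(z, t) := by
  classical
  obtain ⟨CF, hCF⟩ : ∃ CF : Finset (Sym2 V), (CF : Set (Sym2 V)) = C :=
    ⟨(Set.toFinite C).toFinset, Set.Finite.coe_toFinset _⟩
  obtain ⟨e₀, he₀⟩ := hC.nonempty
  -- two distinct points
  have h2 : ∃ x ∈ vs C, ∃ y ∈ vs C, p x ≠ p y := by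
    induction e₀ using Sym2.ind with
    | _ x y =>
      refine ⟨x, mem_vs.mpr ⟨_, he₀, by simp⟩, y, mem_vs.mpr ⟨_, he₀, by simp⟩, ?_⟩
      apply hp.1
      intro e
      exact hd _ he₀ (by rw [Sym2.mk_isDiag_iff]; exact e)
  have hcard : CF.card + 3 ≤ 2 * (vs C).card := by
    by_contra hcon
    apply hR
    have hI : LinearIndepOn ℝ (SL p) ((CF.erase e₀ : Finset (Sym2 V)) : Set (Sym2 V)) := by
      rw [Finset.coe_erase, hCF, ← Mx_indep]
      exact hC.sdiff_singleton_indep he₀
    have hRig := rigidOn_of_card h2 (F := CF.erase e₀) (A := vs C) (by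
      intro e he x hx
      apply mem_vs.mpr
      refine ⟨e, ?_, hx⟩
      rw [← hCF]
      exact Finset.mem_of_mem_erase he) hI (by
      rw [Finset.card_erase_of_mem (by rw [← Finset.mem_coe, hCF]; exact he₀)]
      omega)
    intro u hu
    apply hRig u
    intro e he
    apply hu
    rw [← hCF]
    exact Finset.mem_of_mem_erase he
  -- degree count
  have hsum : ∑ z ∈ vs C, (CF.filter (fun e => z ∈ e)).card = 2 * CF.card := by
    simp only [Finset.card_filter]
    rw [Finset.sum_comm]
    have : ∀ e ∈ CF, ∑ z ∈ vs C, (if z ∈ e then 1 else 0) = 2 := by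
      intro e he
      have heC : e ∈ C := by rw [← hCF]; exact he
      rw [← Finset.card_filter]
      have h3 : (vs C).filter (fun z => z ∈ e) = e.toFinset := by
        ext z
        rw [Finset.mem_filter, Sym2.mem_toFinset]
        constructor
        · exact fun h => h.2
        · exact fun h => ⟨mem_vs.mpr ⟨e, heC, h⟩, h⟩
      rw [h3]
      exact Sym2.card_toFinset_of_not_isDiag _ (hd e heC)
    rw [Finset.sum_congr rfl this, Finset.sum_const, smul_eq_mul, mul_comm]
  have hex : ∃ z ∈ vs C, (CF.filter (fun e => z ∈ e)).card ≤ 3 := by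
    by_contra hcon
    push Not at hcon
    have h3 : ∑ z ∈ vs C, 4 ≤ ∑ z ∈ vs C, (CF.filter (fun e => z ∈ e)).card :=
      Finset.sum_le_sum (fun z hz => hcon z hz)
    rw [hsum, Finset.sum_const, smul_eq_mul] at h3
    omega
  obtain ⟨z, hz, hzc⟩ := hex
  obtain ⟨e₁, he₁, hze₁⟩ := mem_vs.mp hz
  obtain ⟨x, rfl⟩ := Sym2.mem_iff_exists.mp hze₁
  obtain ⟨e₂, he₂, hze₂, hne₂, -⟩ := min_degree hp hC hd (y := x) he₁
  obtain ⟨y, rfl⟩ := Sym2.mem_iff_exists.mp hze₂
  obtain ⟨e₃, he₃, hze₃, hne₃, hne₃'⟩ := min_degree hp hC hd (y := y) he₁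
  obtain ⟨t, rfl⟩ := Sym2.mem_iff_exists.mp hze₃
  have hnd : ∀ w, s(z, w) ∈ C → z ≠ w := by
    intro w hw e
    exact hd _ hw (by rw [Sym2.mk_isDiag_iff]; exact e)
  refine ⟨z, x, y, t, hnd x he₁, hnd y he₂, hnd t he₃, ?_, ?_, ?_, he₁, he₂, he₃, ?_⟩
  · intro e; apply hne₂; rw [e]
  · intro e; apply hne₃'; rw [e]
  · intro e; apply hne₃; rw [e]
  · intro e he hze
    have hsub : ({s(z, x), s(z, y), s(z, t)} : Finset (Sym2 V)) ⊆
        CF.filter (fun e => z ∈ e) := by
      intro f hf
      simp only [Finset.mem_insert, Finset.mem_singleton] at hf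
      rw [Finset.mem_filter, ← Finset.mem_coe, hCF]
      rcases hf with rfl | rfl | rfl
      · exact ⟨he₁, hze₁⟩
      · exact ⟨he₂, hze₂⟩
      · exact ⟨he₃, hze₃⟩
    have hc3 : ({s(z, x), s(z, y), s(z, t)} : Finset (Sym2 V)).card = 3 :=
      Finset.card_eq_three.mpr ⟨_, _, _, hne₂.symm, hne₃.symm, hne₃'.symm, rfl⟩
    have heq := Finset.eq_of_subset_of_card_le hsub (by rw [hc3]; exact hzc)
    have hmem : e ∈ CF.filter (fun e => z ∈ e) := by
      rw [Finset.mem_filter, ← Finset.mem_coe, hCF]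
      exact ⟨he, hze⟩
    rw [← heq] at hmem
    simpa using hmem

/-- Generic circuits of the rigidity matroid are infinitesimally rigid. -/
theorem circuit_rigid {p : V → ℂ} (hp : Generic p) (n : ℕ) : ∀ C : Set (Sym2 V),
    (vs C).card = n → (Mx p).IsCircuit C → RigidOn p C (vs C) := by
  have hgp := generic_gp hp
  induction n using Nat.strong_induction_on with
  | _ n ih =>
  intro C hn hC
  by_cases hd : ∀ e ∈ C, ¬ e.IsDiag
  swap
  · push Not at hd
    obtain ⟨e, he, hde⟩ := hd
    have hCe := circuit_diag hC he hde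
    induction e using Sym2.ind with
    | _ x y =>
      rw [Sym2.mk_isDiag_iff] at hde
      subst hde
      intro u _
      refine ⟨0, u x, fun w hw => ?_⟩
      obtain ⟨f, hf, hwf⟩ := mem_vs.mp hw
      rw [hCe, Set.mem_singleton_iff] at hf
      rw [hf] at hwf
      have : w = x := by simpa using hwf
      rw [this]
      simp
  by_contra hR
  obtain ⟨z, x, y, t, hzx, hzy, hzt, hxy, hyt, hxt, hcx, hcy, hct, hz⟩ :=
    exists_degree_three hgp hC hd hR
  apply hR
  obtain ⟨C', hC'⟩ : ∃ C' : Set (Sym2 V), C' = {e ∈ C | z ∉ e} := ⟨_, rfl⟩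
  have hC'z : ∀ e ∈ C', z ∉ e := by rw [hC']; exact fun e he => he.2
  have hC'C : C' ⊆ C := by rw [hC']; exact fun e he => he.1
  have hCeq : C' ∪ {s(z, x), s(z, y), s(z, t)} = C := by
    ext e
    constructor
    · rintro (he | he)
      · exact hC'C he
      · simp only [Set.mem_insert_iff, Set.mem_singleton_iff] at he
        rcases he with rfl | rfl | rfl
        · exact hcx
        · exact hcy
        · exact hct
    · intro he
      by_cases hze : z ∈ e
      · right
        simpa using hz e he hze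
      · left
        rw [hC']
        exact ⟨he, hze⟩
  have hC'I : LinearIndepOn ℝ (SL p) C' := by
    rw [← Mx_indep]
    apply hC.ssubset_indep
    refine ⟨hC'C, fun h => ?_⟩
    exact hC'z _ (h hcx) (by simp)
  have hzC : z ∈ vs C := mem_vs.mpr ⟨_, hcx, by simp⟩
  have hxC : x ∈ vs C := mem_vs.mpr ⟨_, hcx, by simp⟩
  have hyC : y ∈ vs C := mem_vs.mpr ⟨_, hcy, by simp⟩
  have htC : t ∈ vs C := mem_vs.mpr ⟨_, hct, by simp⟩
  -- the pairs of neighbours are implied
  have hcl : ∀ x y t : V, z ≠ x → z ≠ y → z ≠ t → x ≠ y → y ≠ t → x ≠ t →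
      C' ∪ {s(z, x), s(z, y), s(z, t)} = C → Cl p C' s(x, y) := by
    intro x y t hzx hzy hzt hxy hyt hxt hCe
    by_contra hncl
    have hxyC : s(x, y) ∉ C' := fun he => hncl (fun u hu => hu _ he)
    have h1 := one_ext hp hzx hzy hzt hxy hyt hxt hC'z hxyC (indep_insert hC'I hncl)
    rw [hCe, ← Mx_indep] at h1
    exact hC.not_indep h1
  have hclxy := hcl x y t hzx hzy hzt hxy hyt hxt hCeq
  have hclyt := hcl y t x hzy hzt hzx hyt hxt.symm hxy.symm (by
    rw [← hCeq]
    congr 1
    ext e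
    simp only [Set.mem_insert_iff, Set.mem_singleton_iff]
    tauto)
  have hclxt := hcl x t y hzx hzt hzy hxt hyt.symm hxy (by
    rw [← hCeq]
    congr 1
    ext e
    simp only [Set.mem_insert_iff, Set.mem_singleton_iff]
    tauto)
  -- rigid pieces
  have hpiece : ∀ x y : V, z ≠ x → z ≠ y → x ≠ y → x ∈ vs C → y ∈ vs C → Cl p C' s(x, y) →
      ∃ (B : Finset V) (F : Set (Sym2 V)), x ∈ B ∧ y ∈ B ∧ F ⊆ C' ∧
        (∀ e ∈ F, ∀ w ∈ e, w ∈ B) ∧ RigidOn p F B := by
    intro x y hzx hzy hxy hxC hyC hcl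
    by_cases hxyC : s(x, y) ∈ C'
    · refine ⟨{x, y}, {s(x, y)}, by simp, by simp, by simpa using hxyC, ?_, ?_⟩
      · intro e he w hw
        rw [Set.mem_singleton_iff] at he
        rw [he] at hw
        simpa using hw
      · intro u hu
        exact isRot_pair (hgp.1 x y hxy) (hu s(x, y) rfl)
    · obtain ⟨D, hDsub, hD, hxyD⟩ := exists_circuit hcl hxyC
      have hvD : ∀ w ∈ vs D, w ∈ (vs C).erase z := by
        intro w hw
        obtain ⟨e, he, hwe⟩ := mem_vs.mp hw
        rw [Finset.mem_erase]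
        rcases hDsub he with rfl | he'
        · have : w = x ∨ w = y := by simpa using hwe
          rcases this with rfl | rfl
          · exact ⟨hzx.symm, hxC⟩
          · exact ⟨hzy.symm, hyC⟩
        · refine ⟨fun e' => hC'z e he' (e' ▸ hwe), mem_vs.mpr ⟨e, hC'C he', hwe⟩⟩
      have hcard : (vs D).card < n := by
        calc (vs D).card ≤ ((vs C).erase z).card := Finset.card_le_card hvD
          _ < (vs C).card := Finset.card_erase_lt_of_mem hzC
          _ = n := hn
      have hDR := ih _ hcard D rfl hD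
      refine ⟨vs D, D \ {s(x, y)}, mem_vs.mpr ⟨_, hxyD, by simp⟩,
        mem_vs.mpr ⟨_, hxyD, by simp⟩, ?_, ?_, ?_⟩
      · intro e he
        rcases hDsub he.1 with h | h
        · exact absurd h he.2
        · exact h
      · intro e he w hw
        exact mem_vs.mpr ⟨e, he.1, hw⟩
      · intro u hu
        apply hDR u
        intro e he
        by_cases hee : e = s(x, y)
        · rw [hee]
          exact circuit_cl hD hxyD u hu
        · exact hu e ⟨he, hee⟩
  obtain ⟨B₁, F₁, hx1, hy1, hF1, hFB1, hR1⟩ := hpiece x y hzx hzy hxy hxC hyC hclxy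
  obtain ⟨B₂, F₂, hy2, ht2, hF2, hFB2, hR2⟩ := hpiece y t hzy hzt hyt hyC htC hclyt
  obtain ⟨B₃, F₃, hx3, ht3, hF3, hFB3, hR3⟩ := hpiece x t hzx hzt hxt hxC htC hclxt
  -- the union, together with `z`
  have hext : ∀ u : V → ℂ, (∀ f ∈ F₁ ∪ F₂ ∪ F₃ ∪ {s(z, x), s(z, y)}, SL p f u = 0) →
      IsRot p u (insert z (B₁ ∪ B₂ ∪ B₃)) := by
    intro u hu
    have h1 := hR1 u (fun e he => hu e (Or.inl (Or.inl (Or.inl he))))
    have h2 := hR2 u (fun e he => hu e (Or.inl (Or.inl (Or.inr he))))
    have h3 := hR3 u (fun e he => hu e (Or.inl (Or.inr he)))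
    have h4 := h1.triangle h2 h3 hx1 hy1 hy2 ht2 hx3 ht3 (hgp.2 x y t hxy hyt hxt)
    obtain ⟨ω, τ, h5⟩ := h4
    refine ⟨ω, τ, fun w hw => ?_⟩
    rcases Finset.mem_insert.mp hw with rfl | hw
    · have e1 : dot (p w - p x) (u w - (ω * (I * p w) + τ)) = 0 := by
        have := hu s(w, x) (Or.inr (by simp))
        rw [SL_mk, h5 x (by simp [hx1])] at this
        have e : u w - (ω * (I * p x) + τ)
            = (u w - (ω * (I * p w) + τ)) + ω * (I * (p w - p x)) := by ring
        rw [e, dot_add_right, dot_I_mul, add_zero] at this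
        exact this
      have e2 : dot (p w - p y) (u w - (ω * (I * p w) + τ)) = 0 := by
        have := hu s(w, y) (Or.inr (by simp))
        rw [SL_mk, h5 y (by simp [hy1])] at this
        have e : u w - (ω * (I * p y) + τ)
            = (u w - (ω * (I * p w) + τ)) + ω * (I * (p w - p y)) := by ring
        rw [e, dot_add_right, dot_I_mul, add_zero] at this
        exact this
      have hcr : crs (p w - p x) (p w - p y) ≠ 0 := by
        have := hgp.2 w x y hzx hxy hzy
        intro h0
        apply this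
        simp only [crs, sub_re, sub_im] at h0 ⊢
        linarith
      exact sub_eq_zero.mp (eq_zero_of_dot hcr e1 e2)
    · exact h5 w hw
  have hF'C' : F₁ ∪ F₂ ∪ F₃ ⊆ C' := Set.union_subset (Set.union_subset hF1 hF2) hF3
  have hclt : Cl p (F₁ ∪ F₂ ∪ F₃ ∪ {s(z, x), s(z, y)}) s(z, t) := by
    intro u hu
    apply (hext u hu).SL_eq
    intro w hw
    have : w = z ∨ w = t := by simpa using hw
    rcases this with rfl | rfl
    · simp
    · simp [ht2]
  have hnot : s(z, t) ∉ F₁ ∪ F₂ ∪ F₃ ∪ {s(z, x), s(z, y)} := by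
    rintro (h | h)
    · exact hC'z _ (hF'C' h) (by simp)
    · simp only [Set.mem_insert_iff, Set.mem_singleton_iff, Sym2.eq_iff] at h
      rcases h with (⟨-, h⟩ | ⟨h, -⟩) | (⟨-, h⟩ | ⟨h, -⟩)
      · exact hxt h.symm
      · exact hzx h
      · exact hyt h.symm
      · exact hzy h
  have hdep := not_indep_of_cl hclt hnot
  rw [← Mx_indep] at hdep
  have hCe2 := hC.eq_of_not_indep_subset hdep (by
    intro e he
    rcases he with rfl | he | he
    · exact hct
    · exact hC'C (hF'C' he)
    · simp only [Set.mem_insert_iff, Set.mem_singleton_iff] at he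
      rcases he with rfl | rfl
      · exact hcx
      · exact hcy)
  intro u hu
  have h6 := hext u (fun f hf => hu f (by rw [← hCe2]; exact Set.mem_insert_of_mem _ hf))
  apply h6.mono
  intro w hw
  obtain ⟨e, he, hwe⟩ := mem_vs.mp hw
  rw [← hCe2] at he
  rcases he with rfl | ((he | he) | he) | he
  · have : w = z ∨ w = t := by simpa using hwe
    rcases this with rfl | rfl
    · simp
    · simp [ht2]
  · have := hFB1 e he w hwe
    simp [this]
  · have := hFB2 e he w hwe
    simp [this]
  · have := hFB3 e he w hwe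
    simp [this]
  · simp only [Set.mem_insert_iff, Set.mem_singleton_iff] at he
    rcases he with rfl | rfl
    · have : w = z ∨ w = x := by simpa using hwe
      rcases this with rfl | rfl
      · simp
      · simp [hx1]
    · have : w = z ∨ w = y := by simpa using hwe
      rcases this with rfl | rfl
      · simp
      · simp [hy1]

end Pool.Agent.Lib.MP_699f60_co
end

section

set_option autoImplicit false

namespace Pool.Agent.Lib.MP_699f60_co

open Complex Function

variable {V : Type*} [Fintype V] [DecidableEq V]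

/-- 'Equal or lying in a common circuit' of the rigidity matroid on `E`. -/
def Rl (p : V → ℂ) (E : Set (Sym2 V)) (e f : Sym2 V) : Prop :=
  e = f ∨ ∃ C, (Mx p).IsCircuit C ∧ C ⊆ E ∧ e ∈ C ∧ f ∈ C

theorem Rl.symm {p : V → ℂ} {E : Set (Sym2 V)} {e f : Sym2 V} (h : Rl p E e f) :
    Rl p E f e := by
  rcases h with h | ⟨C, h1, h2, h3, h4⟩
  · exact Or.inl h.symm
  · exact Or.inr ⟨C, h1, h2, h4, h3⟩

theorem Rl.trans {p : V → ℂ} {E : Set (Sym2 V)} {e f g : Sym2 V} (h : Rl p E e f)
    (h' : Rl p E f g) : Rl p E e g := by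
  by_cases heg : e = g
  · exact Or.inl heg
  rcases h with rfl | ⟨C, h1, h2, h3, h4⟩
  · exact h'
  rcases h' with rfl | ⟨C', h1', h2', h3', h4'⟩
  · exact Or.inr ⟨C, h1, h2, h3, h4⟩
  have hE : E ⊆ (Mx p).E := by rw [Mx_E]; exact Set.subset_univ _
  obtain ⟨D, hD, heD, hgD⟩ := circuit_trans ((Mx p).restrict E)
    ((Matroid.restrict_isCircuit_iff hE).mpr ⟨h1, h2⟩)
    ((Matroid.restrict_isCircuit_iff hE).mpr ⟨h1', h2'⟩) h3 h4 h3' h4' heg
  rw [Matroid.restrict_isCircuit_iff hE] at hD
  exact Or.inr ⟨D, hD.1, hD.2, heD, hgD⟩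

/-- The classes. -/
def IsClass (p : V → ℂ) (E H : Set (Sym2 V)) : Prop :=
  ∃ e₀ ∈ E, H = {f | f ∈ E ∧ Rl p E e₀ f}

section cls

variable {p : V → ℂ} {E H H' : Set (Sym2 V)}

theorem IsClass.subset (hH : IsClass p E H) : H ⊆ E := by
  obtain ⟨e₀, he₀, rfl⟩ := hH
  exact fun f hf => hf.1

theorem IsClass.nonempty (hH : IsClass p E H) : H.Nonempty := by
  obtain ⟨e₀, he₀, rfl⟩ := hH
  exact ⟨e₀, he₀, Or.inl rfl⟩

theorem IsClass.eq_of_mem (hH : IsClass p E H) {e : Sym2 V} (he : e ∈ H) :
    H = {f | f ∈ E ∧ Rl p E e f} := by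
  obtain ⟨e₀, he₀, rfl⟩ := hH
  ext f
  constructor
  · rintro ⟨h1, h2⟩
    exact ⟨h1, he.2.symm.trans h2⟩
  · rintro ⟨h1, h2⟩
    exact ⟨h1, he.2.trans h2⟩

theorem IsClass.eq (hH : IsClass p E H) (hH' : IsClass p E H') {e : Sym2 V} (he : e ∈ H)
    (he' : e ∈ H') : H = H' := by
  rw [hH.eq_of_mem he, hH'.eq_of_mem he']

theorem exists_class {e : Sym2 V} (he : e ∈ E) : ∃ H, IsClass p E H ∧ e ∈ H :=
  ⟨{f | f ∈ E ∧ Rl p E e f}, ⟨e, he, rfl⟩, he, Or.inl rfl⟩

theorem IsClass.circuit_subset (hH : IsClass p E H) {C : Set (Sym2 V)}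
    (hC : (Mx p).IsCircuit C) (hCE : C ⊆ E) {e : Sym2 V} (he : e ∈ C) (heH : e ∈ H) :
    C ⊆ H := by
  intro f hf
  rw [hH.eq_of_mem heH]
  exact ⟨hCE hf, Or.inr ⟨C, hC, hCE, he, hf⟩⟩

theorem single_indep (hp : ∀ x y, x ≠ y → p x ≠ p y) {e : Sym2 V} (he : ¬ e.IsDiag) :
    LinearIndepOn ℝ (SL p) {e} := by
  rw [indep_iff]
  intro f hf
  rw [Set.mem_singleton_iff] at hf
  subst hf
  induction f using Sym2.ind with
  | _ x y =>
    rw [Sym2.mk_isDiag_iff] at he
    refine ⟨p, fun g hg hne => absurd hg hne, ?_⟩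
    rw [SL_mk, ← normSq_eq_dot]
    intro h
    rw [normSq_eq_zero, sub_eq_zero] at h
    exact hp x y he h

/-- A circuit through a non-diagonal pair has another element. -/
theorem circuit_other (hp : ∀ x y, x ≠ y → p x ≠ p y) {C : Set (Sym2 V)}
    (hC : (Mx p).IsCircuit C) {e : Sym2 V} (he : e ∈ C) (hd : ¬ e.IsDiag) :
    ∃ f ∈ C, f ≠ e := by
  by_contra hcon
  push Not at hcon
  have : C = {e} := by
    ext f
    constructor
    · intro hf; exact hcon f hf
    · intro hf; rw [Set.mem_singleton_iff] at hf; rw [hf]; exact he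
  apply hC.not_indep
  rw [Mx_indep, this]
  exact single_indep hp hd

theorem IsClass.rigid (hp : Generic p) (hE : ∀ e ∈ E, ¬ e.IsDiag) (hH : IsClass p E H) :
    RigidOn p H (vs H) := by
  have hgp := generic_gp hp
  obtain ⟨e₀, he₀⟩ := hH.nonempty
  have hd := hE e₀ (hH.subset he₀)
  intro u hu
  induction e₀ using Sym2.ind with
  | _ a b =>
  rw [Sym2.mk_isDiag_iff] at hd
  obtain ⟨ω, t, hab⟩ := isRot_pair (hgp.1 a b hd) (hu s(a, b) he₀)
  have ha := hab a (by simp)
  have hb := hab b (by simp)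
  refine ⟨ω, t, fun x hx => ?_⟩
  obtain ⟨f, hf, hxf⟩ := mem_vs.mp hx
  have hf' := hf
  rw [hH.eq_of_mem he₀] at hf'
  rcases hf'.2 with h | ⟨C, hC, hCE, h1, h2⟩
  · rw [← h] at hxf
    apply hab
    simpa using hxf
  · have hCH := hH.circuit_subset hC hCE h1 he₀
    obtain ⟨ω', t', hC'⟩ := circuit_rigid hp _ C rfl hC u (fun e he => hu e (hCH he))
    have ha' := hC' a (mem_vs.mpr ⟨_, h1, by simp⟩)
    have hb' := hC' b (mem_vs.mpr ⟨_, h1, by simp⟩)
    have h3 : ((ω' - ω : ℝ) : ℂ) * (I * p a) + (t' - t) = 0 := by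
      push_cast
      linear_combination ha - ha'
    have h4 : ((ω' - ω : ℝ) : ℂ) * (I * p b) + (t' - t) = 0 := by
      push_cast
      linear_combination hb - hb'
    obtain ⟨h5, h6⟩ := rot_coeff_zero (hgp.1 a b hd) h3 h4
    rw [hC' x (mem_vs.mpr ⟨f, h2, hxf⟩), sub_eq_zero.mp h5, sub_eq_zero.mp h6]

theorem IsClass.mem_of_cl (hp : ∀ x y, x ≠ y → p x ≠ p y) (hE : ∀ e ∈ E, ¬ e.IsDiag)
    (hH : IsClass p E H) {f : Sym2 V} (hf : f ∈ E) (hcl : Cl p H f) : f ∈ H := by
  by_contra hfH
  obtain ⟨C, hC, hCc, hfC⟩ := exists_circuit hcl hfH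
  obtain ⟨g, hg, hgf⟩ := circuit_other hp hCc hfC (hE f hf)
  have hgH : g ∈ H := by
    rcases hC hg with h | h
    · exact absurd h hgf
    · exact h
  have hCE : C ⊆ E := by
    intro e he
    rcases hC he with rfl | h
    · exact hf
    · exact hH.subset h
  exact hfH (hH.circuit_subset hCc hCE hg hgH hfC)

/-- Edges spanned by the vertex set of a class belong to the class. -/
theorem IsClass.mem_of_vs (hp : Generic p) (hE : ∀ e ∈ E, ¬ e.IsDiag) (hH : IsClass p E H)
    {f : Sym2 V} (hf : f ∈ E) (hv : ∀ x ∈ f, x ∈ vs H) : f ∈ H := by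
  apply hH.mem_of_cl (generic_gp hp).1 hE hf
  intro u hu
  exact (hH.rigid hp hE u hu).SL_eq hv

/-- Distinct classes share at most one vertex. -/
theorem IsClass.share (hp : Generic p) (hE : ∀ e ∈ E, ¬ e.IsDiag) (hH : IsClass p E H)
    (hH' : IsClass p E H') (hne : H ≠ H') {x y : V} (hx : x ∈ vs H) (hx' : x ∈ vs H')
    (hy : y ∈ vs H) (hy' : y ∈ vs H') : x = y := by
  by_contra hxy
  have hinj := (generic_gp hp).1
  have hsub : ∀ w ∈ s(x, y), w ∈ vs H := by
    intro w hw
    have : w = x ∨ w = y := by simpa using hw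
    rcases this with rfl | rfl
    · exact hx
    · exact hy
  have hsub' : ∀ w ∈ s(x, y), w ∈ vs H' := by
    intro w hw
    have : w = x ∨ w = y := by simpa using hw
    rcases this with rfl | rfl
    · exact hx'
    · exact hy'
  by_cases he : s(x, y) ∈ E
  · exact hne (hH.eq hH' (hH.mem_of_vs hp hE he hsub) (hH'.mem_of_vs hp hE he hsub'))
  have hd : ¬ (s(x, y)).IsDiag := by rw [Sym2.mk_isDiag_iff]; exact hxy
  have h1 : s(x, y) ∉ H := fun h => he (hH.subset h)
  have h1' : s(x, y) ∉ H' := fun h => he (hH'.subset h)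
  have hcl : Cl p H s(x, y) := fun u hu => (hH.rigid hp hE u hu).SL_eq hsub
  have hcl' : Cl p H' s(x, y) := fun u hu => (hH'.rigid hp hE u hu).SL_eq hsub'
  obtain ⟨C, hC, hCc, hCe⟩ := exists_circuit hcl h1
  obtain ⟨C', hC', hCc', hCe'⟩ := exists_circuit hcl' h1'
  have hdis : ∀ e, e ∈ H → e ∈ H' → False := fun e h2 h3 => hne (hH.eq hH' h2 h3)
  have hCne : C ≠ C' := by
    intro heq
    obtain ⟨g, hg, hgf⟩ := circuit_other hinj hCc hCe hd
    have h2 : g ∈ H := by
      rcases hC hg with h | h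
      · exact absurd h hgf
      · exact h
    rw [heq] at hg
    have h3 : g ∈ H' := by
      rcases hC' hg with h | h
      · exact absurd h hgf
      · exact h
    exact hdis g h2 h3
  obtain ⟨D, hD, hDc⟩ := hCc.elimination hCc' hCne s(x, y)
  have hDE : D ⊆ E := by
    intro e he'
    obtain ⟨h2 | h2, h3⟩ := hD he'
    · rcases hC h2 with h | h
      · exact absurd h h3
      · exact hH.subset h
    · rcases hC' h2 with h | h
      · exact absurd h h3
      · exact hH'.subset h
  have hDH : ∃ e ∈ D, e ∈ H := by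
    by_contra hcon
    push Not at hcon
    have : D ⊆ C' \ {s(x, y)} := by
      intro e he'
      obtain ⟨h2 | h2, h3⟩ := hD he'
      · exfalso
        rcases hC h2 with h | h
        · exact h3 h
        · exact hcon e he' h
      · exact ⟨h2, h3⟩
    exact hDc.not_indep ((hCc'.sdiff_singleton_indep hCe').subset this)
  have hDH' : ∃ e ∈ D, e ∈ H' := by
    by_contra hcon
    push Not at hcon
    have : D ⊆ C \ {s(x, y)} := by
      intro e he'
      obtain ⟨h2 | h2, h3⟩ := hD he'
      · exact ⟨h2, h3⟩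
      · exfalso
        rcases hC' h2 with h | h
        · exact h3 h
        · exact hcon e he' h
    exact hDc.not_indep ((hCc.sdiff_singleton_indep hCe).subset this)
  obtain ⟨e, he1, he2⟩ := hDH
  obtain ⟨f, hf1, hf2⟩ := hDH'
  exact hdis e he2 (hH'.circuit_subset hDc hDE hf1 hf2 he1)

/-- Counting edges of a basis in a class. -/
theorem IsClass.card (hp : Generic p) (hE : ∀ e ∈ E, ¬ e.IsDiag) (hH : IsClass p E H)
    {T : Finset (Sym2 V)} (hTE : (T : Set (Sym2 V)) ⊆ E)
    (hTI : LinearIndepOn ℝ (SL p) (T : Set (Sym2 V))) (hTcl : ∀ e ∈ E, Cl p T e)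
    {TH : Finset (Sym2 V)} (hTH : ∀ e, e ∈ TH ↔ e ∈ T ∧ e ∈ H) :
    TH.card + 3 = 2 * (vs H).card := by
  have hinj := (generic_gp hp).1
  apply card_of_rigidOn (p := p)
  · obtain ⟨e₀, he₀⟩ := hH.nonempty
    have hd := hE e₀ (hH.subset he₀)
    induction e₀ using Sym2.ind with
    | _ a b =>
    rw [Sym2.mk_isDiag_iff] at hd
    exact ⟨a, mem_vs.mpr ⟨_, he₀, by simp⟩, b, mem_vs.mpr ⟨_, he₀, by simp⟩, hinj a b hd⟩
  · intro e he x hx
    exact mem_vs.mpr ⟨e, ((hTH e).mp he).2, hx⟩
  · apply hTI.mono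
    intro e he
    exact ((hTH e).mp he).1
  · intro u hu
    apply hH.rigid hp hE u
    intro f hf
    by_cases hfT : f ∈ T
    · exact hu f ((hTH f).mpr ⟨hfT, hf⟩)
    · obtain ⟨C, hC, hCc, hfC⟩ := exists_circuit (hTcl f (hH.subset hf)) hfT
      have hCE : C ⊆ E := by
        intro e he
        rcases hC he with rfl | h
        · exact hH.subset hf
        · exact hTE h
      have hCH := hH.circuit_subset hCc hCE hfC hf
      apply circuit_cl hCc hfC u
      intro e he
      apply hu
      apply (hTH e).mpr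
      refine ⟨?_, hCH he.1⟩
      rcases hC he.1 with h | h
      · exact absurd h he.2
      · exact h

end cls

end Pool.Agent.Lib.MP_699f60_co
end
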