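import Mathlib
import Pool.Agent.Lib.MP_699f60_co.Iso
import Pool.Agent.Lib.MP_699f60_co.Bodies
import Pool.Agent.Lib.MP_699f60_co.Fine

section

set_option autoImplicit false

namespace Pool.Agent.Lib.MP_699f60_co

open Complex

/-- The determinant controlling rigidity after attaching a vertex at displacement `n` from `X`
by three bars to `X`, `X + y`, `X + z` with velocities `a`, `b`, `c`. -/
def DD (y z a b c n : ℂ) : ℝ :=
  crs n (n - y) * dot (n - z) c + crs (n - y) (n - z) * dot n a + crs (n - z) n * dot (n - y) b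

theorem DD_line (y z a b c : ℂ) (l : ℝ) :
    DD y z a b c (l * y) = l * (l - 1) * (crs y z * dot y (b - a)) := by
  simp only [DD, crs, dot, sub_re, sub_im, mul_re, mul_im, ofReal_re, ofReal_im]
  ring

theorem DD_line' (y z a b c n : ℂ) :
    DD y z a b c (n + y) + DD y z a b c (n - y) - 2 * DD y z a b c n
      = 2 * (crs y z * dot y (b - a)) := by
  simp only [DD, crs, dot, sub_re, sub_im, add_re, add_im]
  ring

/-- first order part at `0` -/
def L0 (y z a b c n : ℂ) : ℝ :=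
  crs n y * dot z c + crs y z * dot n a - crs n z * dot y b

/-- second order part -/
def Q0 (y z a b c n : ℂ) : ℝ :=
  crs n y * dot n (a - c) + crs n z * dot n (b - a)

theorem DD_expand (y z a b c n : ℂ) (m : ℝ) :
    DD y z a b c (m * n) = m * L0 y z a b c n + m ^ 2 * Q0 y z a b c n := by
  simp only [DD, L0, Q0, crs, dot, sub_re, sub_im, mul_re, mul_im, ofReal_re, ofReal_im]
  ring

/-- first order part at `y` -/
def L1 (y z a b c n : ℂ) : ℝ :=
  L0 y z a b c n + crs n y * dot y (a - c) + crs n z * dot y (b - a) + crs y z * dot n (b - a)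

theorem DD_expand' (y z a b c n : ℂ) (m : ℝ) :
    DD y z a b c (y + m * n) = m * L1 y z a b c n + m ^ 2 * Q0 y z a b c n := by
  simp only [DD, L1, L0, Q0, crs, dot, sub_re, sub_im, mul_re, mul_im, ofReal_re, ofReal_im,
    add_re, add_im]
  ring

/-- A linear functional on the plane killing two nonparallel vectors is zero. -/
theorem lin_zero (l : ℂ → ℝ) (hl : ∃ m : ℂ, ∀ n, l n = dot m n) (k k' : ℂ)
    (h : crs k k' ≠ 0) (h1 : l (I * k) = 0) (h2 : l (I * k') = 0) : ∀ n, l n = 0 := by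
  obtain ⟨m, hm⟩ := hl
  rw [hm] at h1 h2
  have e1 : dot k (I * m) = 0 := by
    simp only [dot, mul_re, mul_im, I_re, I_im] at h1 ⊢
    linarith
  have e2 : dot k' (I * m) = 0 := by
    simp only [dot, mul_re, mul_im, I_re, I_im] at h2 ⊢
    linarith
  have h3 := eq_zero_of_dot h e1 e2
  have hm0 : m = 0 := by
    rcases mul_eq_zero.mp h3 with h | h
    · exact absurd h I_ne_zero
    · exact h
  intro n
  rw [hm, hm0]
  simp [dot]

theorem L0_lin (y z a b c : ℂ) : ∃ m : ℂ, ∀ n, L0 y z a b c n = dot m n := by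
  refine ⟨⟨L0 y z a b c 1, L0 y z a b c I⟩, fun n => ?_⟩
  simp only [L0, crs, dot, one_re, one_im, I_re, I_im]
  ring

theorem L1_lin (y z a b c : ℂ) : ∃ m : ℂ, ∀ n, L1 y z a b c n = dot m n := by
  refine ⟨⟨L1 y z a b c 1, L1 y z a b c I⟩, fun n => ?_⟩
  simp only [L1, L0, crs, dot, one_re, one_im, I_re, I_im, sub_re, sub_im]
  ring

theorem pm_one {A B : ℝ} (hA : A ≠ 0) : ∃ m : ℝ, m * A + m ^ 2 * B ≠ 0 := by
  by_contra hcon
  push Not at hcon
  have h1 := hcon 1
  have h2 := hcon (-1)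
  apply hA
  linarith

/-- The key choice for the attachment of a vertex by three bars. -/
theorem exists_disp (y z a b c kp km : ℂ) (dX dY : ℝ)
    (hk : crs y z * dot y (b - a) ≠ 0)
    (hp : 2 * dot kp y = dY - dX) (hm : 2 * dot km y = dY - dX)
    (h0 : kp = 0 → dX = 0)
    (hpar : (dX = 0 ∨ dY = 0) → dX ≠ dY → crs kp km ≠ 0) :
    ∃ n : ℂ, DD y z a b c n ≠ 0 ∧ (dX + 2 * dot kp n = 0 ∨ dX + 2 * dot km n = 0) := by
  by_cases hXY : dX = dY
  · by_cases hX : dX = 0
    · -- any point of the line works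
      refine ⟨(2 : ℝ) * y, ?_, Or.inl ?_⟩
      · rw [DD_line]
        apply mul_ne_zero _ hk
        norm_num
      · rw [dot_smul_right]
        linarith
    · -- the bisector is parallel to the line
      have hkp : kp ≠ 0 := fun h => hX (h0 h)
      have hN : dot kp kp ≠ 0 := by
        rw [← normSq_eq_dot]
        intro h
        exact hkp (normSq_eq_zero.mp h)
      obtain ⟨n0, hn0⟩ : ∃ n0 : ℂ, n0 = ((- dX / (2 * dot kp kp) : ℝ) : ℂ) * kp := ⟨_, rfl⟩
      have hd : dX + 2 * dot kp n0 = 0 := by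
        rw [hn0, dot_smul_right]
        field_simp
        ring
      have hy0 : dot kp y = 0 := by linarith
      have h3 := DD_line' y z a b c n0
      by_cases h1 : DD y z a b c n0 = 0
      · by_cases h2 : DD y z a b c (n0 + y) = 0
        · refine ⟨n0 - y, ?_, Or.inl ?_⟩
          · intro h4
            rw [h1, h2, h4] at h3
            apply hk
            linarith
          · rw [dot_sub_right]
            linarith
        · refine ⟨n0 + y, h2, Or.inl ?_⟩
          rw [dot_add_right]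
          linarith
      · exact ⟨n0, h1, Or.inl hd⟩
  · by_cases hX : dX = 0
    · have hcr := hpar (Or.inl hX) hXY
      by_cases hL : L0 y z a b c (I * kp) = 0
      · have hL' : L0 y z a b c (I * km) ≠ 0 := by
          intro h
          have h5 := lin_zero _ (L0_lin y z a b c) kp km hcr hL h y
          apply hk
          have h6 : L0 y z a b c y = - (crs y z * dot y (b - a)) := by
            simp only [L0, crs, dot, sub_re, sub_im]
            ring
          linarith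
        obtain ⟨m, hm'⟩ := pm_one (B := Q0 y z a b c (I * km)) hL'
        refine ⟨m * (I * km), by rw [DD_expand]; exact hm', Or.inr ?_⟩
        rw [dot_I_mul, hX]
        ring
      · obtain ⟨m, hm'⟩ := pm_one (B := Q0 y z a b c (I * kp)) hL
        refine ⟨m * (I * kp), by rw [DD_expand]; exact hm', Or.inl ?_⟩
        rw [dot_I_mul, hX]
        ring
    · by_cases hY : dY = 0
      · have hcr := hpar (Or.inr hY) hXY
        by_cases hL : L1 y z a b c (I * kp) = 0
        · have hL' : L1 y z a b c (I * km) ≠ 0 := by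
            intro h
            have h5 := lin_zero _ (L1_lin y z a b c) kp km hcr hL h y
            apply hk
            have h6 : L1 y z a b c y = (crs y z * dot y (b - a)) := by
              simp only [L1, L0, crs, dot, sub_re, sub_im]
              ring
            linarith
          obtain ⟨m, hm'⟩ := pm_one (B := Q0 y z a b c (I * km)) hL'
          refine ⟨y + m * (I * km), by rw [DD_expand']; exact hm', Or.inr ?_⟩
          rw [dot_add_right, dot_I_mul]
          linarith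
        · obtain ⟨m, hm'⟩ := pm_one (B := Q0 y z a b c (I * kp)) hL
          refine ⟨y + m * (I * kp), by rw [DD_expand']; exact hm', Or.inl ?_⟩
          rw [dot_add_right, dot_I_mul]
          linarith
      · -- the zero of an affine function on the line
        have hne : dX - dY ≠ 0 := sub_ne_zero.mpr hXY
        refine ⟨((dX / (dX - dY) : ℝ) : ℂ) * y, ?_, Or.inl ?_⟩
        · rw [DD_line]
          apply mul_ne_zero _ hk
          apply mul_ne_zero
          · exact div_ne_zero hX hne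
          · intro h
            apply hY
            field_simp at h
            linarith
        · rw [dot_smul_right]
          have : dX + 2 * (dX / (dX - dY) * dot kp y) = dX + dX / (dX - dY) * (2 * dot kp y) := by
            ring
          rw [this, hp]
          field_simp
          ring

theorem normSq_add_eq (z w : ℂ) : normSq (z + w) = normSq z + 2 * dot z w + normSq w := by
  simp only [normSq_apply, dot, add_re, add_im]
  ring

theorem dot_mul_conj (z a n : ℂ) : dot z (a * n) = dot ((starRingEnd ℂ) a * z) n := by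
  simp only [dot, mul_re, mul_im, conj_re, conj_im]
  ring

theorem dot_mul_conj' (z a n : ℂ) :
    dot z (a * (starRingEnd ℂ) n) = dot (a * (starRingEnd ℂ) z) n := by
  simp only [dot, mul_re, mul_im, conj_re, conj_im]
  ring

/-- Three distinct points of a circle are not collinear. -/
theorem circle_not_collinear {z kp km : ℂ} (h1 : normSq (z - kp) = normSq z)
    (h2 : normSq (z - km) = normSq z) (hp : kp ≠ 0) (hm : km ≠ 0) (hne : kp ≠ km) :
    crs kp km ≠ 0 := by
  intro h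
  have e1 : 2 * dot z kp = dot kp kp := by
    simp only [normSq_apply, dot, sub_re, sub_im] at h1 ⊢
    linarith
  have e2 : 2 * dot z km = dot km km := by
    simp only [normSq_apply, dot, sub_re, sub_im] at h2 ⊢
    linarith
  have hN : dot kp kp ≠ 0 := by
    rw [← normSq_eq_dot]
    intro h
    exact hp (normSq_eq_zero.mp h)
  -- km = c kp
  obtain ⟨c, hc⟩ : ∃ c : ℝ, c = dot kp km / dot kp kp := ⟨_, rfl⟩
  have hkm : km = c * kp := by
    have h3 : dot kp kp * km.re = dot kp km * kp.re := by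
      simp only [dot, crs] at h ⊢
      linear_combination - kp.im * h
    have h4 : dot kp kp * km.im = dot kp km * kp.im := by
      simp only [dot, crs] at h ⊢
      linear_combination kp.re * h
    apply Complex.ext
    · simp only [mul_re, ofReal_re, ofReal_im]
      rw [hc]
      field_simp
      linarith
    · simp only [mul_im, ofReal_re, ofReal_im]
      rw [hc]
      field_simp
      linarith
  have e3 : c * (dot kp kp) = c ^ 2 * dot kp kp := by
    have h5 : dot z km = c * dot z kp := by rw [hkm, dot_smul_right]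
    have h6 : dot km km = c ^ 2 * dot kp kp := by
      rw [hkm]
      simp only [dot, mul_re, mul_im, ofReal_re, ofReal_im]
      ring
    rw [h5, h6] at e2
    rw [← e1] at e2 ⊢
    linarith
  have e4 : c * (c - 1) = 0 := by
    have : dot kp kp * (c * (c - 1)) = 0 := by linarith
    rcases mul_eq_zero.mp this with h7 | h7
    · exact absurd h7 hN
    · exact h7
  rcases mul_eq_zero.mp e4 with h8 | h8
  · apply hm
    rw [hkm, h8]
    simp
  · apply hne
    have : c = 1 := by linarith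
    rw [hkm, this]
    simp

/-- Attaching a vertex by three bars to an equivalent pair of placements. -/
theorem exists_attach {px py pz X Y Z a b c : ℂ} (hpc : crs (py - px) (pz - px) ≠ 0)
    (hqc : crs (Y - X) (Z - X) ≠ 0) (hlen : normSq (Y - X) = normSq (py - px))
    (hstr : dot (Y - X) (b - a) ≠ 0) :
    ∃ pw qw : ℂ, DD (Y - X) (Z - X) a b c (qw - X) ≠ 0 ∧
      normSq (qw - X) = normSq (pw - px) ∧ normSq (qw - Y) = normSq (pw - py) ∧
      normSq (qw - Z) = normSq (pw - pz) := by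
  have hYX : Y - X ≠ 0 := by
    intro h
    apply hqc
    rw [h]
    simp [crs]
  have hYX' : (starRingEnd ℂ) (Y - X) ≠ 0 := by
    intro h0
    apply hYX
    have := congrArg (starRingEnd ℂ) h0
    simpa using this
  have hN : normSq (Y - X) ≠ 0 := fun h0 => hYX (normSq_eq_zero.mp h0)
  obtain ⟨y, hy⟩ : ∃ y, y = Y - X := ⟨_, rfl⟩
  obtain ⟨al, hal⟩ : ∃ al, al = (py - px) / (Y - X) := ⟨_, rfl⟩
  obtain ⟨be, hbe⟩ : ∃ be, be = (py - px) / (starRingEnd ℂ) (Y - X) := ⟨_, rfl⟩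
  have hal1 : normSq al = 1 := by rw [hal, normSq_div, hlen, div_self (by rw [← hlen]; exact hN)]
  have hbe1 : normSq be = 1 := by
    rw [hbe, normSq_div, normSq_conj, hlen, div_self (by rw [← hlen]; exact hN)]
  have hally : al * y = py - px := by
    rw [hal, hy]
    field_simp
  have hbey : be * (starRingEnd ℂ) y = py - px := by
    rw [hbe, hy]
    field_simp
  obtain ⟨kp, hkp⟩ : ∃ k, k = (starRingEnd ℂ) al * (px - pz) - (X - Z) := ⟨_, rfl⟩
  obtain ⟨km, hkm⟩ : ∃ k, k = be * (starRingEnd ℂ) (px - pz) - (X - Z) := ⟨_, rfl⟩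
  obtain ⟨dX, hdX⟩ : ∃ d, d = normSq (px - pz) - normSq (X - Z) := ⟨_, rfl⟩
  obtain ⟨dY, hdY⟩ : ∃ d, d = normSq (py - pz) - normSq (Y - Z) := ⟨_, rfl⟩
  have hFp : ∀ n : ℂ, normSq (px + al * n - pz) - normSq (X + n - Z) = dX + 2 * dot kp n := by
    intro n
    have e1 : px + al * n - pz = (px - pz) + al * n := by ring
    have e2 : X + n - Z = (X - Z) + n := by ring
    rw [e1, e2, normSq_add_eq, normSq_add_eq, normSq_mul, hal1, hkp, dot_mul_conj, hdX]
    simp only [dot, sub_re, sub_im, mul_re, mul_im, conj_re, conj_im]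
    ring
  have hFm : ∀ n : ℂ, normSq (px + be * (starRingEnd ℂ) n - pz) - normSq (X + n - Z)
      = dX + 2 * dot km n := by
    intro n
    have e1 : px + be * (starRingEnd ℂ) n - pz = (px - pz) + be * (starRingEnd ℂ) n := by ring
    have e2 : X + n - Z = (X - Z) + n := by ring
    rw [e1, e2, normSq_add_eq, normSq_add_eq, normSq_mul, hbe1, normSq_conj, hkm, dot_mul_conj',
      hdX]
    simp only [dot, sub_re, sub_im, mul_re, mul_im, conj_re, conj_im]
    ring
  have hp2 : 2 * dot kp y = dY - dX := by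
    have h1 := hFp y
    rw [hally] at h1
    have e1 : px + (py - px) - pz = py - pz := by ring
    have e2 : X + y - Z = Y - Z := by rw [hy]; ring
    rw [e1, e2, ← hdY] at h1
    linarith
  have hm2 : 2 * dot km y = dY - dX := by
    have h1 := hFm y
    rw [hbey] at h1
    have e1 : px + (py - px) - pz = py - pz := by ring
    have e2 : X + y - Z = Y - Z := by rw [hy]; ring
    rw [e1, e2, ← hdY] at h1
    linarith
  have h0 : kp = 0 → dX = 0 := by
    intro h
    rw [hkp, sub_eq_zero] at h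
    rw [hdX, ← h, normSq_mul, normSq_conj, hal1]
    ring
  -- kp and km are distinct
  have hkk : kp ≠ km := by
    intro h
    have h1 : (starRingEnd ℂ) al * (pz - px) = be * (starRingEnd ℂ) (pz - px) := by
      rw [hkp, hkm] at h
      have h2 : (starRingEnd ℂ) al * (px - pz) = be * (starRingEnd ℂ) (px - pz) := by
        linear_combination h
      rw [map_sub] at h2 ⊢
      linear_combination - h2
    have e1 : crs y ((starRingEnd ℂ) al * (pz - px)) = crs (py - px) (pz - px) := by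
      have e3 : crs (al * y) (pz - px) = crs y ((starRingEnd ℂ) al * (pz - px)) := by
        simp only [crs, mul_re, mul_im, conj_re, conj_im]
        ring
      rw [← e3, hally]
    have e2 : crs y (be * (starRingEnd ℂ) (pz - px)) = - crs (py - px) (pz - px) := by
      have e3 : crs (be * (starRingEnd ℂ) y) (pz - px)
          = - crs y (be * (starRingEnd ℂ) (pz - px)) := by
        simp only [crs, mul_re, mul_im, conj_re, conj_im]
        ring
      rw [← hbey, e3]
      ring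
    rw [h1, e2] at e1
    apply hpc
    linarith
  have hpar : (dX = 0 ∨ dY = 0) → dX ≠ dY → crs kp km ≠ 0 := by
    intro hor hne
    have hkp0 : kp ≠ 0 := by
      intro h
      rw [h] at hp2
      simp [dot] at hp2
      exact hne (by linarith)
    have hkm0 : km ≠ 0 := by
      intro h
      rw [h] at hm2
      simp [dot] at hm2
      exact hne (by linarith)
    rcases hor with h | h
    · apply circle_not_collinear (z := Z - X) _ _ hkp0 hkm0 hkk
      · have : Z - X - kp = (starRingEnd ℂ) al * (pz - px) := by rw [hkp]; ring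
        rw [this, normSq_mul, normSq_conj, hal1, one_mul, ← normSq_neg, ← normSq_neg (Z - X)]
        rw [neg_sub, neg_sub]
        linarith
      · have : Z - X - km = be * (starRingEnd ℂ) (pz - px) := by
          rw [hkm, map_sub, map_sub]; ring
        rw [this, normSq_mul, normSq_conj, hbe1, one_mul, ← normSq_neg, ← normSq_neg (Z - X)]
        rw [neg_sub, neg_sub]
        linarith
    · apply circle_not_collinear (z := Z - Y) _ _ hkp0 hkm0 hkk
      · have h3 : (starRingEnd ℂ) al * (py - px) = y := by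
          rw [← hally, ← mul_assoc, mul_comm ((starRingEnd ℂ) al), mul_conj_of_normSq hal1,
            one_mul]
        have : Z - Y - kp = (starRingEnd ℂ) al * (pz - py) := by
          have : (starRingEnd ℂ) al * (pz - py)
            = (starRingEnd ℂ) al * (pz - px) - (starRingEnd ℂ) al * (py - px) := by ring
          rw [this, h3, hkp, hy]
          ring
        rw [this, normSq_mul, normSq_conj, hal1, one_mul, ← normSq_neg, ← normSq_neg (Z - Y)]
        rw [neg_sub, neg_sub]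
        linarith
      · have h3 : be * (starRingEnd ℂ) (py - px) = y := by
          rw [← hbey, map_mul, Complex.conj_conj, ← mul_assoc, mul_conj_of_normSq hbe1,
            one_mul]
        have : Z - Y - km = be * (starRingEnd ℂ) (pz - py) := by
          have : be * (starRingEnd ℂ) (pz - py)
            = be * (starRingEnd ℂ) (pz - px) - be * (starRingEnd ℂ) (py - px) := by
              rw [map_sub, map_sub, map_sub]; ring
          rw [this, h3, hkm, hy, map_sub, map_sub]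
          ring
        rw [this, normSq_mul, normSq_conj, hbe1, one_mul, ← normSq_neg, ← normSq_neg (Z - Y)]
        rw [neg_sub, neg_sub]
        linarith
  obtain ⟨n, hD, hn⟩ := exists_disp y (Z - X) a b c kp km dX dY
    (by rw [hy]; exact mul_ne_zero hqc hstr) hp2 hm2 h0 hpar
  rcases hn with hn | hn
  · refine ⟨px + al * n, X + n, ?_, ?_, ?_, ?_⟩
    · rw [← hy]
      simpa using hD
    · simp [normSq_mul, hal1]
    · have e1 : X + n - Y = n - y := by rw [hy]; ring
      have e2 : px + al * n - py = al * (n - y) := by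
        rw [mul_sub, hally]; ring
      rw [e1, e2, normSq_mul, hal1, one_mul]
    · have := hFp n
      linarith
  · refine ⟨px + be * (starRingEnd ℂ) n, X + n, ?_, ?_, ?_, ?_⟩
    · rw [← hy]
      simpa using hD
    · simp [normSq_mul, hbe1]
    · have e1 : X + n - Y = n - y := by rw [hy]; ring
      have e2 : px + be * (starRingEnd ℂ) n - py = be * (starRingEnd ℂ) (n - y) := by
        rw [map_sub, mul_sub, hbey]; ring
      rw [e1, e2, normSq_mul, hbe1, one_mul, normSq_conj]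
    · have := hFm n
      linarith

end Pool.Agent.Lib.MP_699f60_co
end

section

section

set_option autoImplicit false

namespace Pool.Agent.Lib.MP_699f60_co

open Complex Function

variable {V : Type*} [Fintype V] [DecidableEq V]

theorem isRot_update {p u : V → ℂ} {B : Finset V} {w : V} (hw : w ∉ B) (z c : ℂ) :
    IsRot (update p w z) (update u w c) B ↔ IsRot p u B := by
  constructor
  · intro h
    apply h.congr
    · intro x hx
      have : x ≠ w := fun e => hw (e ▸ hx)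
      rw [update_of_ne this]
    · intro x hx
      have : x ≠ w := fun e => hw (e ▸ hx)
      rw [update_of_ne this]
  · intro h
    apply h.congr
    · intro x hx
      have : x ≠ w := fun e => hw (e ▸ hx)
      rw [update_of_ne this]
    · intro x hx
      have : x ≠ w := fun e => hw (e ▸ hx)
      rw [update_of_ne this]

theorem isRot_update' {p u : V → ℂ} {B : Finset V} {w : V} (hw : w ∉ B) (c : ℂ) :
    IsRot p (update u w c) B ↔ IsRot p u B := by
  have := isRot_update (p := p) (u := u) hw (p w) c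
  rwa [update_eq_self] at this

theorem isRot_update'' {p u : V → ℂ} {B : Finset V} {w : V} (hw : w ∉ B) (z : ℂ) :
    IsRot (update p w z) u B ↔ IsRot p u B := by
  have := isRot_update (p := p) (u := u) hw z (u w)
  rwa [update_eq_self] at this

/-- A bar condition. -/
theorem isRot_bar {p u : V → ℂ} {x y : V} (hp : p x ≠ p y) :
    IsRot p u {x, y} ↔ dot (p x - p y) (u x - u y) = 0 := by
  constructor
  · intro h
    exact h.dot_eq (by simp) (by simp)
  · intro h
    exact isRot_pair hp h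

theorem update_zero_off {U : Finset V} {w : V} {u : V → ℂ} (hu : ∀ x, x ∉ U → u x = 0) :
    ∀ x, x ∉ U.erase w → update u w 0 x = 0 := by
  intro x hx
  by_cases hxw : x = w
  · subst hxw; simp
  · rw [update_of_ne hxw]
    apply hu
    intro h
    exact hx (Finset.mem_erase.mpr ⟨hxw, h⟩)

theorem update_off {U : Finset V} {w : V} (hwU : w ∈ U) {u : V → ℂ}
    (hu : ∀ x, x ∉ U.erase w → u x = 0) (c : ℂ) :
    ∀ x, x ∉ U → update u w c x = 0 := by
  intro x hx
  have hxw : x ≠ w := fun e => hx (e ▸ hwU)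
  rw [update_of_ne hxw]
  apply hu
  intro h
  exact hx (Finset.mem_of_mem_erase h)

theorem zero_of_update {U : Finset V} {w : V} {u : V → ℂ}
    (hu : ∀ x, x ∉ U.erase w → u x = 0) {c : ℂ} (h : ∀ x, update u w c x = 0) :
    ∀ x, u x = 0 := by
  intro x
  by_cases hxw : x = w
  · subst hxw
    exact hu _ (by simp)
  · have := h x
    rwa [update_of_ne hxw] at this

section type0

variable {R : Multiset (Finset V)} {U A : Finset V} {w : V}

theorem rigid_red0 {p : V → ℂ} (hR : ∀ B ∈ R, w ∉ B) (hwU : w ∈ U) (hwA : w ∈ A)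
    (h : Rigid (A ::ₘ R) U p) : Rigid (A.erase w ::ₘ R) (U.erase w) p := by
  intro u hu hrot
  rw [Multiset.forall_mem_cons] at hrot
  obtain ⟨c, hc⟩ := isRot_insert hrot.1 (Finset.notMem_erase w A)
  rw [Finset.insert_erase hwA] at hc
  apply zero_of_update hu (c := c)
  apply h _ (update_off hwU hu c)
  rw [Multiset.forall_mem_cons]
  exact ⟨hc, fun B hB => (isRot_update' (hR B hB) c).mpr (hrot.2 B hB)⟩

theorem rigid_lift0 {q : V → ℂ} {z : ℂ} (hR : ∀ B ∈ R, w ∉ B) (hwA : w ∈ A)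
    (hA : ∃ x ∈ A, ∃ y ∈ A, x ≠ w ∧ y ≠ w ∧ q x ≠ q y)
    (h : Rigid (A.erase w ::ₘ R) (U.erase w) q) : Rigid (A ::ₘ R) U (update q w z) := by
  intro u hu hrot
  rw [Multiset.forall_mem_cons] at hrot
  have h1 : ∀ x, update u w 0 x = 0 := by
    apply h _ (update_zero_off hu)
    rw [Multiset.forall_mem_cons]
    constructor
    · have h2 := hrot.1.mono (Finset.erase_subset w A)
      rw [isRot_update'' (Finset.notMem_erase w A)] at h2
      exact (isRot_update' (Finset.notMem_erase w A) 0).mpr h2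
    · intro B hB
      have h2 := hrot.2 B hB
      rw [isRot_update'' (hR B hB)] at h2
      exact (isRot_update' (hR B hB) 0).mpr h2
  have h3 : ∀ x, x ≠ w → u x = 0 := by
    intro x hx
    have := h1 x
    rwa [update_of_ne hx] at this
  obtain ⟨x, hx, y, hy, hxw, hyw, hne⟩ := hA
  intro v
  by_cases hv : v = w
  · subst hv
    refine hrot.1.eq_zero hx hy ?_ (h3 x hxw) (h3 y hyw) v hwA
    rwa [update_of_ne hxw, update_of_ne hyw]
  · exact h3 v hv

end type0

/-- The bars at a removed vertex. -/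
theorem lift_aux {R : Multiset (Finset V)} {U : Finset V} {w : V} {q u : V → ℂ} {z : ℂ}
    (hR : ∀ B ∈ R, w ∉ B) (hrot : ∀ B ∈ R, IsRot (update q w z) u B) :
    ∀ B ∈ R, IsRot q (update u w 0) B := by
  intro B hB
  have h2 := hrot B hB
  rw [isRot_update'' (hR B hB)] at h2
  exact (isRot_update' (hR B hB) 0).mpr h2

section typeI

variable {R : Multiset (Finset V)} {U : Finset V} {w x y : V}

theorem rigid_red1 {p : V → ℂ} (hR : ∀ B ∈ R, w ∉ B) (hwU : w ∈ U) (hwx : w ≠ x)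
    (hwy : w ≠ y) (hp : crs (p w - p x) (p w - p y) ≠ 0)
    (h : Rigid ({w, x} ::ₘ {w, y} ::ₘ R) U p) : Rigid R (U.erase w) p := by
  intro u hu hrot
  have hpx : p w ≠ p x := by
    intro e; apply hp; rw [e]; simp [crs]
  have hpy : p w ≠ p y := by
    intro e; apply hp; rw [e]; simp [crs]
  obtain ⟨c, hc1, hc2⟩ := exists_dot_eq hp (dot (p w - p x) (u x)) (dot (p w - p y) (u y))
  apply zero_of_update hu (c := c)
  apply h _ (update_off hwU hu c)
  rw [Multiset.forall_mem_cons, Multiset.forall_mem_cons]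
  refine ⟨?_, ?_, fun B hB => (isRot_update' (hR B hB) c).mpr (hrot B hB)⟩
  · apply isRot_pair hpx
    rw [update_self, update_of_ne (Ne.symm hwx), dot_sub_right]
    linarith
  · apply isRot_pair hpy
    rw [update_self, update_of_ne (Ne.symm hwy), dot_sub_right]
    linarith

theorem rigid_lift1 {q : V → ℂ} {z : ℂ} (hR : ∀ B ∈ R, w ∉ B) (hwx : w ≠ x)
    (hwy : w ≠ y) (hz : crs (z - q x) (z - q y) ≠ 0)
    (h : Rigid R (U.erase w) q) : Rigid ({w, x} ::ₘ {w, y} ::ₘ R) U (update q w z) := by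
  intro u hu hrot
  rw [Multiset.forall_mem_cons, Multiset.forall_mem_cons] at hrot
  have h1 : ∀ x, update u w 0 x = 0 :=
    h _ (update_zero_off hu) (lift_aux (U := U) hR hrot.2.2)
  have h3 : ∀ x, x ≠ w → u x = 0 := by
    intro x hx
    have := h1 x
    rwa [update_of_ne hx] at this
  have e1 := hrot.1.dot_eq (x := w) (y := x) (by simp) (by simp)
  have e2 := hrot.2.1.dot_eq (x := w) (y := y) (by simp) (by simp)
  rw [update_self, update_of_ne (Ne.symm hwx), h3 x (Ne.symm hwx), sub_zero] at e1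
  rw [update_self, update_of_ne (Ne.symm hwy), h3 y (Ne.symm hwy), sub_zero] at e2
  intro v
  by_cases hv : v = w
  · rw [hv]
    exact eq_zero_of_dot hz e1 e2
  · exact h3 v hv

end typeI

section typeII

variable {R : Multiset (Finset V)} {U A : Finset V} {w b : V}

/-- Motions of the reduced system extended over the body: the key step. -/
theorem typeII_aux {p : V → ℂ} (hR : ∀ B ∈ R, w ∉ B) (hwU : w ∈ U) (hwA : w ∈ A)
    (hwb : w ≠ b) (hpb : p w ≠ p b) (h : Rigid (A ::ₘ {w, b} ::ₘ R) U p) {u : V → ℂ}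
    (hu : ∀ x, x ∉ U.erase w → u x = 0) (hrotR : ∀ B ∈ R, IsRot p u B)
    {ω : ℝ} {t : ℂ} (hrot : ∀ x ∈ A.erase w, u x = ω * (I * p x) + t)
    (hf : dot (p w - p b) (ω * (I * p w) + t - u b) = 0) : ∀ x, u x = 0 := by
  apply zero_of_update hu (c := ω * (I * p w) + t)
  apply h _ (update_off hwU hu _)
  rw [Multiset.forall_mem_cons, Multiset.forall_mem_cons]
  refine ⟨⟨ω, t, ?_⟩, ?_, fun B hB => (isRot_update' (hR B hB) _).mpr (hrotR B hB)⟩
  · intro x hx
    by_cases hxw : x = w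
    · subst hxw; simp
    · rw [update_of_ne hxw]
      exact hrot x (Finset.mem_erase.mpr ⟨hxw, hx⟩)
  · apply isRot_pair hpb
    rw [update_self, update_of_ne (Ne.symm hwb)]
    exact hf

theorem rigid_red2 {p : V → ℂ} (hR : ∀ B ∈ R, w ∉ B) (hwU : w ∈ U) (hwA : w ∈ A)
    (hwb : w ≠ b) (hpb : p w ≠ p b) (h : Rigid (A ::ₘ {w, b} ::ₘ R) U p) {a a' : V}
    (ha : a ∈ A.erase w) (ha' : a' ∈ A.erase w)
    (hp : crs (p a - p b) (p a' - p b) ≠ 0) :
    Rigid ({a, b} ::ₘ A.erase w ::ₘ R) (U.erase w) p ∨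
      Rigid ({a', b} ::ₘ A.erase w ::ₘ R) (U.erase w) p := by
  by_contra hcon
  push Not at hcon
  obtain ⟨hc1, hc2⟩ := hcon
  unfold Rigid at hc1 hc2
  push Not at hc1 hc2
  obtain ⟨u₁, hu₁, hrot₁, x₁, hx₁⟩ := hc1
  obtain ⟨u₂, hu₂, hrot₂, x₂, hx₂⟩ := hc2
  rw [Multiset.forall_mem_cons, Multiset.forall_mem_cons] at hrot₁ hrot₂
  obtain ⟨hb₁, ⟨ω₁, t₁, hA₁⟩, hR₁⟩ := hrot₁
  obtain ⟨hb₂, ⟨ω₂, t₂, hA₂⟩, hR₂⟩ := hrot₂
  obtain ⟨f₁, hf₁⟩ : ∃ f₁, f₁ = dot (p w - p b) (ω₁ * (I * p w) + t₁ - u₁ b) := ⟨_, rfl⟩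
  obtain ⟨f₂, hf₂⟩ : ∃ f₂, f₂ = dot (p w - p b) (ω₂ * (I * p w) + t₂ - u₂ b) := ⟨_, rfl⟩
  have hf₁0 : f₁ ≠ 0 := by
    intro h0
    exact hx₁ (typeII_aux hR hwU hwA hwb hpb h hu₁ hR₁ hA₁ (by rw [← hf₁, h0]) x₁)
  have hf₂0 : f₂ ≠ 0 := by
    intro h0
    exact hx₂ (typeII_aux hR hwU hwA hwb hpb h hu₂ hR₂ hA₂ (by rw [← hf₂, h0]) x₂)
  have hcomb : ∀ x, (f₂ : ℂ) * u₁ x + (-f₁ : ℝ) * u₂ x = 0 := by
    apply typeII_aux hR hwU hwA hwb hpb h (u := fun x => (f₂ : ℂ) * u₁ x + (-f₁ : ℝ) * u₂ x)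
      (ω := f₂ * ω₁ + (-f₁) * ω₂) (t := (f₂ : ℂ) * t₁ + (-f₁ : ℝ) * t₂)
    · intro x hx
      simp only [hu₁ x hx, hu₂ x hx]
      simp
    · intro B hB
      exact (hR₁ B hB).lin (hR₂ B hB) f₂ (-f₁)
    · intro x hx
      simp only [hA₁ x hx, hA₂ x hx]
      push_cast
      ring
    · have e : ((f₂ * ω₁ + (-f₁) * ω₂ : ℝ) : ℂ) * (I * p w) + ((f₂ : ℂ) * t₁ + (-f₁ : ℝ) * t₂)
          - ((f₂ : ℂ) * u₁ b + (-f₁ : ℝ) * u₂ b)
          = (f₂ : ℂ) * (ω₁ * (I * p w) + t₁ - u₁ b)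
            + ((-f₁ : ℝ) : ℂ) * (ω₂ * (I * p w) + t₂ - u₂ b) := by
        push_cast
        ring
      rw [e, dot_add_right, dot_smul_right, dot_smul_right, ← hf₁, ← hf₂]
      ring
  -- so `u₁` has no strain on `a' b`
  have hs2 := hb₂.dot_eq (x := a') (y := b) (by simp) (by simp)
  have hs1 := hb₁.dot_eq (x := a) (y := b) (by simp) (by simp)
  have hs3 : dot (p a' - p b) (u₁ a' - u₁ b) = 0 := by
    have e : (f₂ : ℂ) * (u₁ a' - u₁ b) = (f₁ : ℂ) * (u₂ a' - u₂ b) := by
      have h1 := hcomb a'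
      have h2 := hcomb b
      push_cast at h1 h2
      linear_combination h1 - h2
    have h3 : f₂ * dot (p a' - p b) (u₁ a' - u₁ b) = 0 := by
      rw [← dot_smul_right, e, dot_smul_right, hs2, mul_zero]
    rcases mul_eq_zero.mp h3 with h4 | h4
    · exact absurd h4 hf₂0
    · exact h4
  obtain ⟨e, he⟩ : ∃ e, e = ω₁ * (I * p b) + t₁ - u₁ b := ⟨_, rfl⟩
  have k1 : dot (p a - p b) e = 0 := by
    have : u₁ a - u₁ b = ω₁ * (I * (p a - p b)) + e := by
      rw [he, hA₁ a ha]; ring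
    rw [this, dot_add_right, dot_I_mul, zero_add] at hs1
    exact hs1
  have k2 : dot (p a' - p b) e = 0 := by
    have : u₁ a' - u₁ b = ω₁ * (I * (p a' - p b)) + e := by
      rw [he, hA₁ a' ha']; ring
    rw [this, dot_add_right, dot_I_mul, zero_add] at hs3
    exact hs3
  have k3 := eq_zero_of_dot hp k1 k2
  apply hf₁0
  rw [hf₁]
  have : ω₁ * (I * p w) + t₁ - u₁ b = ω₁ * (I * (p w - p b)) + e := by
    rw [he]; ring
  rw [this, k3, add_zero, dot_I_mul]

/-- Lifting at the collapsed position `q w = q a`. -/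
theorem rigid_lift2 {q : V → ℂ} (hR : ∀ B ∈ R, w ∉ B) (hwA : w ∈ A) (hwb : w ≠ b)
    {a a' : V} (ha : a ∈ A.erase w) (ha' : a' ∈ A.erase w) (haa : q a ≠ q a')
    (hab : q a ≠ q b)
    (h : Rigid ({a, b} ::ₘ A.erase w ::ₘ R) (U.erase w) q) :
    Rigid (A ::ₘ {w, b} ::ₘ R) U (update q w (q a)) := by
  intro u hu hrot
  rw [Multiset.forall_mem_cons, Multiset.forall_mem_cons] at hrot
  obtain ⟨⟨ω, t, hA⟩, hb, hRR⟩ := hrot
  have haw : a ≠ w := (Finset.mem_erase.mp ha).1
  have haA : a ∈ A := (Finset.mem_erase.mp ha).2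
  have haw' : a' ≠ w := (Finset.mem_erase.mp ha').1
  have haA' : a' ∈ A := (Finset.mem_erase.mp ha').2
  have hwa : u w = u a := by
    rw [hA w hwA, hA a haA, update_self, update_of_ne haw]
  have hb' := hb.dot_eq (x := w) (y := b) (by simp) (by simp)
  rw [update_self, update_of_ne (Ne.symm hwb), hwa] at hb'
  have h1 : ∀ x, update u w 0 x = 0 := by
    apply h _ (update_zero_off hu)
    rw [Multiset.forall_mem_cons, Multiset.forall_mem_cons]
    refine ⟨?_, ?_, lift_aux (U := U) hR hRR⟩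
    · apply isRot_pair hab
      rw [update_of_ne haw, update_of_ne (Ne.symm hwb)]
      exact hb'
    · refine ⟨ω, t, fun x hx => ?_⟩
      have hxw : x ≠ w := (Finset.mem_erase.mp hx).1
      have := hA x (Finset.mem_erase.mp hx).2
      rw [update_of_ne hxw] at this ⊢
      exact this
  have h3 : ∀ x, x ≠ w → u x = 0 := by
    intro x hx
    have := h1 x
    rwa [update_of_ne hx] at this
  intro v
  by_cases hv : v = w
  · rw [hv, hwa]
    exact h3 a haw
  · exact h3 v hv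

end typeII

section typeIII

variable {R : Multiset (Finset V)} {U : Finset V} {w x y z : V}

theorem typeIII_aux {p : V → ℂ} (hR : ∀ B ∈ R, w ∉ B) (hwU : w ∈ U) (hwx : w ≠ x)
    (hwy : w ≠ y) (hwz : w ≠ z) (hpx : p w ≠ p x) (hpy : p w ≠ p y) (hpz : p w ≠ p z)
    (h : Rigid ({w, x} ::ₘ {w, y} ::ₘ {w, z} ::ₘ R) U p) {u : V → ℂ}
    (hu : ∀ x, x ∉ U.erase w → u x = 0) (hrotR : ∀ B ∈ R, IsRot p u B) {c : ℂ}
    (h1 : dot (p w - p x) (c - u x) = 0) (h2 : dot (p w - p y) (c - u y) = 0)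
    (h3 : dot (p w - p z) (c - u z) = 0) : ∀ x, u x = 0 := by
  apply zero_of_update hu (c := c)
  apply h _ (update_off hwU hu _)
  rw [Multiset.forall_mem_cons, Multiset.forall_mem_cons, Multiset.forall_mem_cons]
  refine ⟨?_, ?_, ?_, fun B hB => (isRot_update' (hR B hB) _).mpr (hrotR B hB)⟩
  · apply isRot_pair hpx
    rw [update_self, update_of_ne (Ne.symm hwx)]
    exact h1
  · apply isRot_pair hpy
    rw [update_self, update_of_ne (Ne.symm hwy)]
    exact h2
  · apply isRot_pair hpz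
    rw [update_self, update_of_ne (Ne.symm hwz)]
    exact h3

theorem rigid_red3 {p : V → ℂ} (hR : ∀ B ∈ R, w ∉ B) (hwU : w ∈ U) (hwx : w ≠ x)
    (hwy : w ≠ y) (hwz : w ≠ z) (hpz : p w ≠ p z) (hpw : crs (p w - p x) (p w - p y) ≠ 0)
    (hpc : crs (p y - p x) (p z - p x) ≠ 0)
    (h : Rigid ({w, x} ::ₘ {w, y} ::ₘ {w, z} ::ₘ R) U p) :
    Rigid ({x, y} ::ₘ R) (U.erase w) p ∨ Rigid ({y, z} ::ₘ R) (U.erase w) p ∨
      Rigid ({x, z} ::ₘ R) (U.erase w) p := by
  by_contra hcon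
  push Not at hcon
  obtain ⟨hc1, hc2, hc3⟩ := hcon
  unfold Rigid at hc1 hc2 hc3
  push Not at hc1 hc2 hc3
  obtain ⟨u₁, hu₁, hrot₁, x₁, hx₁⟩ := hc1
  obtain ⟨u₂, hu₂, hrot₂, x₂, hx₂⟩ := hc2
  obtain ⟨u₃, hu₃, hrot₃, x₃, hx₃⟩ := hc3
  rw [Multiset.forall_mem_cons] at hrot₁ hrot₂ hrot₃
  obtain ⟨hb₁, hR₁⟩ := hrot₁
  obtain ⟨hb₂, hR₂⟩ := hrot₂
  obtain ⟨hb₃, hR₃⟩ := hrot₃
  have hpx : p w ≠ p x := by
    intro e; apply hpw; rw [e]; simp [crs]
  have hpy : p w ≠ p y := by
    intro e; apply hpw; rw [e]; simp [crs]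
  have hxy : p x ≠ p y := by
    intro e; apply hpc; rw [e]; simp [crs]
  have hxz : p x ≠ p z := by
    intro e; apply hpc; rw [e]; simp [crs]
  have hyz : p y ≠ p z := by
    intro e; apply hpc; rw [e]; simp only [crs]; ring
  have hext : ∀ u : V → ℂ, ∃ c : ℂ, dot (p w - p x) (c - u x) = 0 ∧
      dot (p w - p y) (c - u y) = 0 := by
    intro u
    obtain ⟨c, hc1, hc2⟩ := exists_dot_eq hpw (dot (p w - p x) (u x)) (dot (p w - p y) (u y))
    refine ⟨c, ?_, ?_⟩
    · rw [dot_sub_right]; linarith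
    · rw [dot_sub_right]; linarith
  obtain ⟨c₁, hc₁x, hc₁y⟩ := hext u₁
  -- proportionality of two motions
  have hprop : ∀ u₂ : V → ℂ, (∀ x, x ∉ U.erase w → u₂ x = 0) → (∀ B ∈ R, IsRot p u₂ B) →
      (∃ x, u₂ x ≠ 0) → ∃ κ : ℝ, ∀ x, u₁ x = κ * u₂ x := by
    intro u₂ hu₂ hR₂ ⟨x₂, hx₂⟩
    obtain ⟨c₂, hc₂x, hc₂y⟩ := hext u₂
    obtain ⟨f₁, hf₁⟩ : ∃ f₁, f₁ = dot (p w - p z) (c₁ - u₁ z) := ⟨_, rfl⟩
    obtain ⟨f₂, hf₂⟩ : ∃ f₂, f₂ = dot (p w - p z) (c₂ - u₂ z) := ⟨_, rfl⟩
    have hf₂0 : f₂ ≠ 0 := by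
      intro h0
      exact hx₂ (typeIII_aux hR hwU hwx hwy hwz hpx hpy hpz h hu₂ hR₂ hc₂x hc₂y
        (by rw [← hf₂, h0]) x₂)
    have hcomb : ∀ x, (f₂ : ℂ) * u₁ x + (-f₁ : ℝ) * u₂ x = 0 := by
      apply typeIII_aux hR hwU hwx hwy hwz hpx hpy hpz h
        (u := fun x => (f₂ : ℂ) * u₁ x + (-f₁ : ℝ) * u₂ x)
        (c := (f₂ : ℂ) * c₁ + (-f₁ : ℝ) * c₂)
      · intro x hx
        simp only [hu₁ x hx, hu₂ x hx]
        simp
      · intro B hB
        exact (hR₁ B hB).lin (hR₂ B hB) f₂ (-f₁)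
      · have e : (f₂ : ℂ) * c₁ + (-f₁ : ℝ) * c₂ - ((f₂ : ℂ) * u₁ x + (-f₁ : ℝ) * u₂ x)
            = (f₂ : ℂ) * (c₁ - u₁ x) + ((-f₁ : ℝ) : ℂ) * (c₂ - u₂ x) := by ring
        rw [e, dot_add_right, dot_smul_right, dot_smul_right, hc₁x, hc₂x]
        ring
      · have e : (f₂ : ℂ) * c₁ + (-f₁ : ℝ) * c₂ - ((f₂ : ℂ) * u₁ y + (-f₁ : ℝ) * u₂ y)
            = (f₂ : ℂ) * (c₁ - u₁ y) + ((-f₁ : ℝ) : ℂ) * (c₂ - u₂ y) := by ring
        rw [e, dot_add_right, dot_smul_right, dot_smul_right, hc₁y, hc₂y]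
        ring
      · have e : (f₂ : ℂ) * c₁ + (-f₁ : ℝ) * c₂ - ((f₂ : ℂ) * u₁ z + (-f₁ : ℝ) * u₂ z)
            = (f₂ : ℂ) * (c₁ - u₁ z) + ((-f₁ : ℝ) : ℂ) * (c₂ - u₂ z) := by ring
        rw [e, dot_add_right, dot_smul_right, dot_smul_right, ← hf₁, ← hf₂]
        ring
    refine ⟨f₁ / f₂, fun x => ?_⟩
    have h1 := hcomb x
    have h2 : (f₂ : ℂ) ≠ 0 := by exact_mod_cast hf₂0
    push_cast at h1 ⊢
    field_simp
    linear_combination h1
  obtain ⟨κ₂, hκ₂⟩ := hprop u₂ hu₂ hR₂ ⟨x₂, hx₂⟩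
  obtain ⟨κ₃, hκ₃⟩ := hprop u₃ hu₃ hR₃ ⟨x₃, hx₃⟩
  have hb₂' : IsRot p u₁ {y, z} := by
    have := hb₂.lin hb₂ κ₂ 0
    apply this.congr (fun _ _ => rfl)
    intro v _
    rw [hκ₂ v]
    simp
  have hb₃' : IsRot p u₁ {x, z} := by
    have := hb₃.lin hb₃ κ₃ 0
    apply this.congr (fun _ _ => rfl)
    intro v _
    rw [hκ₃ v]
    simp
  obtain ⟨ω, t, htri⟩ := hb₁.triangle hb₂' hb₃' (x := x) (y := y) (z := z) (by simp) (by simp)
    (by simp) (by simp) (by simp) (by simp) hpc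
  apply hx₁
  apply typeIII_aux hR hwU hwx hwy hwz hpx hpy hpz h hu₁ hR₁ (c := ω * (I * p w) + t)
  · have : ω * (I * p w) + t - u₁ x = ω * (I * (p w - p x)) := by
      rw [htri x (by simp)]; ring
    rw [this, dot_I_mul]
  · have : ω * (I * p w) + t - u₁ y = ω * (I * (p w - p y)) := by
      rw [htri y (by simp)]; ring
    rw [this, dot_I_mul]
  · have : ω * (I * p w) + t - u₁ z = ω * (I * (p w - p z)) := by
      rw [htri z (by simp)]; ring
    rw [this, dot_I_mul]

theorem rigid_lift3 {q : V → ℂ} {qw : ℂ} {u₁ : V → ℂ} (hR : ∀ B ∈ R, w ∉ B) (hwx : w ≠ x)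
    (hwy : w ≠ y) (hwz : w ≠ z) (hqxy : q x ≠ q y)
    (h : Rigid ({x, y} ::ₘ R) (U.erase w) q)
    (hu₁ : ∀ x, x ∉ U.erase w → u₁ x = 0) (hR₁ : ∀ B ∈ R, IsRot q u₁ B)
    (hD : DD (q y - q x) (q z - q x) (u₁ x) (u₁ y) (u₁ z) (qw - q x) ≠ 0) :
    Rigid ({w, x} ::ₘ {w, y} ::ₘ {w, z} ::ₘ R) U (update q w qw) := by
  intro u hu hrot
  rw [Multiset.forall_mem_cons, Multiset.forall_mem_cons, Multiset.forall_mem_cons] at hrot
  obtain ⟨hbx, hby, hbz, hRR⟩ := hrot
  have hR' := lift_aux (U := U) hR hRR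
  have hz' := update_zero_off (w := w) hu
  obtain ⟨u', hu'⟩ : ∃ u', u' = update u w 0 := ⟨_, rfl⟩
  rw [← hu'] at hR' hz'
  have huu : ∀ x, x ≠ w → u' x = u x := by
    intro x hx
    rw [hu', update_of_ne hx]
  obtain ⟨s₁, hs₁⟩ : ∃ s, s = dot (q x - q y) (u₁ x - u₁ y) := ⟨_, rfl⟩
  obtain ⟨s, hs⟩ : ∃ s, s = dot (q x - q y) (u' x - u' y) := ⟨_, rfl⟩
  have hs₁0 : s₁ ≠ 0 := by
    intro h0
    have h1 : ∀ x, u₁ x = 0 := by
      apply h u₁ hu₁
      rw [Multiset.forall_mem_cons]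
      exact ⟨isRot_pair hqxy (by rw [← hs₁, h0]), hR₁⟩
    apply hD
    rw [h1 x, h1 y, h1 z]
    simp [DD, dot]
  have hcomb : ∀ x, (s₁ : ℂ) * u' x + (-s : ℝ) * u₁ x = 0 := by
    apply h (fun x => (s₁ : ℂ) * u' x + (-s : ℝ) * u₁ x)
    · intro x hx
      simp only [hu₁ x hx, hz' x hx]
      simp
    · rw [Multiset.forall_mem_cons]
      constructor
      · apply isRot_pair hqxy
        have e : (s₁ : ℂ) * u' x + (-s : ℝ) * u₁ x - ((s₁ : ℂ) * u' y + (-s : ℝ) * u₁ y)
            = (s₁ : ℂ) * (u' x - u' y) + ((-s : ℝ) : ℂ) * (u₁ x - u₁ y) := by ring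
        rw [e, dot_add_right, dot_smul_right, dot_smul_right, ← hs₁, ← hs]
        ring
      · intro B hB
        exact (hR' B hB).lin (hR₁ B hB) s₁ (-s)
  have hκ : ∀ x, x ≠ w → u x = ((s / s₁ : ℝ) : ℂ) * u₁ x := by
    intro x hx
    have h1 := hcomb x
    rw [huu x hx] at h1
    have h2 : (s₁ : ℂ) ≠ 0 := by exact_mod_cast hs₁0
    push_cast at h1 ⊢
    field_simp
    linear_combination h1
  obtain ⟨κ, hκ'⟩ : ∃ κ : ℝ, κ = s / s₁ := ⟨_, rfl⟩
  rw [← hκ'] at hκ
  have e1 := hbx.dot_eq (x := w) (y := x) (by simp) (by simp)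
  have e2 := hby.dot_eq (x := w) (y := y) (by simp) (by simp)
  have e3 := hbz.dot_eq (x := w) (y := z) (by simp) (by simp)
  rw [update_self, update_of_ne (Ne.symm hwx), hκ x (Ne.symm hwx)] at e1
  rw [update_self, update_of_ne (Ne.symm hwy), hκ y (Ne.symm hwy)] at e2
  rw [update_self, update_of_ne (Ne.symm hwz), hκ z (Ne.symm hwz)] at e3
  have g2 : qw - q y = (qw - q x) - (q y - q x) := by ring
  have g3 : qw - q z = (qw - q x) - (q z - q x) := by ring
  rw [g2] at e2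
  rw [g3] at e3
  obtain ⟨n, hn⟩ : ∃ n, n = qw - q x := ⟨_, rfl⟩
  obtain ⟨Y, hY⟩ : ∃ Y, Y = q y - q x := ⟨_, rfl⟩
  obtain ⟨Z, hZ⟩ : ∃ Z, Z = q z - q x := ⟨_, rfl⟩
  rw [← hn] at e1 e2 e3 hD
  rw [← hY] at e2 hD
  rw [← hZ] at e3 hD
  rw [dot_sub_right, dot_smul_right] at e1 e2 e3
  have hκ0 : κ = 0 := by
    have : κ * DD Y Z (u₁ x) (u₁ y) (u₁ z) n = 0 := by
      have id1 : crs n (n - Y) * dot (n - Z) (u w) + crs (n - Y) (n - Z) * dot n (u w)
          + crs (n - Z) n * dot (n - Y) (u w) = 0 := by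
        simp only [crs, dot, sub_re, sub_im]
        ring
      unfold DD
      linear_combination id1 - crs n (n - Y) * e3 - crs (n - Y) (n - Z) * e1
        - crs (n - Z) n * e2
    rcases mul_eq_zero.mp this with h1 | h1
    · exact h1
    · exact absurd h1 hD
  have hw0 : u w = 0 := by
    rw [hκ0] at e1 e2 e3
    have e1' : dot n (u w) = 0 := by linarith
    have e2' : dot (n - Y) (u w) = 0 := by linarith
    have e3' : dot (n - Z) (u w) = 0 := by linarith
    by_cases c1 : crs n (n - Y) = 0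
    · by_cases c2 : crs (n - Y) (n - Z) = 0
      · by_cases c3 : crs (n - Z) n = 0
        · exfalso
          apply hD
          unfold DD
          rw [c1, c2, c3]
          ring
        · exact eq_zero_of_dot c3 e3' e1'
      · exact eq_zero_of_dot c2 e2' e3'
    · exact eq_zero_of_dot c1 e1' e2'
  intro v
  by_cases hv : v = w
  · rw [hv, hw0]
  · rw [hκ v hv, hκ0]
    simp

end typeIII

end Pool.Agent.Lib.MP_699f60_co
end

section

set_option autoImplicit false

namespace Pool.Agent.Lib.MP_699f60_co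

open Complex Topology

variable {V : Type*} [Fintype V] [DecidableEq V]

/-- `sg b` as a continuous linear map. -/
noncomputable def sgL (b : Bool) : ℂ →L[ℝ] ℂ :=
  if b then ContinuousLinearMap.id ℝ ℂ else (Complex.conjCLE : ℂ →L[ℝ] ℂ)

theorem sgL_apply (b : Bool) (z : ℂ) : sgL b z = sg b z := by
  cases b <;> simp [sgL, sg]

section core

variable {n : ℕ} (A : Fin n → Finset V) (U : Finset V) (b : Fin n → Bool)
  (Φ : (V → ℂ) → V → ℂ)

/-- Unknowns: `p`, `q`, the coefficients and the translations. -/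
abbrev ES (V : Type*) (n : ℕ) := (V → ℂ) × (V → ℂ) × (Fin n → ℂ) × (Fin n → ℂ)

/-- Equations. -/
abbrev FS {n : ℕ} (A : Fin n → Finset V) (U : Finset V) :=
  (V → ℂ) × ({x : V // x ∉ U} → ℂ) × ((i : Fin n) → (A i → ℂ)) × (Fin n → ℝ)

/-- The system of equations. -/
noncomputable def FF (X : ES V n) : FS A U :=
  (X.1, (fun x => X.2.1 x - Φ X.1 x),
    (fun i x => X.2.1 x - X.2.2.1 i * sg (b i) (X.1 x) - X.2.2.2 i),
    fun i => (X.2.2.1 i * (starRingEnd ℂ) (X.2.2.1 i)).re)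

/-- projections -/
noncomputable def prP (x : V) : ES V n →L[ℝ] ℂ :=
  (ContinuousLinearMap.proj (R := ℝ) (φ := fun _ : V => ℂ) x).comp
    (ContinuousLinearMap.fst ℝ (V → ℂ) ((V → ℂ) × (Fin n → ℂ) × (Fin n → ℂ)))

noncomputable def prQ (x : V) : ES V n →L[ℝ] ℂ :=
  (ContinuousLinearMap.proj (R := ℝ) (φ := fun _ : V => ℂ) x).comp
    ((ContinuousLinearMap.fst ℝ (V → ℂ) ((Fin n → ℂ) × (Fin n → ℂ))).comp
      (ContinuousLinearMap.snd ℝ (V → ℂ) ((V → ℂ) × (Fin n → ℂ) × (Fin n → ℂ))))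

noncomputable def prA (i : Fin n) : ES V n →L[ℝ] ℂ :=
  (ContinuousLinearMap.proj (R := ℝ) (φ := fun _ : Fin n => ℂ) i).comp
    ((ContinuousLinearMap.fst ℝ (Fin n → ℂ) (Fin n → ℂ)).comp
    ((ContinuousLinearMap.snd ℝ (V → ℂ) ((Fin n → ℂ) × (Fin n → ℂ))).comp
      (ContinuousLinearMap.snd ℝ (V → ℂ) ((V → ℂ) × (Fin n → ℂ) × (Fin n → ℂ)))))

noncomputable def prT (i : Fin n) : ES V n →L[ℝ] ℂ :=
  (ContinuousLinearMap.proj (R := ℝ) (φ := fun _ : Fin n => ℂ) i).comp
    ((ContinuousLinearMap.snd ℝ (Fin n → ℂ) (Fin n → ℂ)).comp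
    ((ContinuousLinearMap.snd ℝ (V → ℂ) ((Fin n → ℂ) × (Fin n → ℂ))).comp
      (ContinuousLinearMap.snd ℝ (V → ℂ) ((V → ℂ) × (Fin n → ℂ) × (Fin n → ℂ)))))

theorem prP_apply (x : V) (X : ES V n) : prP x X = X.1 x := rfl
theorem prQ_apply (x : V) (X : ES V n) : prQ x X = X.2.1 x := rfl
theorem prA_apply (i : Fin n) (X : ES V n) : prA i X = X.2.2.1 i := rfl
theorem prT_apply (i : Fin n) (X : ES V n) : prT i X = X.2.2.2 i := rfl

/-- The derivative. -/
noncomputable def FD (L : V → (V → ℂ) →L[ℝ] ℂ) (X : ES V n) : ES V n →L[ℝ] FS A U :=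
  (ContinuousLinearMap.fst ℝ (V → ℂ) ((V → ℂ) × (Fin n → ℂ) × (Fin n → ℂ))).prod
    ((ContinuousLinearMap.pi (fun x : {x : V // x ∉ U} => prQ (V := V) (n := n) (x : V)
      - (L x).comp (ContinuousLinearMap.fst ℝ (V → ℂ) ((V → ℂ) × (Fin n → ℂ) × (Fin n → ℂ))))).prod
    ((ContinuousLinearMap.pi (fun i : Fin n => ContinuousLinearMap.pi (fun x : A i =>
      prQ (V := V) (n := n) (x : V) - (X.2.2.1 i • ((sgL (b i)).comp (prP (V := V) (n := n) (x : V)))
        + (sg (b i) (X.1 x)) • prA (V := V) i) - prT (V := V) i))).prod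
    (ContinuousLinearMap.pi (fun i : Fin n => Complex.reCLM.comp
      (X.2.2.1 i • ((Complex.conjCLE : ℂ →L[ℝ] ℂ).comp (prA (V := V) i))
        + (starRingEnd ℂ) (X.2.2.1 i) • prA (V := V) i)))))

theorem FF_deriv (L : V → (V → ℂ) →L[ℝ] ℂ) (X : ES V n)
    (hΦ : ∀ x, HasStrictFDerivAt (fun p => Φ p x) (L x) X.1) :
    HasStrictFDerivAt (FF A U b Φ) (FD A U b L X) X := by
  unfold FF FD
  refine HasStrictFDerivAt.prodMk hasStrictFDerivAt_fst (HasStrictFDerivAt.prodMk ?_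
    (HasStrictFDerivAt.prodMk ?_ ?_))
  · rw [hasStrictFDerivAt_pi]
    intro x
    exact (prQ (V := V) (n := n) (x : V)).hasStrictFDerivAt.sub
      ((hΦ x).comp X (hasStrictFDerivAt_fst))
  · rw [hasStrictFDerivAt_pi]
    intro i
    rw [hasStrictFDerivAt_pi]
    intro x
    have h1 : HasStrictFDerivAt (fun X : ES V n => X.2.2.1 i) (prA (V := V) i) X :=
      (prA (V := V) i).hasStrictFDerivAt
    have h2 : HasStrictFDerivAt (fun X : ES V n => sg (b i) (X.1 x))
        ((sgL (b i)).comp (prP (V := V) (n := n) (x : V))) X := by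
      have := ((sgL (b i)).comp (prP (V := V) (n := n) (x : V))).hasStrictFDerivAt (x := X)
      convert this using 2
      rw [ContinuousLinearMap.comp_apply, sgL_apply, prP_apply]
    exact ((prQ (V := V) (n := n) (x : V)).hasStrictFDerivAt.sub (h1.mul h2)).sub
      (prT (V := V) i).hasStrictFDerivAt
  · rw [hasStrictFDerivAt_pi]
    intro i
    have h1 : HasStrictFDerivAt (fun X : ES V n => X.2.2.1 i) (prA (V := V) i) X :=
      (prA (V := V) i).hasStrictFDerivAt
    have h2 : HasStrictFDerivAt (fun X : ES V n => (starRingEnd ℂ) (X.2.2.1 i))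
        ((Complex.conjCLE : ℂ →L[ℝ] ℂ).comp (prA (V := V) i)) X := by
      exact ((Complex.conjCLE : ℂ →L[ℝ] ℂ).comp (prA (V := V) i)).hasStrictFDerivAt (x := X)
    exact (Complex.reCLM.hasStrictFDerivAt).comp X (h1.mul h2)

theorem FD_surj (L : V → (V → ℂ) →L[ℝ] ℂ) {p₀ q₀ : V → ℂ} {a₀ τ₀ : Fin n → ℂ}
    (hsurj : ∀ (G : V → ℂ) (Y : Fin n → V → ℂ), ∃ (u : V → ℂ) (ω : Fin n → ℝ)
      (t : Fin n → ℂ), (∀ x, x ∉ U → u x = G x) ∧
      ∀ i, ∀ x ∈ A i, u x - ω i * (I * q₀ x) - t i = Y i x)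
    (h2 : ∀ i, normSq (a₀ i) = 1 ∧ ∀ x ∈ A i, q₀ x = a₀ i * sg (b i) (p₀ x) + τ₀ i) :
    (FD A U b L (p₀, q₀, a₀, τ₀)).range = ⊤ := by
  rw [LinearMap.range_eq_top]
  rintro ⟨P, G, Y, r⟩
  obtain ⟨u, ω, t, hu, hut⟩ := hsurj
    (fun x => if h : x ∉ U then G ⟨x, h⟩ + L x P else 0)
    (fun i x => (if h : x ∈ A i then Y i ⟨x, h⟩ else 0) + a₀ i * sg (b i) (P x)
      + (r i / 2 : ℝ) * (q₀ x - τ₀ i))
  refine ⟨(P, u, fun i => ((r i / 2 : ℝ) + ω i * I) * a₀ i, fun i => t i + ω i * I * τ₀ i), ?_⟩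
  refine Prod.ext ?_ (Prod.ext ?_ (Prod.ext ?_ ?_))
  · rfl
  · funext x
    have := hu x x.2
    simp only [x.2, not_false_eq_true, dif_pos] at this
    change u x - L x P = G x
    rw [this]
    ring
  · funext i x
    have h3 := hut i x x.2
    have h4 := (h2 i).2 x x.2
    simp only [x.2, dif_pos] at h3
    change u x - (a₀ i * (sgL (b i)) (P x)
      + (sg (b i) (p₀ x)) * (((r i / 2 : ℝ) + ω i * I) * a₀ i)) - (t i + ω i * I * τ₀ i) = Y i x
    rw [sgL_apply]
    linear_combination h3 + (((r i / 2 : ℝ) : ℂ) + ω i * I) * h4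
  · funext i
    change (a₀ i * (starRingEnd ℂ) (((r i / 2 : ℝ) + ω i * I) * a₀ i)
      + (starRingEnd ℂ) (a₀ i) * ((((r i / 2 : ℝ) : ℂ) + ω i * I) * a₀ i)).re = r i
    have h5 := mul_conj_of_normSq (h2 i).1
    have : (a₀ i * (starRingEnd ℂ) (((r i / 2 : ℝ) + ω i * I) * a₀ i)
      + (starRingEnd ℂ) (a₀ i) * ((((r i / 2 : ℝ) : ℂ) + ω i * I) * a₀ i)) = ((r i : ℝ) : ℂ) := by
      rw [map_mul, map_add, map_mul, conj_ofReal, conj_ofReal, conj_I]
      push_cast
      linear_combination (r i : ℂ) * h5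
    rw [this, ofReal_re]

theorem pl_core (L : V → (V → ℂ) →L[ℝ] ℂ) {p₀ q₀ : V → ℂ} {a₀ τ₀ : Fin n → ℂ}
    (hΦ : ∀ x, HasStrictFDerivAt (fun p => Φ p x) (L x) p₀)
    (hsurj : ∀ (G : V → ℂ) (Y : Fin n → V → ℂ), ∃ (u : V → ℂ) (ω : Fin n → ℝ)
      (t : Fin n → ℂ), (∀ x, x ∉ U → u x = G x) ∧
      ∀ i, ∀ x ∈ A i, u x - ω i * (I * q₀ x) - t i = Y i x)
    (h1 : ∀ x, x ∉ U → q₀ x = Φ p₀ x)
    (h2 : ∀ i, normSq (a₀ i) = 1 ∧ ∀ x ∈ A i, q₀ x = a₀ i * sg (b i) (p₀ x) + τ₀ i)
    {N : Set (V → ℂ)} (hN : N ∈ 𝓝 q₀) :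
    ∀ᶠ p in 𝓝 p₀, ∃ q ∈ N, (∀ x, x ∉ U → q x = Φ p x) ∧ ∀ i, Cong p q (A i) := by
  have hF := FF_deriv A U b Φ L (p₀, q₀, a₀, τ₀) hΦ
  have hmap := hF.map_nhds_eq_of_surj (FD_surj A U b L hsurj h2)
  have hval : FF A U b Φ (p₀, q₀, a₀, τ₀) = (p₀, 0, 0, fun _ => 1) := by
    unfold FF
    refine Prod.ext rfl (Prod.ext ?_ (Prod.ext ?_ ?_))
    · funext x
      change q₀ x - Φ p₀ x = 0
      rw [h1 x x.2, sub_self]
    · funext i x
      change q₀ x - a₀ i * sg (b i) (p₀ x) - τ₀ i = 0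
      rw [(h2 i).2 x x.2]
      ring
    · funext i
      change (a₀ i * (starRingEnd ℂ) (a₀ i)).re = 1
      rw [mul_conj_of_normSq (h2 i).1, one_re]
  have hnb : (fun X : ES V n => X.2.1) ⁻¹' N ∈ 𝓝 ((p₀, q₀, a₀, τ₀) : ES V n) := by
    apply ContinuousAt.preimage_mem_nhds _ hN
    fun_prop
  have himg : FF A U b Φ '' ((fun X : ES V n => X.2.1) ⁻¹' N)
      ∈ 𝓝 ((p₀, 0, 0, fun _ => 1) : FS A U) := by
    rw [← hval, ← hmap]
    exact Filter.image_mem_map hnb
  have hc : ContinuousAt (fun p : V → ℂ => ((p, 0, 0, fun _ => 1) : FS A U)) p₀ := by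
    fun_prop
  filter_upwards [hc.preimage_mem_nhds himg] with p hp
  obtain ⟨⟨p', q, a, τ⟩, hq, hX⟩ := hp
  have e1 : p' = p := congrArg Prod.fst hX
  subst e1
  have e2 := congrArg (fun Z : FS A U => Z.2.1) hX
  have e3 := congrArg (fun Z : FS A U => Z.2.2.1) hX
  have e4 := congrArg (fun Z : FS A U => Z.2.2.2) hX
  refine ⟨q, hq, ?_, ?_⟩
  · intro x hx
    have := congrFun e2 ⟨x, hx⟩
    change q x - Φ p' x = 0 at this
    linear_combination this
  · intro i
    refine ⟨b i, a i, τ i, ?_, ?_⟩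
    · have := congrFun e4 i
      change (a i * (starRingEnd ℂ) (a i)).re = 1 at this
      rw [mul_conj, ofReal_re] at this
      exact this
    · intro x hx
      have := congrFun (congrFun e3 i) ⟨x, hx⟩
      change q x - a i * sg (b i) (p' x) - τ i = 0 at this
      linear_combination this

end core

/-- The ground motion: reflection of the placement in the line `p s, p t`, on `D`. -/
noncomputable def gm (D : Finset V) (s t : V) (p : V → ℂ) (x : V) : ℂ :=
  if x ∈ D then mir (p s) (p t) (p x) else p x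

/-- `q` is a congruent deformation of the body system, following the ground motion. -/
def Rel (M : Multiset (Finset V)) (U D : Finset V) (s t : V) (p q : V → ℂ) : Prop :=
  (∀ x, x ∉ U → q x = gm D s t p x) ∧ ∀ A ∈ M, Cong p q A

theorem gm_strict (D : Finset V) (s t : V) {p₀ : V → ℂ} (h : p₀ s ≠ p₀ t) (x : V) :
    ∃ L : (V → ℂ) →L[ℝ] ℂ, HasStrictFDerivAt (fun p => gm D s t p x) L p₀ := by
  by_cases hx : x ∈ D
  · have hne : (starRingEnd ℂ) (p₀ t - p₀ s) ≠ 0 := by
      intro h0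
      apply h
      have := congrArg (starRingEnd ℂ) h0
      rw [Complex.conj_conj, map_zero, sub_eq_zero] at this
      exact this.symm
    have hpr : ∀ y : V, ContDiffAt ℝ 1 (fun p : V → ℂ => p y) p₀ := fun y =>
      (contDiff_apply ℝ ℂ y).contDiffAt
    have hcj : ∀ f : (V → ℂ) → ℂ, ContDiffAt ℝ 1 f p₀ →
        ContDiffAt ℝ 1 (fun p => (starRingEnd ℂ) (f p)) p₀ := by
      intro f hf
      exact (Complex.conjCLE.contDiff.contDiffAt).comp p₀ hf
    have h1 : ContDiffAt ℝ 1 (fun p : V → ℂ => mir (p s) (p t) (p x)) p₀ := by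
      have e1 : ContDiffAt ℝ 1 (fun p : V → ℂ => p t - p s) p₀ := (hpr t).sub (hpr s)
      have e2 : ContDiffAt ℝ 1 (fun p : V → ℂ => (starRingEnd ℂ) (p t - p s)) p₀ := hcj _ e1
      have e3 : ContDiffAt ℝ 1 (fun p : V → ℂ => (starRingEnd ℂ) (p x - p s)) p₀ :=
        hcj _ ((hpr x).sub (hpr s))
      have e4 : ContDiffAt ℝ 1 (fun p : V → ℂ => ((starRingEnd ℂ) (p t - p s))⁻¹) p₀ :=
        e2.inv hne
      have e5 := ((e1.mul e4).mul e3).add (hpr s)
      refine e5.congr_of_eventuallyEq (Filter.Eventually.of_forall fun p => ?_)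
      simp only [mir, div_eq_mul_inv]
    refine ⟨fderiv ℝ (fun p : V → ℂ => mir (p s) (p t) (p x)) p₀, ?_⟩
    have h2 := h1.hasStrictFDerivAt (by norm_num)
    simpa only [gm, hx, if_true] using h2
  · refine ⟨ContinuousLinearMap.proj (R := ℝ) (φ := fun _ : V => ℂ) x, ?_⟩
    simp only [gm, hx, if_false]
    exact hasStrictFDerivAt_apply x p₀

theorem pl {M : Multiset (Finset V)} {U D : Finset V} {s t : V} (hsU : s ∉ U)
    (htU : t ∉ U) (hsD : s ∉ D) (htD : t ∉ D) (hT : Tight M U) {p₀ q₀ : V → ℂ}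
    (hRel : Rel M U D s t p₀ q₀) (hqst : q₀ s ≠ q₀ t) (hq : NC M q₀) (hR : Rigid M U q₀)
    {N : Set (V → ℂ)} (hN : N ∈ 𝓝 q₀) :
    ∀ᶠ p in 𝓝 p₀, ∃ q ∈ N, Rel M U D s t p q := by
  have hs : q₀ s = p₀ s := by
    rw [hRel.1 s hsU]
    simp [gm, hsD]
  have ht : q₀ t = p₀ t := by
    rw [hRel.1 t htU]
    simp [gm, htD]
  have hps : p₀ s ≠ p₀ t := by
    rw [← hs, ← ht]
    exact hqst
  choose L hL using gm_strict D s t hps
  have hc : ∀ i : Fin M.toList.length, ∃ (b : Bool) (a τ : ℂ), normSq a = 1 ∧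
      ∀ x ∈ M.toList.get i, q₀ x = a * sg b (p₀ x) + τ := by
    intro i
    apply hRel.2
    rw [← Multiset.mem_toList]
    exact List.get_mem _ _
  choose b a τ h2 using hc
  have := pl_core (fun i : Fin M.toList.length => M.toList.get i) U b (gm D s t) L hL
    (surj' hq hT hR) hRel.1 h2 hN
  filter_upwards [this] with p hp
  obtain ⟨q, hqN, h3, h4⟩ := hp
  refine ⟨q, hqN, h3, ?_⟩
  intro A hA
  rw [← Multiset.mem_toList] at hA
  obtain ⟨i, hi⟩ := List.get_of_mem hA
  rw [← hi]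
  exact h4 i

theorem Rel.symm {M : Multiset (Finset V)} {U D : Finset V} {s t : V}
    (hsU : s ∉ U) (htU : t ∉ U) (hsD : s ∉ D) (htD : t ∉ D) {p q : V → ℂ}
    (hRel : Rel M U D s t p q) (hp : p s ≠ p t) : Rel M U D s t q p := by
  have hs : q s = p s := by
    rw [hRel.1 s hsU]
    simp [gm, hsD]
  have ht : q t = p t := by
    rw [hRel.1 t htU]
    simp [gm, htD]
  refine ⟨fun x hx => ?_, fun A hA => (hRel.2 A hA).symm⟩
  have h1 := hRel.1 x hx
  by_cases hxD : x ∈ D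
  · simp only [gm, hxD, if_true] at h1 ⊢
    rw [hs, ht, h1, mir_mir hp]
  · simp only [gm, hxD, if_false] at h1 ⊢
    exact h1.symm

/-- Improvement of a pair. -/
theorem improve {M : Multiset (Finset V)} {U D : Finset V} {s t : V} (hst : s ≠ t)
    (hsU : s ∉ U) (htU : t ∉ U) (hsD : s ∉ D) (htD : t ∉ D) (hT : Tight M U)
    {pf : V → ℂ} (hpf : Fine M U pf) {p₀ q₀ : V → ℂ}
    (hRel : Rel M U D s t p₀ q₀) (hqst : q₀ s ≠ q₀ t) (hq : NC M q₀) (hR : Rigid M U q₀)
    {v : V} (hv : q₀ v ≠ p₀ v) :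
    ∃ p q : V → ℂ, Fine M U p ∧ Fine M U q ∧ Rel M U D s t p q ∧ q v ≠ p v := by
  -- separate `q₀ v` and `p₀ v`
  obtain ⟨O₁, O₂, hO₁, hO₂, hm₁, hm₂, hdis⟩ := t2_separation hv
  have hO₁' : {q : V → ℂ | q v ∈ O₁} ∈ 𝓝 q₀ :=
    (continuous_apply v).continuousAt.preimage_mem_nhds (hO₁.mem_nhds hm₁)
  have hO₂' : {p : V → ℂ | p v ∈ O₂} ∈ 𝓝 p₀ :=
    (continuous_apply v).continuousAt.preimage_mem_nhds (hO₂.mem_nhds hm₂)
  have hne : {q : V → ℂ | q s ≠ q t} ∈ 𝓝 q₀ := by
    have ho : IsOpen {q : V → ℂ | q s ≠ q t} :=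
      isOpen_ne_fun (continuous_apply s) (continuous_apply t)
    exact ho.mem_nhds hqst
  have hN := Filter.inter_mem (Filter.inter_mem (Filter.inter_mem hO₁' hne) (nc_nhds hq))
    (rigid_nhds hq hR)
  have h1 := pl hsU htU hsD htD hT hRel hqst hq hR hN
  obtain ⟨p₁, ⟨⟨q₁, hq₁, hRel₁⟩, hp₁O⟩, hp₁⟩ := exists_generic_near p₀
    (Filter.inter_mem h1 hO₂')
  obtain ⟨⟨⟨hq₁O, hq₁st⟩, hq₁nc⟩, hq₁R⟩ := hq₁
  have hp₁F : Fine M U p₁ := fine_generic hT.1 hpf hp₁
  have hRel₁' := hRel₁.symm hsU htU hsD htD (hp₁F.1.1 s t hst)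
  have hO₁'' : {q : V → ℂ | q v ∈ O₁} ∈ 𝓝 q₁ :=
    (continuous_apply v).continuousAt.preimage_mem_nhds (hO₁.mem_nhds hq₁O)
  have hO₂'' : {p : V → ℂ | p v ∈ O₂} ∈ 𝓝 p₁ :=
    (continuous_apply v).continuousAt.preimage_mem_nhds (hO₂.mem_nhds hp₁O)
  have h2 := pl hsU htU hsD htD hT hRel₁' (hp₁F.1.1 s t hst) (nc_of_inj hT.1 hp₁F.1.1)
    hp₁F.2 (Filter.inter_mem hO₂'' (fine_nhds hT.1 hp₁F))
  obtain ⟨q₂, ⟨⟨p₂, hp₂, hRel₂⟩, hq₂O⟩, hq₂⟩ := exists_generic_near q₁
    (Filter.inter_mem h2 hO₁'')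
  have hq₂F : Fine M U q₂ := fine_generic hT.1 hpf hq₂
  refine ⟨p₂, q₂, hp₂.2, hq₂F, hRel₂.symm hsU htU hsD htD (hq₂F.1.1 s t hst), ?_⟩
  intro h0
  have h3 : q₂ v ∈ O₁ := hq₂O
  have h4 : p₂ v ∈ O₂ := hp₂.1
  rw [h0] at h3
  exact Set.disjoint_left.mp hdis h3 h4

end Pool.Agent.Lib.MP_699f60_co
end

section

set_option autoImplicit false

namespace Pool.Agent.Lib.MP_699f60_co

open Complex Function

variable {V : Type*} [Fintype V] [DecidableEq V]

/-- There is a good pair of placements moving `v`. -/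
def Good (M : Multiset (Finset V)) (U D : Finset V) (s t v : V) : Prop :=
  ∃ p q : V → ℂ, Fine M U p ∧ Fine M U q ∧ Rel M U D s t p q ∧ q v ≠ p v

theorem cong_update {p q : V → ℂ} {B : Finset V} {w : V} (hw : w ∉ B) (h : Cong p q B)
    (z z' : ℂ) : Cong (update p w z) (update q w z') B := by
  apply h.congr
  · intro x hx
    have : x ≠ w := fun e => hw (e ▸ hx)
    rw [update_of_ne this]
  · intro x hx
    have : x ≠ w := fun e => hw (e ▸ hx)
    rw [update_of_ne this]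

theorem nc_update {q : V → ℂ} {R : Multiset (Finset V)} {w : V} (hR : ∀ B ∈ R, w ∉ B)
    (h : NC R q) (z : ℂ) : NC R (update q w z) := by
  intro B hB
  obtain ⟨x, hx, y, hy, hxy⟩ := h B hB
  have h1 : x ≠ w := fun e => hR B hB (e ▸ hx)
  have h2 : y ≠ w := fun e => hR B hB (e ▸ hy)
  exact ⟨x, hx, y, hy, by rwa [update_of_ne h1, update_of_ne h2]⟩

theorem rel_off {U D : Finset V} {s t w : V} {p q : V → ℂ} {z z' : ℂ} (hwU : w ∈ U)
    (hsU : s ∉ U) (htU : t ∉ U)
    (h : ∀ x, x ∉ U.erase w → q x = gm D s t p x) :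
    ∀ x, x ∉ U → update q w z' x = gm D s t (update p w z) x := by
  intro x hx
  have hxw : x ≠ w := fun e => hx (e ▸ hwU)
  have hsw : s ≠ w := fun e => hsU (e ▸ hwU)
  have htw : t ≠ w := fun e => htU (e ▸ hwU)
  rw [update_of_ne hxw, h x (fun h' => hx (Finset.mem_of_mem_erase h'))]
  simp only [gm, update_of_ne hxw, update_of_ne hsw, update_of_ne htw]

theorem tight_cons {A : Finset V} {R : Multiset (Finset V)} {U : Finset V} :
    Tight (A ::ₘ R) U ↔ 2 ≤ A.card ∧ (∀ B ∈ R, 2 ≤ B.card) ∧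
      (2 * (A.card : ℤ) - 3) + (R.map (fun A => (2 * (A.card : ℤ) - 3))).sum
        = 2 * U.card := by
  unfold Tight
  rw [Multiset.forall_mem_cons, Multiset.map_cons, Multiset.sum_cons, and_assoc]

section ctx

variable {R : Multiset (Finset V)} {U D A : Finset V} {s t v w x y z b a a' : V}

theorem good0 (hst : s ≠ t) (hsU : s ∉ U) (htU : t ∉ U) (hsD : s ∉ D) (htD : t ∉ D)
    (hT : Tight (A ::ₘ R) U) {pf : V → ℂ} (hpf : Fine (A ::ₘ R) U pf)
    (hR : ∀ B ∈ R, w ∉ B) (hwU : w ∈ U) (hwA : w ∈ A) (h3 : 3 ≤ A.card) (hvw : v ≠ w)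
    (IH : Good (A.erase w ::ₘ R) (U.erase w) D s t v) : Good (A ::ₘ R) U D s t v := by
  obtain ⟨p, q, hp, hq, hRel, hv⟩ := IH
  have hsw : s ≠ w := fun e => hsU (e ▸ hwU)
  have htw : t ≠ w := fun e => htU (e ▸ hwU)
  obtain ⟨hC, hRC⟩ := Multiset.forall_mem_cons.mp hRel.2
  obtain ⟨β, α, τ, hα, hCA⟩ := hC
  have hcard : 2 ≤ (A.erase w).card := by
    rw [Finset.card_erase_of_mem hwA]; omega
  obtain ⟨x, hx, y, hy, hxy⟩ := Finset.one_lt_card.mp hcard
  have hxw : x ≠ w := (Finset.mem_erase.mp hx).1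
  have hyw : y ≠ w := (Finset.mem_erase.mp hy).1
  have hxA : x ∈ A := (Finset.mem_erase.mp hx).2
  have hyA : y ∈ A := (Finset.mem_erase.mp hy).2
  have hT2 := tight_cons.mp hT
  have hNCR : NC R q := nc_of_inj hT2.2.1 hq.1.1
  apply improve hst hsU htU hsD htD hT hpf (p₀ := p)
    (q₀ := update q w (α * sg β (p w) + τ))
  · refine ⟨?_, ?_⟩
    · have := rel_off (z := p w) (z' := α * sg β (p w) + τ) hwU hsU htU hRel.1
      rwa [update_eq_self] at this
    · rw [Multiset.forall_mem_cons]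
      constructor
      · refine ⟨β, α, τ, hα, fun x hx => ?_⟩
        by_cases hxw : x = w
        · subst hxw; simp
        · rw [update_of_ne hxw]
          exact hCA x (Finset.mem_erase.mpr ⟨hxw, hx⟩)
      · intro B hB
        have := cong_update (hR B hB) (hRC B hB) (p w) (α * sg β (p w) + τ)
        rwa [update_eq_self] at this
  · rw [update_of_ne hsw, update_of_ne htw]
    exact hq.1.1 s t hst
  · unfold NC
    rw [Multiset.forall_mem_cons]
    refine ⟨⟨x, hxA, y, hyA, ?_⟩, nc_update hR hNCR _⟩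
    rw [update_of_ne hxw, update_of_ne hyw]
    exact hq.1.1 x y hxy
  · exact rigid_lift0 hR hwA ⟨x, hxA, y, hyA, hxw, hyw, hq.1.1 x y hxy⟩ hq.2
  · rw [update_of_ne hvw]
    exact hv

theorem exists_type1 {X Y X' Y' : ℂ} (h : X ≠ Y) (h' : X' ≠ Y') :
    ∃ z z' : ℂ, normSq (z' - X') = normSq (z - X) ∧ normSq (z' - Y') = normSq (z - Y) ∧
      crs (z' - X') (z' - Y') ≠ 0 ∧ z ≠ X ∧ z ≠ Y := by
  have hN : 0 < normSq (Y - X) := normSq_pos.mpr (sub_ne_zero.mpr (Ne.symm h))
  have hN' : 0 < normSq (Y' - X') := normSq_pos.mpr (sub_ne_zero.mpr (Ne.symm h'))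
  obtain ⟨N, hNe⟩ : ∃ N, N = normSq (Y - X) := ⟨_, rfl⟩
  obtain ⟨N', hNe'⟩ : ∃ N', N' = normSq (Y' - X') := ⟨_, rfl⟩
  rw [← hNe] at hN
  rw [← hNe'] at hN'
  have key : ∀ (X Y : ℂ) (l : ℝ), normSq ((X + Y) / 2 + l * (I * (Y - X)) - X)
      = normSq (Y - X) * (1 / 4 + l ^ 2) ∧ normSq ((X + Y) / 2 + l * (I * (Y - X)) - Y)
      = normSq (Y - X) * (1 / 4 + l ^ 2) ∧
      crs ((X + Y) / 2 + l * (I * (Y - X)) - X) ((X + Y) / 2 + l * (I * (Y - X)) - Y)
        = normSq (Y - X) * l := by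
    intro X Y l
    have e1 : (X + Y) / 2 + l * (I * (Y - X)) - X = (Y - X) * ⟨1 / 2, l⟩ := by
      apply Complex.ext
      · simp; ring
      · simp; ring
    have e2 : (X + Y) / 2 + l * (I * (Y - X)) - Y = (Y - X) * ⟨-1 / 2, l⟩ := by
      apply Complex.ext
      · simp; ring
      · simp; ring
    rw [e1, e2]
    refine ⟨?_, ?_, ?_⟩
    · rw [normSq_mul]; simp only [normSq_apply]; ring
    · rw [normSq_mul]; simp only [normSq_apply]; ring
    · simp only [crs, normSq_apply, mul_re, mul_im]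
      ring
  have hl : 0 < 3 / 4 + N' / N := by positivity
  have hl' : 0 < 3 / 4 + N / N' := by positivity
  obtain ⟨k1, k2, k3⟩ := key X Y (Real.sqrt (3 / 4 + N' / N))
  obtain ⟨k1', k2', k3'⟩ := key X' Y' (Real.sqrt (3 / 4 + N / N'))
  rw [Real.sq_sqrt hl.le, ← hNe] at k1 k2
  rw [Real.sq_sqrt hl'.le, ← hNe'] at k1' k2'
  have e : N * (1 / 4 + (3 / 4 + N' / N)) = N + N' := by field_simp; ring
  have e' : N' * (1 / 4 + (3 / 4 + N / N')) = N + N' := by field_simp; ring
  rw [e] at k1 k2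
  rw [e'] at k1' k2'
  refine ⟨_, _, by rw [k1, k1'], by rw [k2, k2'], ?_, ?_, ?_⟩
  · rw [k3', ← hNe']
    have := Real.sqrt_pos.mpr hl'
    positivity
  · intro h0
    rw [h0, sub_self, normSq_zero] at k1
    linarith
  · intro h0
    rw [h0, sub_self, normSq_zero] at k2
    linarith

theorem good1 (hst : s ≠ t) (hsU : s ∉ U) (htU : t ∉ U) (hsD : s ∉ D) (htD : t ∉ D)
    (hT : Tight ({w, x} ::ₘ {w, y} ::ₘ R) U) {pf : V → ℂ}
    (hpf : Fine ({w, x} ::ₘ {w, y} ::ₘ R) U pf)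
    (hR : ∀ B ∈ R, w ∉ B) (hwU : w ∈ U) (hwx : w ≠ x) (hwy : w ≠ y) (hxy : x ≠ y)
    (hvw : v ≠ w)
    (IH : Good R (U.erase w) D s t v) : Good ({w, x} ::ₘ {w, y} ::ₘ R) U D s t v := by
  obtain ⟨p, q, hp, hq, hRel, hv⟩ := IH
  have hsw : s ≠ w := fun e => hsU (e ▸ hwU)
  have htw : t ≠ w := fun e => htU (e ▸ hwU)
  obtain ⟨z, z', hz1, hz2, hz3, hzx, hzy⟩ := exists_type1 (hp.1.1 x y hxy) (hq.1.1 x y hxy)
  have hT2 := tight_cons.mp hT
  have hNCR : NC R q := nc_of_inj
    (fun B hB => hT2.2.1 B (Multiset.mem_cons_of_mem hB)) hq.1.1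
  have hzx' : z' ≠ q x := by
    intro e; apply hz3; rw [e]; simp [crs]
  have hzy' : z' ≠ q y := by
    intro e; apply hz3; rw [e]; simp [crs]
  apply improve hst hsU htU hsD htD hT hpf (p₀ := update p w z) (q₀ := update q w z')
  · refine ⟨rel_off hwU hsU htU hRel.1, ?_⟩
    rw [Multiset.forall_mem_cons, Multiset.forall_mem_cons]
    refine ⟨?_, ?_, fun B hB => cong_update (hR B hB) (hRel.2 B hB) _ _⟩
    · apply cong_pair
      · rw [update_self, update_of_ne (Ne.symm hwx)]; exact hzx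
      · rw [update_self, update_self, update_of_ne (Ne.symm hwx), update_of_ne (Ne.symm hwx)]
        exact hz1
    · apply cong_pair
      · rw [update_self, update_of_ne (Ne.symm hwy)]; exact hzy
      · rw [update_self, update_self, update_of_ne (Ne.symm hwy), update_of_ne (Ne.symm hwy)]
        exact hz2
  · rw [update_of_ne hsw, update_of_ne htw]
    exact hq.1.1 s t hst
  · unfold NC
    rw [Multiset.forall_mem_cons, Multiset.forall_mem_cons]
    refine ⟨⟨w, by simp, x, by simp, ?_⟩, ⟨w, by simp, y, by simp, ?_⟩, nc_update hR hNCR _⟩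
    · rw [update_self, update_of_ne (Ne.symm hwx)]; exact hzx'
    · rw [update_self, update_of_ne (Ne.symm hwy)]; exact hzy'
  · exact rigid_lift1 hR hwx hwy hz3 hq.2
  · rw [update_of_ne hvw, update_of_ne hvw]
    exact hv

theorem good2 (hst : s ≠ t) (hsU : s ∉ U) (htU : t ∉ U) (hsD : s ∉ D) (htD : t ∉ D)
    (hT : Tight (A ::ₘ {w, b} ::ₘ R) U) {pf : V → ℂ}
    (hpf : Fine (A ::ₘ {w, b} ::ₘ R) U pf)
    (hR : ∀ B ∈ R, w ∉ B) (hwU : w ∈ U) (hwA : w ∈ A) (hwb : w ≠ b)
    (ha : a ∈ A.erase w) (ha' : a' ∈ A.erase w) (haa : a ≠ a') (hab : a ≠ b)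
    (hvw : v ≠ w)
    (IH : Good ({a, b} ::ₘ A.erase w ::ₘ R) (U.erase w) D s t v) :
    Good (A ::ₘ {w, b} ::ₘ R) U D s t v := by
  obtain ⟨p, q, hp, hq, hRel, hv⟩ := IH
  have hsw : s ≠ w := fun e => hsU (e ▸ hwU)
  have htw : t ≠ w := fun e => htU (e ▸ hwU)
  have haw : a ≠ w := (Finset.mem_erase.mp ha).1
  have haA : a ∈ A := (Finset.mem_erase.mp ha).2
  have haw' : a' ≠ w := (Finset.mem_erase.mp ha').1
  have haA' : a' ∈ A := (Finset.mem_erase.mp ha').2
  have hT2 := tight_cons.mp hT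
  have hNCR : NC R q := nc_of_inj
    (fun B hB => hT2.2.1 B (Multiset.mem_cons_of_mem hB)) hq.1.1
  have hRel2 := hRel.2
  rw [Multiset.forall_mem_cons, Multiset.forall_mem_cons] at hRel2
  obtain ⟨hCab, ⟨β, α, τ, hα, hCA⟩, hRC⟩ := hRel2
  have hqab : q a ≠ q b := hq.1.1 a b hab
  have hpab : p a ≠ p b := hp.1.1 a b hab
  apply improve hst hsU htU hsD htD hT hpf (p₀ := update p w (p a))
    (q₀ := update q w (q a))
  · refine ⟨rel_off hwU hsU htU hRel.1, ?_⟩
    rw [Multiset.forall_mem_cons, Multiset.forall_mem_cons]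
    refine ⟨?_, ?_, fun B hB => cong_update (hR B hB) (hRC B hB) _ _⟩
    · refine ⟨β, α, τ, hα, fun x hx => ?_⟩
      by_cases hxw : x = w
      · subst hxw
        rw [update_self, update_self]
        exact hCA a ha
      · rw [update_of_ne hxw, update_of_ne hxw]
        exact hCA x (Finset.mem_erase.mpr ⟨hxw, hx⟩)
    · apply cong_pair
      · rw [update_self, update_of_ne (Ne.symm hwb)]; exact hpab
      · rw [update_self, update_self, update_of_ne (Ne.symm hwb), update_of_ne (Ne.symm hwb)]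
        exact hCab.normSq_sub (by simp) (by simp)
  · rw [update_of_ne hsw, update_of_ne htw]
    exact hq.1.1 s t hst
  · unfold NC
    rw [Multiset.forall_mem_cons, Multiset.forall_mem_cons]
    refine ⟨⟨a, haA, a', haA', ?_⟩, ⟨w, by simp, b, by simp, ?_⟩, nc_update hR hNCR _⟩
    · rw [update_of_ne haw, update_of_ne haw']; exact hq.1.1 a a' haa
    · rw [update_self, update_of_ne (Ne.symm hwb)]; exact hqab
  · exact rigid_lift2 hR hwA hwb ha ha' (hq.1.1 a a' haa) hqab hq.2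
  · rw [update_of_ne hvw, update_of_ne hvw]
    exact hv

theorem good3 (hst : s ≠ t) (hsU : s ∉ U) (htU : t ∉ U) (hsD : s ∉ D) (htD : t ∉ D)
    (hT : Tight ({w, x} ::ₘ {w, y} ::ₘ {w, z} ::ₘ R) U) {pf : V → ℂ}
    (hpf : Fine ({w, x} ::ₘ {w, y} ::ₘ {w, z} ::ₘ R) U pf)
    (hR : ∀ B ∈ R, w ∉ B) (hwU : w ∈ U) (hwx : w ≠ x) (hwy : w ≠ y) (hwz : w ≠ z)
    (hxy : x ≠ y) (hyz : y ≠ z) (hxz : x ≠ z) (hvw : v ≠ w)
    (IH : Good ({x, y} ::ₘ R) (U.erase w) D s t v) :
    Good ({w, x} ::ₘ {w, y} ::ₘ {w, z} ::ₘ R) U D s t v := by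
  obtain ⟨p, q, hp, hq, hRel, hv⟩ := IH
  have hsw : s ≠ w := fun e => hsU (e ▸ hwU)
  have htw : t ≠ w := fun e => htU (e ▸ hwU)
  have hT2 := hT
  simp only [tight_cons, Multiset.forall_mem_cons, Multiset.map_cons, Multiset.sum_cons] at hT2
  obtain ⟨-, ⟨-, -, hcR⟩, hsum⟩ := hT2
  have cxy : ({w, x} : Finset V).card = 2 := Finset.card_pair hwx
  have cwy : ({w, y} : Finset V).card = 2 := Finset.card_pair hwy
  have cwz : ({w, z} : Finset V).card = 2 := Finset.card_pair hwz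
  rw [cxy, cwy, cwz] at hsum
  have hNCR : NC R q := nc_of_inj hcR hq.1.1
  have hRel2 := hRel.2
  rw [Multiset.forall_mem_cons] at hRel2
  obtain ⟨hCxy, hRC⟩ := hRel2
  -- a nontrivial motion of the rest at `q`
  have hnr : ¬ Rigid R (U.erase w) q := by
    intro h
    have := dim_le hcR hq.1.1 h
    have hc : ((U.erase w).card : ℤ) + 1 = U.card := by
      exact_mod_cast Finset.card_erase_add_one hwU
    push_cast at hsum
    linarith
  unfold Rigid at hnr
  push Not at hnr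
  obtain ⟨u₁, hu₁, hR₁, x₁, hx₁⟩ := hnr
  have hqxy : q x ≠ q y := hq.1.1 x y hxy
  have hstr : dot (q y - q x) (u₁ y - u₁ x) ≠ 0 := by
    intro h0
    apply hx₁
    apply hq.2 u₁ hu₁
    rw [Multiset.forall_mem_cons]
    refine ⟨isRot_pair hqxy ?_, hR₁⟩
    have : dot (q x - q y) (u₁ x - u₁ y) = dot (q y - q x) (u₁ y - u₁ x) := by
      simp only [dot, sub_re, sub_im]; ring
    rw [this, h0]
  have hqc : crs (q y - q x) (q z - q x) ≠ 0 := hq.1.2 x y z hxy hyz hxz
  have hpc : crs (p y - p x) (p z - p x) ≠ 0 := hp.1.2 x y z hxy hyz hxz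
  obtain ⟨pw, qw, hDD, hl1, hl2, hl3⟩ := exists_attach (a := u₁ x) (b := u₁ y) (c := u₁ z)
    hpc hqc (hCxy.normSq_sub (by simp) (by simp)) hstr
  have hq1 : qw ≠ q x := by
    intro e; apply hDD; rw [e]
    simp only [DD, crs, dot, sub_re, sub_im]; ring
  have hq2 : qw ≠ q y := by
    intro e; apply hDD; rw [e]
    simp only [DD, crs, dot, sub_re, sub_im]; ring
  have hq3 : qw ≠ q z := by
    intro e; apply hDD; rw [e]
    simp only [DD, crs, dot, sub_re, sub_im]; ring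
  have hpos : ∀ {a b c d : ℂ}, a ≠ b → normSq (a - b) = normSq (c - d) → c ≠ d := by
    intro a b c d hab h e
    rw [e, sub_self, normSq_zero] at h
    exact hab (sub_eq_zero.mp (normSq_eq_zero.mp h))
  apply improve hst hsU htU hsD htD hT hpf (p₀ := update p w pw) (q₀ := update q w qw)
  · refine ⟨rel_off hwU hsU htU hRel.1, ?_⟩
    rw [Multiset.forall_mem_cons, Multiset.forall_mem_cons, Multiset.forall_mem_cons]
    refine ⟨?_, ?_, ?_, fun B hB => cong_update (hR B hB) (hRC B hB) _ _⟩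
    · apply cong_pair
      · rw [update_self, update_of_ne (Ne.symm hwx)]; exact hpos hq1 hl1
      · rw [update_self, update_self, update_of_ne (Ne.symm hwx), update_of_ne (Ne.symm hwx)]
        exact hl1
    · apply cong_pair
      · rw [update_self, update_of_ne (Ne.symm hwy)]; exact hpos hq2 hl2
      · rw [update_self, update_self, update_of_ne (Ne.symm hwy), update_of_ne (Ne.symm hwy)]
        exact hl2
    · apply cong_pair
      · rw [update_self, update_of_ne (Ne.symm hwz)]; exact hpos hq3 hl3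
      · rw [update_self, update_self, update_of_ne (Ne.symm hwz), update_of_ne (Ne.symm hwz)]
        exact hl3
  · rw [update_of_ne hsw, update_of_ne htw]
    exact hq.1.1 s t hst
  · unfold NC
    rw [Multiset.forall_mem_cons, Multiset.forall_mem_cons, Multiset.forall_mem_cons]
    refine ⟨⟨w, by simp, x, by simp, ?_⟩, ⟨w, by simp, y, by simp, ?_⟩,
      ⟨w, by simp, z, by simp, ?_⟩, nc_update hR hNCR _⟩
    · rw [update_self, update_of_ne (Ne.symm hwx)]; exact hq1
    · rw [update_self, update_of_ne (Ne.symm hwy)]; exact hq2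
    · rw [update_self, update_of_ne (Ne.symm hwz)]; exact hq3
  · exact rigid_lift3 hR hwx hwy hwz hqxy hq.2 hu₁ hR₁ hDD
  · rw [update_of_ne hvw, update_of_ne hvw]
    exact hv

end ctx

end Pool.Agent.Lib.MP_699f60_co
end
end
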