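import Mathlib

namespace Pool.Agent.Lib.MP_699f60_co

variable {V : Type*}

/-- `PL G A B l`: the list `l` is a walk of `G` starting in `A` and ending in `B`. -/
def PL (G : SimpleGraph V) (A B : Set V) (l : List V) : Prop :=
  l.IsChain G.Adj ∧ (∃ a ∈ A, l.head? = some a) ∧ (∃ b ∈ B, l.getLast? = some b)

/-- `Sep G A B S`: every walk from `A` to `B` meets `S`. -/
def Sep (G : SimpleGraph V) (A B : Set V) (S : Set V) : Prop :=
  ∀ l : List V, PL G A B l → ∃ x ∈ l, x ∈ S

/-- Vertices joined to `A` by a walk avoiding `S`. -/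
def Rch (G : SimpleGraph V) (A S : Set V) (z : V) : Prop :=
  ∃ l : List V, PL G A {z} l ∧ ∀ w ∈ l, w ∉ S

theorem PL.reverse {G : SimpleGraph V} {A B : Set V} {l : List V} (h : PL G A B l) :
    PL G B A l.reverse := by
  obtain ⟨h1, h2, h3⟩ := h
  refine ⟨?_, ?_, ?_⟩
  · rw [List.isChain_reverse]
    exact h1.imp (fun a b hab => hab.symm)
  · simpa using h3
  · simpa using h2

theorem Sep.symm {G : SimpleGraph V} {A B S : Set V} (h : Sep G A B S) : Sep G B A S := by
  intro l hl
  obtain ⟨x, hx, hxS⟩ := h _ hl.reverse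
  exact ⟨x, by simpa using hx, hxS⟩

theorem first_split (D : V → Prop) (l : List V) (h : ∃ z ∈ l, D z) :
    ∃ l1 z l2, l = l1 ++ z :: l2 ∧ D z ∧ ∀ w ∈ l1, ¬ D w := by
  classical
  induction l with
  | nil => simp at h
  | cons a t ih =>
    by_cases ha : D a
    · exact ⟨[], a, t, rfl, ha, by simp⟩
    · obtain ⟨z, hz, hD⟩ := h
      have hz' : z ∈ t := by
        rcases List.mem_cons.1 hz with rfl | h
        · exact absurd hD ha
        · exact h
      obtain ⟨l1, z, l2, h1, h2, h3⟩ := ih ⟨z, hz', hD⟩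
      refine ⟨a :: l1, z, l2, by simp [h1], h2, ?_⟩
      intro w hw
      rcases List.mem_cons.1 hw with rfl | h
      · exact ha
      · exact h3 w h

theorem crossing {R : V → V → Prop} (D : V → Prop) : ∀ (l : List V) (_ : l.IsChain R)
    (a : V) (_ : l.head? = some a) (_ : D a) (b : V) (_ : l.getLast? = some b) (_ : ¬ D b),
    ∃ x ∈ l, ∃ y ∈ l, R x y ∧ D x ∧ ¬ D y := by
  intro l
  induction l with
  | nil => intro _ a h; simp at h
  | cons c t ih =>
    intro hc a ha hDa b hb hDb
    have hca : c = a := by simpa using ha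
    subst hca
    cases t with
    | nil =>
      have : c = b := by simpa using hb
      subst this
      exact absurd hDa hDb
    | cons d t' =>
      rw [List.isChain_cons_cons] at hc
      by_cases hd : D d
      · obtain ⟨x, hx, y, hy, h⟩ := ih hc.2 d (by simp) hd b (by simpa using hb) hDb
        exact ⟨x, List.mem_cons_of_mem _ hx, y, List.mem_cons_of_mem _ hy, h⟩
      · exact ⟨c, by simp, d, by simp, hc.1, hDa, hd⟩

/-- Cutting a walk at the first vertex of a set. -/
theorem PL.cut {G : SimpleGraph V} {A B : Set V} {l1 l2 : List V} {z : V}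
    (h : PL G A B (l1 ++ z :: l2)) : PL G A {z} (l1 ++ [z]) := by
  obtain ⟨h1, h2, h3⟩ := h
  refine ⟨?_, ?_, ?_⟩
  · have : l1 ++ z :: l2 = (l1 ++ [z]) ++ l2 := by simp
    rw [this] at h1
    exact h1.left_of_append
  · obtain ⟨a, ha, h⟩ := h2
    refine ⟨a, ha, ?_⟩
    cases l1 with
    | nil => simpa using h
    | cons c t => simpa using h
  · exact ⟨z, rfl, by simp⟩

theorem PL.mono {G : SimpleGraph V} {A B A' B' : Set V} {l : List V} (h : PL G A B l)
    (hA : A ⊆ A') (hB : B ⊆ B') : PL G A' B' l :=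
  ⟨h.1, h.2.1.imp (fun _ h => ⟨hA h.1, h.2⟩), h.2.2.imp (fun _ h => ⟨hB h.1, h.2⟩)⟩

theorem chain_avoid {G G' : SimpleGraph V} {x y : V}
    (hG : ∀ a b, G.Adj a b → a ≠ x → a ≠ y → G'.Adj a b) (l : List V) (z : V)
    (h : (l ++ [z]).IsChain G.Adj) (hl : ∀ w ∈ l, w ≠ x ∧ w ≠ y) :
    (l ++ [z]).IsChain G'.Adj := by
  induction l with
  | nil => simp
  | cons a t ih =>
    rw [List.cons_append, List.isChain_cons] at h ⊢
    refine ⟨?_, ih h.2 (fun w hw => hl w (List.mem_cons_of_mem _ hw))⟩
    intro b hb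
    exact hG a b (h.1 b hb) (hl a (by simp)).1 (hl a (by simp)).2

/-- The transfer lemma. -/
theorem sep_transfer {G G' : SimpleGraph V} {x y : V} {A B S T : Set V}
    (hG : ∀ a b, G.Adj a b → a ≠ x → a ≠ y → G'.Adj a b)
    (hy : ¬ Rch G' A S y) (hS : Sep G' A B S) (hT : Sep G' A (insert x S) T) :
    Sep G A B T := by
  intro l hl
  by_cases hhit : ∃ z ∈ l, z ∈ S ∨ z = x ∨ z = y
  · obtain ⟨l1, z, l2, rfl, hz, hl1⟩ := first_split _ l hhit
    have hcut := hl.cut
    have hch : (l1 ++ [z]).IsChain G'.Adj := by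
      apply chain_avoid hG _ _ hcut.1
      intro w hw
      have := hl1 w hw
      push Not at this
      exact this.2
    have hPL : PL G' A {z} (l1 ++ [z]) := ⟨hch, hcut.2⟩
    have hzP : z ∈ insert x S := by
      by_contra hcon
      have hzx : z ≠ x := fun h => hcon (by simp [h])
      have hzS : z ∉ S := fun h => hcon (by simp [h])
      have hzy : z = y := by tauto
      apply hy
      refine ⟨l1 ++ [z], hzy ▸ hPL, ?_⟩
      intro w hw
      rcases List.mem_append.1 hw with h | h
      · exact fun hwS => hl1 w h (Or.inl hwS)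
      · have : w = z := by simpa using h
        rw [this]; exact hzS
    have := hT (l1 ++ [z]) (hPL.mono subset_rfl (by simpa using hzP))
    obtain ⟨w, hw, hwT⟩ := this
    refine ⟨w, ?_, hwT⟩
    rcases List.mem_append.1 hw with h | h
    · simp [h]
    · have : w = z := by simpa using h
      simp [this]
  · push Not at hhit
    exfalso
    obtain ⟨b, hb, hbl⟩ := hl.2.2
    obtain ⟨l1, rfl⟩ : ∃ l1, l = l1 ++ [b] := by
      rw [List.getLast?_eq_some_iff] at hbl
      exact hbl
    have hch : (l1 ++ [b]).IsChain G'.Adj := by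
      apply chain_avoid hG _ _ hl.1
      intro w hw
      exact (hhit w (by simp [hw])).2
    obtain ⟨z, hz, hzS⟩ := hS (l1 ++ [b]) ⟨hch, hl.2⟩
    exact (hhit z hz).1 hzS

theorem glue {G : SimpleGraph V} {A B : Set V} {z : V} {l1 l2 : List V}
    (h1 : PL G A {z} l1) (h2 : PL G {z} B l2) : PL G A B (l1 ++ l2.tail) := by
  obtain ⟨c1, ⟨a, ha, ha1⟩, ⟨z1, hz1, hz1'⟩⟩ := h1
  obtain ⟨c2, ⟨z2, hz2, hz2'⟩, ⟨b, hb, hb1⟩⟩ := h2
  rw [Set.mem_singleton_iff] at hz1 hz2
  subst hz1; subst hz2
  cases l2 with
  | nil => simp at hz2'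
  | cons c t =>
    have hc : c = z2 := by simpa using hz2'
    subst hc
    obtain ⟨l1', rfl⟩ : ∃ l1', l1 = l1' ++ [c] := by
      rw [List.getLast?_eq_some_iff] at hz1'
      exact hz1'
    refine ⟨?_, ⟨a, ha, ?_⟩, ⟨b, hb, ?_⟩⟩
    · simp only [List.tail_cons]
      rw [List.append_assoc]
      exact List.isChain_split.2 ⟨c1, c2⟩
    · cases l1' with
      | nil => simpa using ha1
      | cons d s => simpa using ha1
    · cases t with
      | nil => simpa using hb1
      | cons d s => simpa using hb1

theorem glue_edge {G : SimpleGraph V} {A B : Set V} {x y : V} {l1 l2 : List V}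
    (hxy : G.Adj x y)
    (h1 : PL G A {x} l1) (h2 : PL G {y} B l2) : PL G A B (l1 ++ l2) := by
  obtain ⟨c1, ⟨a, ha, ha1⟩, ⟨z1, hz1, hz1'⟩⟩ := h1
  obtain ⟨c2, ⟨z2, hz2, hz2'⟩, ⟨b, hb, hb1⟩⟩ := h2
  rw [Set.mem_singleton_iff] at hz1 hz2
  subst hz1; subst hz2
  refine ⟨?_, ⟨a, ha, ?_⟩, ⟨b, hb, ?_⟩⟩
  · rw [List.isChain_append]
    refine ⟨c1, c2, ?_⟩
    intro u hu v hv
    rw [hz1'] at hu
    rw [hz2'] at hv
    simp only [Option.mem_def, Option.some.injEq] at hu hv
    subst hu; subst hv
    exact hxy
  · rw [List.head?_append, ha1]; rfl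
  · rw [List.getLast?_append, hb1]; rfl

theorem Rch.disj {G : SimpleGraph V} {A B S : Set V} (hS : Sep G A B S) {z : V}
    (h1 : Rch G A S z) (h2 : Rch G B S z) : False := by
  obtain ⟨l1, hl1, a1⟩ := h1
  obtain ⟨l2, hl2, a2⟩ := h2
  obtain ⟨w, hw, hwS⟩ := hS _ (glue hl1 hl2.reverse)
  rcases List.mem_append.1 hw with h | h
  · exact a1 w h hwS
  · have := List.mem_of_mem_tail h
    exact a2 w (by simpa using this) hwS

theorem Rch.step {G : SimpleGraph V} {A S : Set V} {x y : V} (h : Rch G A S x)
    (hxy : G.Adj x y) (hy : y ∉ S) : Rch G A S y := by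
  obtain ⟨l, hl, al⟩ := h
  refine ⟨l ++ [y], glue_edge hxy hl ⟨by simp, ⟨y, by simp⟩, ⟨y, by simp⟩⟩, ?_⟩
  intro w hw
  rcases List.mem_append.1 hw with h | h
  · exact al w h
  · have : w = y := by simpa using h
    rw [this]; exact hy

theorem Rch.base {G : SimpleGraph V} {A S : Set V} {x : V} (h : x ∈ A)
    (hx : x ∉ S) : Rch G A S x :=
  ⟨[x], ⟨by simp, ⟨x, h, by simp⟩, ⟨x, by simp⟩⟩, by simpa using hx⟩

/-- A system of `k` disjoint `A`-`B` walks. -/
def Linked (G : SimpleGraph V) (A B : Set V) (k : ℕ) : Prop :=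
  ∃ w : Fin k → List V, (∀ i, PL G A B (w i)) ∧ ∀ i j, i ≠ j → List.Disjoint (w i) (w j)

theorem Linked.symm {G : SimpleGraph V} {A B : Set V} {k : ℕ} (h : Linked G A B k) :
    Linked G B A k := by
  obtain ⟨w, h1, h2⟩ := h
  refine ⟨fun i => (w i).reverse, fun i => (h1 i).reverse, ?_⟩
  intro i j hij a ha hb
  exact h2 i j hij (by simpa using ha) (by simpa using hb)

/-- Trimming: a full system of `A`-`P` walks with `|P| = k` can be indexed by `P`. -/
theorem Linked.trim {G : SimpleGraph V} {A : Set V} {P : Finset V}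
    (h : Linked G A (P : Set V) P.card) :
    ∃ u : V → List V, (∀ p ∈ P, PL G A {p} (u p ++ [p]) ∧ ∀ z ∈ u p, z ∉ P) ∧
      ∀ p ∈ P, ∀ q ∈ P, p ≠ q → List.Disjoint (u p ++ [p]) (u q ++ [q]) := by
  classical
  obtain ⟨w, h1, h2⟩ := h
  have key : ∀ i, ∃ l1 z l2, w i = l1 ++ z :: l2 ∧ z ∈ P ∧ ∀ v ∈ l1, v ∉ P := by
    intro i
    apply first_split
    obtain ⟨b, hb, hb'⟩ := (h1 i).2.2
    exact ⟨b, List.mem_of_getLast? hb', hb⟩
  choose l1 z l2 hw hz hl using key
  have hinj : Function.Injective z := by
    intro i j hij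
    by_contra hne
    apply h2 i j hne (a := z i)
    · rw [hw i]; simp
    · rw [hw j, hij]; simp
  let f : Fin P.card → P := fun i => ⟨z i, hz i⟩
  have hf : Function.Injective f := fun i j hij => hinj (congrArg Subtype.val hij)
  have hbij : Function.Bijective f := by
    rw [Fintype.bijective_iff_injective_and_card]
    exact ⟨hf, by simp⟩
  have hex : ∀ p : V, ∃ l : List V, p ∈ P → ∃ i, z i = p ∧ l = l1 i := by
    intro p
    by_cases hp : p ∈ P
    · obtain ⟨i, hi⟩ := hbij.2 ⟨p, hp⟩
      exact ⟨l1 i, fun _ => ⟨i, congrArg Subtype.val hi, rfl⟩⟩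
    · exact ⟨[], fun h => absurd h hp⟩
  choose u hu using hex
  refine ⟨u, ?_, ?_⟩
  · intro p hp
    obtain ⟨i, hi, hui⟩ := hu p hp
    rw [hui]
    have := h1 i
    rw [hw i] at this
    have := this.cut
    exact ⟨hi ▸ this, hl i⟩
  · intro p hp q hq hpq
    obtain ⟨i, hi, hui⟩ := hu p hp
    obtain ⟨j, hj, huj⟩ := hu q hq
    have hij : i ≠ j := by
      rintro rfl
      exact hpq (hi.symm.trans hj)
    intro v hv hv'
    rw [hui, ← hi] at hv
    rw [huj, ← hj] at hv'
    apply h2 i j hij (a := v)
    · rw [hw i]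
      rcases List.mem_append.1 hv with h | h
      · simp [h]
      · have : v = z i := by simpa using h
        simp [this]
    · rw [hw j]
      rcases List.mem_append.1 hv' with h | h
      · simp [h]
      · have : v = z j := by simpa using h
        simp [this]

theorem rch_of_mem {G : SimpleGraph V} {A S : Set V} {l : List V} {p z : V}
    (h : PL G A {p} (l ++ [p])) (hl : ∀ w ∈ l, w ∉ S) (hz : z ∈ l ++ [p]) (hzS : z ∉ S) :
    Rch G A S z := by
  classical
  obtain ⟨l1, w, l2, h1, h2, h3⟩ := first_split (fun t => t = z) (l ++ [p]) ⟨z, hz, rfl⟩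
  subst h2
  have hPL := h
  rw [h1] at hPL
  refine ⟨l1 ++ [w], hPL.cut, ?_⟩
  have hsub : ∀ t ∈ l1, t ∈ l := by
    have : l = l1 ++ (w :: l2).dropLast := by
      have := congrArg List.dropLast h1
      simpa using this
    intro t ht
    rw [this]
    exact List.mem_append_left _ ht
  intro t ht
  rcases List.mem_append.1 ht with h | h
  · exact hl t (hsub t h)
  · have : t = w := by simpa using h
    rw [this]; exact hzS

/-- Gluing two full systems. -/
theorem glue_systems [DecidableEq V] {G G' : SimpleGraph V} {x y : V} {A B : Set V} {S : Finset V}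
    (hle : G' ≤ G) (hxy : G.Adj x y) (hSep : Sep G' A B S) (hyS : y ∉ S)
    (u : V → List V) (hu : ∀ p ∈ insert x S, PL G' A {p} (u p ++ [p]) ∧
      ∀ z ∈ u p, z ∉ insert x S)
    (hud : ∀ p ∈ insert x S, ∀ q ∈ insert x S, p ≠ q → List.Disjoint (u p ++ [p]) (u q ++ [q]))
    (v : V → List V) (hv : ∀ p ∈ insert y S, PL G' B {p} (v p ++ [p]) ∧
      ∀ z ∈ v p, z ∉ insert y S)
    (hvd : ∀ p ∈ insert y S, ∀ q ∈ insert y S, p ≠ q → List.Disjoint (v p ++ [p]) (v q ++ [q])) :
    Linked G A B (insert x S).card := by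
  classical
  have hxney : x ≠ y := hxy.ne
  -- the partner of a vertex of `P`
  let σ : V → V := fun p => if p = x then y else p
  have hσ : ∀ p ∈ insert x S, σ p ∈ insert y S := by
    intro p hp
    by_cases h : p = x
    · simp [σ, h]
    · have : p ∈ S := by simpa [h] using hp
      simp [σ, h, this]
  have hσS : ∀ p ∈ insert x S, σ p ∈ S → σ p = p := by
    intro p hp h
    by_cases hpx : p = x
    · simp only [σ, hpx, if_true] at h
      exact absurd h hyS
    · simp [σ, hpx]
  have hσinj : ∀ p ∈ insert x S, ∀ q ∈ insert x S, p ≠ q → σ p ≠ σ q := by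
    intro p hp q hq hpq h
    by_cases hpx : p = x
    · by_cases hqx : q = x
      · exact hpq (hpx.trans hqx.symm)
      · have hqS : q ∈ S := by simpa [hqx] using hq
        simp only [σ, hpx, hqx, if_true, if_false] at h
        exact hyS (h ▸ hqS)
    · by_cases hqx : q = x
      · have hpS : p ∈ S := by simpa [hpx] using hp
        simp only [σ, hpx, hqx, if_true, if_false] at h
        exact hyS (h ▸ hpS)
      · simp only [σ, hpx, hqx, if_false] at h
        exact hpq h
  let f : V → List V := fun p =>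
    if p = x then (u p ++ [p]) ++ (v y ++ [y]).reverse
    else (u p ++ [p]) ++ (v p ++ [p]).reverse.tail
  have hf : ∀ p ∈ insert x S, PL G A B (f p) := by
    have hmono : ∀ {C D : Set V} {l : List V}, PL G' C D l → PL G C D l :=
      fun h => ⟨h.1.imp (fun a b hab => hle hab), h.2⟩
    intro p hp
    by_cases hpx : p = x
    · simp only [f, hpx, if_true]
      exact glue_edge hxy (hmono (hu _ (by simp)).1)
        (hmono (hv y (by simp)).1.reverse)
    · simp only [f, hpx, if_false]
      have hpS : p ∈ S := by simpa [hpx] using hp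
      exact glue (hmono (hu _ hp).1) (hmono (hv p (by simp [hpS])).1.reverse)
  have hmem : ∀ p, ∀ z ∈ f p, z ∈ u p ++ [p] ∨ z ∈ v (σ p) ++ [σ p] := by
    intro p z hz
    by_cases hpx : p = x
    · simp only [f, hpx, if_true] at hz
      rcases List.mem_append.1 hz with h | h
      · left; rw [hpx]; exact h
      · right
        rw [List.mem_reverse] at h
        simpa only [σ, hpx, if_true] using h
    · simp only [f, hpx, if_false] at hz
      rcases List.mem_append.1 hz with h | h
      · left; exact h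
      · right
        have h' := List.mem_of_mem_tail h
        rw [List.mem_reverse] at h'
        simpa only [σ, hpx, if_false] using h'
  -- crossing vertices
  have hcross : ∀ p ∈ insert x S, ∀ q ∈ insert x S, ∀ z, z ∈ u p ++ [p] →
      z ∈ v (σ q) ++ [σ q] → p = q := by
    intro p hp q hq z hz hz'
    by_cases hzS : z ∈ S
    · have h1 : z = p := by
        rcases List.mem_append.1 hz with h | h
        · exact absurd (by simp [hzS]) ((hu p hp).2 z h)
        · simpa using h
      have h2 : z = σ q := by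
        rcases List.mem_append.1 hz' with h | h
        · exact absurd (by simp [hzS]) ((hv _ (hσ q hq)).2 z h)
        · simpa using h
      have h3 : σ q = q := hσS q hq (h2 ▸ hzS)
      rw [← h1, h2, h3]
    · exfalso
      have hRA : Rch G' A S z := by
        apply rch_of_mem (hu p hp).1 _ hz (by simpa using hzS)
        intro w hw hwS
        exact (hu p hp).2 w hw (by simp [Finset.mem_coe.1 hwS])
      have hRB : Rch G' B S z := by
        apply rch_of_mem (hv _ (hσ q hq)).1 _ hz' (by simpa using hzS)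
        intro w hw hwS
        exact (hv _ (hσ q hq)).2 w hw (by simp [Finset.mem_coe.1 hwS])
      exact hRA.disj hSep hRB
  let e := (insert x S).equivFin.symm
  refine ⟨fun i => f (e i), fun i => hf _ (e i).2, ?_⟩
  intro i j hij
  have hne : ((e i : V)) ≠ (e j : V) := by
    intro h
    exact hij (e.injective (Subtype.ext h))
  intro z hz hz'
  rcases hmem _ z hz with h | h
  · rcases hmem _ z hz' with h' | h'
    · exact hud _ (e i).2 _ (e j).2 hne h h'
    · exact hne (hcross _ (e i).2 _ (e j).2 z h h')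
  · rcases hmem _ z hz' with h' | h'
    · exact hne (hcross _ (e j).2 _ (e i).2 z h' h).symm
    · exact hvd _ (hσ _ (e i).2) _ (hσ _ (e j).2) (hσinj _ (e i).2 _ (e j).2 hne) h h'

/-- Menger, walk version. -/
theorem menger_walk [Finite V] (n : ℕ) : ∀ (G : SimpleGraph V) (_ : G.edgeSet.ncard ≤ n)
    (A B : Set V) (k : ℕ) (_ : ∀ S : Finset V, Sep G A B S → k ≤ S.card), Linked G A B k := by
  classical
  induction n with
  | zero =>
    intro G hG A B k hk
    have hE : G.edgeSet = ∅ := by
      have h0 : G.edgeSet.ncard = 0 := Nat.le_zero.1 hG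
      exact (Set.ncard_eq_zero (Set.toFinite _)).1 h0
    have hno : ∀ a b, ¬ G.Adj a b := by
      intro a b hab
      have : s(a, b) ∈ G.edgeSet := hab
      rw [hE] at this
      exact this
    have hfin : (A ∩ B).Finite := Set.toFinite _
    have hsep : Sep G A B (hfin.toFinset : Set V) := by
      intro l hl
      obtain ⟨h1, ⟨a, ha, ha'⟩, ⟨b, hb, hb'⟩⟩ := hl
      match l, h1, ha', hb' with
      | [c], _, ha', hb' =>
        have hca : c = a := by simpa using ha'
        have hcb : c = b := by simpa using hb'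
        refine ⟨c, by simp, ?_⟩
        simp only [Set.Finite.coe_toFinset]
        exact ⟨hca ▸ ha, hcb ▸ hb⟩
      | c :: d :: t, h1, _, _ =>
        rw [List.isChain_cons_cons] at h1
        exact absurd h1.1 (hno _ _)
    have hcard := hk _ hsep
    obtain ⟨T, hT, hTc⟩ := Finset.exists_subset_card_eq hcard
    let e := T.equivFin.symm
    subst hTc
    refine ⟨fun i => [(e i : V)], ?_, ?_⟩
    · intro i
      have : (e i : V) ∈ A ∩ B := by
        have := hT (e i).2
        simpa using this
      exact ⟨by simp, ⟨e i, this.1, by simp⟩, ⟨e i, this.2, by simp⟩⟩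
    · intro i j hij z hz hz'
      have h1 : z = e i := by simpa using hz
      have h2 : z = e j := by simpa using hz'
      exact hij (e.injective (Subtype.ext (h1.symm.trans h2)))
  | succ n ih =>
    intro G hG A B k hk
    by_cases hE : G.edgeSet.ncard ≤ n
    · exact ih G hE A B k hk
    have hne : G.edgeSet.Nonempty := by
      rw [Set.nonempty_iff_ne_empty]
      intro h
      apply hE
      rw [h]; simp
    obtain ⟨e, he⟩ := hne
    set G' := G.deleteEdges {e} with hG'
    have hG'n : G'.edgeSet.ncard ≤ n := by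
      have h1 : G'.edgeSet = G.edgeSet \ {e} := by
        rw [hG', SimpleGraph.edgeSet_deleteEdges]
      rw [h1]
      have h2 := Set.ncard_sdiff_singleton_lt_of_mem he (Set.toFinite _)
      omega
    have hle : G' ≤ G := SimpleGraph.deleteEdges_le _
    by_cases hS : ∀ S : Finset V, Sep G' A B S → k ≤ S.card
    · obtain ⟨w, h1, h2⟩ := ih G' hG'n A B k hS
      exact ⟨w, fun i => ⟨(h1 i).1.imp (fun a b hab => hle hab), (h1 i).2⟩, h2⟩
    push Not at hS
    obtain ⟨S, hSep, hSk⟩ := hS
    have hnS : ¬ Sep G A B S := fun h => absurd (hk S h) (by omega)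
    unfold Sep at hnS
    push Not at hnS
    obtain ⟨l, hl, hlS⟩ := hnS
    -- the crossing edges
    have hadj : ∀ a b, G.Adj a b → ¬ G'.Adj a b → s(a, b) = e := by
      intro a b hab hn
      by_contra hne
      apply hn
      rw [hG', SimpleGraph.deleteEdges_adj]
      exact ⟨hab, by simpa using hne⟩
    have hadj' : ∀ a b, G'.Adj a b → s(a, b) ≠ e := by
      intro a b hab
      rw [hG', SimpleGraph.deleteEdges_adj] at hab
      simpa using hab.2
    obtain ⟨a, haA, hal⟩ := hl.2.1
    obtain ⟨b, hbB, hbl⟩ := hl.2.2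
    have haS : a ∉ (S : Set V) := hlS a (List.mem_of_head? hal)
    have hbS : b ∉ (S : Set V) := hlS b (List.mem_of_getLast? hbl)
    have hRa : Rch G' A S a := Rch.base haA haS
    have hRb : Rch G' B S b := Rch.base hbB hbS
    obtain ⟨x, hxl, y, hyl, hxy, hRx, hRy⟩ := crossing (fun z => Rch G' A S z) l hl.1 a hal hRa b hbl
      (fun h => h.disj hSep hRb)
    obtain ⟨c, hcl, d, hdl, hcd, hRc, hRd⟩ := crossing (fun z => ¬ Rch G' B S z) l hl.1 a hal
      (fun h => hRa.disj hSep h) b hbl (fun h => h hRb)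
    push Not at hRd
    have hxye : s(x, y) = e := hadj x y hxy (fun h => hRy (hRx.step h (hlS y hyl)))
    have hcde : s(c, d) = e := hadj c d hcd (fun h => hRc (hRd.step h.symm (hlS c hcl)))
    have hRyB : Rch G' B S y := by
      have := hxye.trans hcde.symm
      rw [Sym2.eq_iff] at this
      rcases this with ⟨h1, h2⟩ | ⟨h1, h2⟩
      · rw [h2]; exact hRd
      · exfalso
        rw [← h1] at hRd
        exact hRx.disj hSep hRd
    have hnyA : ¬ Rch G' A S y := fun h => h.disj hSep hRyB
    have hnxB : ¬ Rch G' B S x := fun h => hRx.disj hSep h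
    have hxS : x ∉ S := by simpa using hlS x hxl
    have hyS : y ∉ S := by simpa using hlS y hyl
    have hG1 : ∀ a b, G.Adj a b → a ≠ x → a ≠ y → G'.Adj a b := by
      intro a b hab hax hay
      by_contra hn
      have := (hadj a b hab hn).trans hxye.symm
      rw [Sym2.eq_iff] at this
      rcases this with ⟨h1, _⟩ | ⟨h1, _⟩
      · exact hax h1
      · exact hay h1
    have hG2 : ∀ a b, G.Adj a b → a ≠ y → a ≠ x → G'.Adj a b :=
      fun a b hab h1 h2 => hG1 a b hab h2 h1
    have htrA : ∀ T : Set V, Sep G' A (insert x (S : Set V)) T → Sep G A B T :=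
      fun T hT => sep_transfer hG1 hnyA hSep hT
    have htrB : ∀ T : Set V, Sep G' B (insert y (S : Set V)) T → Sep G A B T :=
      fun T hT => (sep_transfer hG2 hnxB hSep.symm hT).symm
    have hPself : ∀ (C D : Set V), Sep G' C D D := by
      intro C D l hl
      obtain ⟨b, hb, hb'⟩ := hl.2.2
      exact ⟨b, List.mem_of_getLast? hb', hb⟩
    have hPk : (insert x S).card = k := by
      apply le_antisymm
      · rw [Finset.card_insert_of_notMem hxS]; omega
      · apply hk
        rw [Finset.coe_insert]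
        exact htrA _ (hPself _ _)
    have hQk : (insert y S).card = k := by
      apply le_antisymm
      · rw [Finset.card_insert_of_notMem hyS]; omega
      · apply hk
        rw [Finset.coe_insert]
        exact htrB _ (hPself _ _)
    have hLA : Linked G' A ((insert x S : Finset V) : Set V) (insert x S).card := by
      rw [hPk]
      apply ih G' hG'n
      intro T hT
      rw [Finset.coe_insert] at hT
      exact hk T (htrA _ hT)
    have hLB : Linked G' B ((insert y S : Finset V) : Set V) (insert y S).card := by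
      rw [hQk]
      apply ih G' hG'n
      intro T hT
      rw [Finset.coe_insert] at hT
      exact hk T (htrB _ hT)
    obtain ⟨u, hu, hud⟩ := hLA.trim
    obtain ⟨v, hv, hvd⟩ := hLB.trim
    have := glue_systems hle hxy hSep hyS u hu hud v hv hvd
    rwa [hPk] at this

/-- Shortening a walk to a path. -/
theorem exists_nodup {R : V → V → Prop} : ∀ (l : List V) (_ : l.IsChain R) (_ : l ≠ []),
    ∃ l' : List V, l'.IsChain R ∧ l'.head? = l.head? ∧ l'.getLast? = l.getLast? ∧
      (∀ z ∈ l', z ∈ l) ∧ l'.Nodup := by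
  classical
  intro l
  induction l with
  | nil => intro _ h; exact absurd rfl h
  | cons a t ih =>
    intro hc _
    cases t with
    | nil => exact ⟨[a], by simp, rfl, rfl, by simp, by simp⟩
    | cons b t' =>
      rw [List.isChain_cons_cons] at hc
      obtain ⟨l', h1, h2, h3, h4, h5⟩ := ih hc.2 (by simp)
      by_cases ha : a ∈ l'
      · obtain ⟨l1, l2, rfl⟩ := List.append_of_mem ha
        refine ⟨a :: l2, h1.right_of_append, rfl, ?_, ?_, ?_⟩
        · rw [List.getLast?_append] at h3
          have hne : (a :: l2).getLast? ≠ none := by simp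
          obtain ⟨q, hq⟩ := Option.ne_none_iff_exists'.1 hne
          rw [hq] at h3 ⊢
          simpa using h3
        · intro z hz
          rcases List.mem_cons.1 hz with rfl | h
          · simp
          · exact List.mem_cons_of_mem _ (h4 z (by simp [h]))
        · exact h5.of_append_right
      · have hb : l'.head? = some b := by simpa using h2
        cases l' with
        | nil => simp at hb
        | cons c s =>
          have hcb : c = b := by simpa using hb
          subst hcb
          refine ⟨a :: c :: s, ?_, rfl, ?_, ?_, ?_⟩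
          · rw [List.isChain_cons_cons]; exact ⟨hc.1, h1⟩
          · simpa using h3
          · intro z hz
            rcases List.mem_cons.1 hz with rfl | h
            · simp
            · exact List.mem_cons_of_mem _ (h4 z h)
          · exact List.nodup_cons.2 ⟨ha, h5⟩

/-- Menger's theorem for two vertex sets of a finite simple graph, paths as lists. -/
theorem menger {V : Type*} [Fintype V] [DecidableEq V] (G : SimpleGraph V) (A B : Finset V)
    (k : ℕ)
    (h : ∀ S : Finset V, (∀ (l : List V) (hl : l ≠ []), l.IsChain G.Adj → l.head hl ∈ A →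
        l.getLast hl ∈ B → ∃ x ∈ l, x ∈ S) → k ≤ S.card) :
    ∃ w : Fin k → List V, (∀ i, (w i).Nodup ∧ (w i).IsChain G.Adj) ∧
      (∀ i, ∃ h : w i ≠ [], (w i).head h ∈ A ∧ (w i).getLast h ∈ B) ∧
      ∀ i j, i ≠ j → List.Disjoint (w i) (w j) := by
  obtain ⟨w, h1, h2⟩ := menger_walk G.edgeSet.ncard G le_rfl (A : Set V) (B : Set V) k (by
    intro S hS
    apply h
    intro l hl hc hA hB
    obtain ⟨x, hx, hxS⟩ := hS l ⟨hc, ⟨l.head hl, hA, List.head?_eq_some_head hl⟩,
      ⟨l.getLast hl, hB, List.getLast?_eq_some_getLast hl⟩⟩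
    exact ⟨x, hx, hxS⟩)
  have hne : ∀ i, w i ≠ [] := by
    intro i hi
    obtain ⟨_, ⟨a, _, ha⟩, _⟩ := h1 i
    rw [hi] at ha
    simp at ha
  have h3 := fun i => exists_nodup (w i) (h1 i).1 (hne i)
  choose w' c1 c2 c3 c4 c5 using h3
  refine ⟨w', fun i => ⟨c5 i, c1 i⟩, ?_, ?_⟩
  · intro i
    obtain ⟨_, ⟨a, haA, ha⟩, ⟨b, hbB, hb⟩⟩ := h1 i
    have hne' : w' i ≠ [] := by
      intro hi
      have := c2 i
      rw [hi, ha] at this
      simp at this
    refine ⟨hne', ?_, ?_⟩
    · have := c2 i
      rw [ha, List.head?_eq_some_head hne'] at this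
      simp only [Option.some.injEq] at this
      rw [this]; exact haA
    · have := c3 i
      rw [hb, List.getLast?_eq_some_getLast hne'] at this
      simp only [Option.some.injEq] at this
      rw [this]; exact hbB
  · intro i j hij z hz hz'
    exact h2 i j hij (c4 i z hz) (c4 j z hz')

end Pool.Agent.Lib.MP_699f60_co
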