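import Pool.Agent.Lib.MP_699f60_co.Menger

set_option autoImplicit false

namespace Pool.Agent.Lib.MP_699f60_co

/-- A chain of adjacent vertices is the support of a walk. -/
theorem exists_walk_of_chain {V : Type*} (H : SimpleGraph V) (b : V) : ∀ (l : List V) (a : V)
    (_ : (a :: l).IsChain H.Adj) (_ : (a :: l).getLast? = some b),
    ∃ p : H.Walk a b, p.support = a :: l := by
  intro l
  induction l with
  | nil =>
    intro a _ hlast
    have hab : a = b := by simpa using hlast
    subst hab
    exact ⟨SimpleGraph.Walk.nil, rfl⟩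
  | cons c t ih =>
    intro a hch hlast
    rw [List.isChain_cons_cons] at hch
    obtain ⟨p, hp⟩ := ih c hch.2 (by simpa using hlast)
    exact ⟨SimpleGraph.Walk.cons hch.1 p, by rw [SimpleGraph.Walk.support_cons, hp]⟩

/-- Three lists give three openly disjoint paths. -/
theorem build_paths {V : Type*} (H : SimpleGraph V) {v b : V} (L : Fin 3 → List V)
    (h1 : ∀ i, (v :: (L i ++ [b])).IsChain H.Adj) (h2 : ∀ i, (v :: (L i ++ [b])).Nodup)
    (h3 : ∀ i j, i ≠ j → List.Disjoint (L i) (L j)) (h4 : ∀ i j, i ≠ j → L i ≠ L j) :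
    ∃ w : Fin 3 → H.Walk v b, (∀ i, (w i).IsPath) ∧ ∀ i j, i ≠ j → w i ≠ w j ∧
      ∀ z, z ∈ (w i).support → z ∈ (w j).support → z = v ∨ z = b := by
  have hex : ∀ i, ∃ p : H.Walk v b, p.support = v :: (L i ++ [b]) := fun i =>
    exists_walk_of_chain H b _ v (h1 i) (by
      rw [List.getLast?_cons, List.getLast?_append]; simp)
  choose w hw using hex
  refine ⟨w, fun i => ?_, ?_⟩
  · rw [SimpleGraph.Walk.isPath_def, hw i]
    exact h2 i
  · intro i j hij
    refine ⟨?_, ?_⟩
    · intro heq
      have h5 : v :: (L i ++ [b]) = v :: (L j ++ [b]) := by rw [← hw i, ← hw j, heq]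
      have h6 : L i = L j := by simpa using h5
      exact h4 i j hij h6
    · intro z hz hz'
      rw [hw i] at hz
      rw [hw j] at hz'
      simp only [List.mem_cons, List.mem_append, List.not_mem_nil, or_false] at hz hz'
      rcases hz with h | h | h
      · exact Or.inl h
      · rcases hz' with h' | h' | h'
        · exact Or.inl h'
        · exact absurd h' (h3 i j hij h)
        · exact Or.inr h'
      · exact Or.inr h

/-- The graph with all edges at `v` and `b` deleted. -/
def innerG {V : Type*} (H : SimpleGraph V) (v b : V) : SimpleGraph V where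
  Adj x y := H.Adj x y ∧ x ≠ v ∧ x ≠ b ∧ y ≠ v ∧ y ≠ b
  symm := ⟨fun _ _ h => ⟨h.1.symm, h.2.2.2.1, h.2.2.2.2, h.2.1, h.2.2.1⟩⟩
  loopless := ⟨fun x h => H.loopless.irrefl x h.1⟩

theorem innerG_le {V : Type*} (H : SimpleGraph V) (v b : V) : innerG H v b ≤ H :=
  fun _ _ h => h.1

theorem innerG_avoid {V : Type*} (H : SimpleGraph V) (v b : V) : ∀ (l : List V) (a : V)
    (_ : (a :: l).IsChain (innerG H v b).Adj) (_ : a ≠ v) (_ : a ≠ b),
    ∀ x ∈ a :: l, x ≠ v ∧ x ≠ b := by
  intro l
  induction l with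
  | nil =>
    intro a _ hv hb x hx
    have : x = a := by simpa using hx
    rw [this]; exact ⟨hv, hb⟩
  | cons c t ih =>
    intro a hch hv hb x hx
    rw [List.isChain_cons_cons] at hch
    rcases List.mem_cons.1 hx with rfl | h
    · exact ⟨hv, hb⟩
    · exact ih c hch.2 hch.1.2.2.2.1 hch.1.2.2.2.2 x h

theorem exists_sep {V : Type*} [Fintype V] [DecidableEq V] (H : SimpleGraph V) {v b : V}
    (hvb : v ≠ b)
    (h : ¬ ∃ w : Fin 3 → H.Walk v b, (∀ i, (w i).IsPath) ∧ ∀ i j, i ≠ j → w i ≠ w j ∧
      ∀ z, z ∈ (w i).support → z ∈ (w j).support → z = v ∨ z = b) :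
    ∃ (S D : Finset V), v ∉ S ∧ b ∉ S ∧
      ((¬ H.Adj v b ∧ S.card ≤ 2) ∨ (H.Adj v b ∧ S.card ≤ 1)) ∧
      v ∈ D ∧ b ∉ D ∧ Disjoint D S ∧
      ∀ x ∈ D, ∀ y, H.Adj x y → ¬ (x = v ∧ y = b) → y ∈ D ∨ y ∈ S := by
  classical
  set G := innerG H v b with hG
  set A : Set V := {a | H.Adj v a ∧ a ≠ b} with hA
  set B : Set V := {c | H.Adj c b ∧ c ≠ v} with hB
  -- walks avoid `v` and `b`
  have havoid : ∀ l, PL G A B l → ∀ x ∈ l, x ≠ v ∧ x ≠ b := by
    intro l hl x hx
    obtain ⟨h1, ⟨a, ha, ha'⟩, _⟩ := hl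
    cases l with
    | nil => simp at hx
    | cons c t =>
      have hca : c = a := by simpa using ha'
      subst hca
      exact innerG_avoid H v b t c h1 ha.1.ne' ha.2 x hx
  -- lists to paths
  have hlist : ∀ l, PL G A B l → l.Nodup →
      (v :: (l ++ [b])).IsChain H.Adj ∧ (v :: (l ++ [b])).Nodup := by
    intro l hl hnd
    have hav := havoid l hl
    obtain ⟨h1, ⟨a, ha, ha'⟩, ⟨c, hc, hc'⟩⟩ := hl
    constructor
    · rw [List.isChain_cons]
      constructor
      · intro y hy
        rw [List.head?_append, ha'] at hy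
        have : a = y := by simpa using hy
        rw [← this]; exact ha.1
      · rw [List.isChain_append]
        refine ⟨h1.imp (fun _ _ h => innerG_le H v b h), by simp, ?_⟩
        intro x hx y hy
        rw [hc'] at hx
        have hx' : c = x := by simpa using hx
        have hy' : b = y := by simpa using hy
        rw [← hx', ← hy']
        exact hc.1
    · rw [List.nodup_cons]
      constructor
      · simp only [List.mem_append, List.mem_singleton, not_or]
        exact ⟨fun hv => (hav v hv).1 rfl, hvb⟩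
      · rw [List.nodup_append]
        refine ⟨hnd, by simp, ?_⟩
        intro x hx y hy
        have hy' : y = b := by simpa using hy
        rw [hy']
        exact (hav x hx).2
  -- disjoint systems
  have hsys : ∀ k : ℕ, Linked G A B k → ∃ w : Fin k → List V,
      (∀ i, (w i).Nodup ∧ w i ≠ [] ∧ PL G A B (w i)) ∧
        ∀ i j, i ≠ j → List.Disjoint (w i) (w j) := by
    rintro k ⟨w, h1, h2⟩
    have hne : ∀ i, w i ≠ [] := by
      intro i hi
      obtain ⟨_, ⟨a, _, ha⟩, _⟩ := h1 i
      rw [hi] at ha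
      simp at ha
    have h3 := fun i => exists_nodup (w i) (h1 i).1 (hne i)
    choose w' c1 c2 c3 c4 c5 using h3
    refine ⟨w', fun i => ⟨c5 i, ?_, c1 i, ?_, ?_⟩, ?_⟩
    · intro hi
      obtain ⟨_, ⟨a, _, ha⟩, _⟩ := h1 i
      have := c2 i
      rw [hi, ha] at this
      simp at this
    · rw [c2 i]; exact (h1 i).2.1
    · rw [c3 i]; exact (h1 i).2.2
    · intro i j hij z hz hz'
      exact h2 i j hij (c4 i z hz) (c4 j z hz')
  -- the separator
  have hsepar : ∃ S₀ : Finset V, Sep G A B S₀ ∧
      ((¬ H.Adj v b ∧ S₀.card ≤ 2) ∨ (H.Adj v b ∧ S₀.card ≤ 1)) := by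
    by_contra hcon
    push Not at hcon
    apply h
    by_cases hadj : H.Adj v b
    · have hk : ∀ S : Finset V, Sep G A B S → 2 ≤ S.card := by
        intro S hS
        by_contra hlt
        push Not at hlt
        have := (hcon S hS).2 hadj
        omega
      obtain ⟨w, h1, h2⟩ := hsys 2 (menger_walk _ G le_rfl A B 2 hk)
      apply build_paths H ![w 0, w 1, []]
      · intro i
        fin_cases i
        · exact (hlist _ (h1 0).2.2 (h1 0).1).1
        · exact (hlist _ (h1 1).2.2 (h1 1).1).1
        · simpa using hadj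
      · intro i
        fin_cases i
        · exact (hlist _ (h1 0).2.2 (h1 0).1).2
        · exact (hlist _ (h1 1).2.2 (h1 1).1).2
        · simpa using hvb
      · intro i j hij
        fin_cases i <;> fin_cases j <;> simp at hij ⊢
        · exact h2 0 1 (by decide)
        · exact h2 1 0 (by decide)
      · intro i j hij
        fin_cases i <;> fin_cases j <;> simp at hij ⊢
        · intro heq
          have h3 := h2 0 1 (by decide)
          rw [← heq] at h3
          obtain ⟨z, hz⟩ := List.exists_mem_of_ne_nil _ (h1 0).2.1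
          exact h3 hz hz
        · exact (h1 0).2.1
        · intro heq
          have h3 := h2 0 1 (by decide)
          rw [← heq] at h3
          obtain ⟨z, hz⟩ := List.exists_mem_of_ne_nil _ (h1 1).2.1
          exact h3 hz hz
        · exact (h1 1).2.1
        · exact (h1 0).2.1
        · exact (h1 1).2.1
    · have hk : ∀ S : Finset V, Sep G A B S → 3 ≤ S.card := by
        intro S hS
        by_contra hlt
        push Not at hlt
        have := (hcon S hS).1 hadj
        omega
      obtain ⟨w, h1, h2⟩ := hsys 3 (menger_walk _ G le_rfl A B 3 hk)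
      apply build_paths H w
      · exact fun i => (hlist _ (h1 i).2.2 (h1 i).1).1
      · exact fun i => (hlist _ (h1 i).2.2 (h1 i).1).2
      · exact h2
      · intro i j hij heq
        have h3 := h2 i j hij
        rw [← heq] at h3
        obtain ⟨z, hz⟩ := List.exists_mem_of_ne_nil _ (h1 i).2.1
        exact h3 hz hz
  obtain ⟨S₀, hS₀, hcard⟩ := hsepar
  set S : Finset V := S₀.filter (fun x => x ≠ v ∧ x ≠ b) with hS
  have hSc : S.card ≤ S₀.card := Finset.card_filter_le _ _
  have hSsep : Sep G A B S := by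
    intro l hl
    obtain ⟨x, hx, hxS⟩ := hS₀ l hl
    refine ⟨x, hx, ?_⟩
    rw [hS, Finset.mem_coe, Finset.mem_filter]
    exact ⟨Finset.mem_coe.1 hxS, havoid l hl x hx⟩
  refine ⟨S, Finset.univ.filter (fun x => x = v ∨ (x ≠ b ∧ Rch G A S x)), ?_, ?_, ?_, ?_, ?_,
    ?_, ?_⟩
  · simp [hS]
  · simp [hS]
  · rcases hcard with ⟨h1, h2⟩ | ⟨h1, h2⟩
    · exact Or.inl ⟨h1, hSc.trans h2⟩
    · exact Or.inr ⟨h1, hSc.trans h2⟩
  · simp
  · simp only [Finset.mem_filter, Finset.mem_univ, true_and, not_or, not_and]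
    exact ⟨hvb.symm, fun h => absurd rfl h⟩
  · rw [Finset.disjoint_left]
    intro x hx hxS
    rcases (Finset.mem_filter.1 hx).2 with rfl | ⟨_, l, hl, hav⟩
    · simp [hS] at hxS
    · obtain ⟨z, hz, hz'⟩ := hl.2.2
      rw [Set.mem_singleton_iff] at hz
      subst hz
      exact hav z (List.mem_of_getLast? hz') (Finset.mem_coe.2 hxS)
  · intro x hx y hxy hne
    by_cases hyS : y ∈ S
    · exact Or.inr hyS
    left
    have hyS' : y ∉ (S : Set V) := by simpa using hyS
    rw [Finset.mem_filter]
    refine ⟨Finset.mem_univ _, ?_⟩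
    by_cases hyv : y = v
    · exact Or.inl hyv
    right
    have hx' := (Finset.mem_filter.1 hx).2
    by_cases hxv : x = v
    · subst hxv
      have hyb : y ≠ b := fun h => hne ⟨rfl, h⟩
      exact ⟨hyb, Rch.base ⟨hxy, hyb⟩ hyS'⟩
    · obtain ⟨hxb, l, hl, hav⟩ := hx'.resolve_left hxv
      have hyb : y ≠ b := by
        rintro rfl
        have hxB : x ∈ B := ⟨hxy, hxv⟩
        have hPL : PL G A B l := hl.mono subset_rfl (by simpa using hxB)
        obtain ⟨z, hz, hzS⟩ := hSsep l hPL
        exact hav z hz hzS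
      refine ⟨hyb, ?_⟩
      have hR : Rch G A S x := ⟨l, hl, hav⟩
      exact hR.step ⟨hxy, hxv, hxb, hyv, hyb⟩ hyS'

/-- The largest number of pairwise openly disjoint paths. -/
noncomputable def kappa {V : Type*} (H : SimpleGraph V) (x y : V) : ℕ :=
  sSup {k : ℕ | ∃ w : Fin k → H.Path x y, Function.Injective w ∧
    ∀ i j, i ≠ j → ∀ z, z ∈ (w i : H.Walk x y).support → z ∈ (w j : H.Walk x y).support →
      z = x ∨ z = y}

theorem kappa_bdd {V : Type*} [Finite V] (H : SimpleGraph V) (x y : V) :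
    BddAbove {k : ℕ | ∃ w : Fin k → H.Path x y, Function.Injective w ∧
      ∀ i j, i ≠ j → ∀ z, z ∈ (w i : H.Walk x y).support → z ∈ (w j : H.Walk x y).support →
        z = x ∨ z = y} := by
  classical
  have := Fintype.ofFinite V
  refine ⟨Fintype.card (H.Path x y), ?_⟩
  rintro k ⟨w, hw, _⟩
  have := Fintype.card_le_of_injective w hw
  rwa [Fintype.card_fin] at this

theorem three_le_kappa {V : Type*} [Finite V] (H : SimpleGraph V) (x y : V)
    (h : ∃ w : Fin 3 → H.Walk x y, (∀ i, (w i).IsPath) ∧ ∀ i j, i ≠ j → w i ≠ w j ∧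
      ∀ z, z ∈ (w i).support → z ∈ (w j).support → z = x ∨ z = y) : 3 ≤ kappa H x y := by
  obtain ⟨w, hw, hd⟩ := h
  apply le_csSup (kappa_bdd H x y)
  refine ⟨fun i => ⟨w i, hw i⟩, ?_, ?_⟩
  · intro i j hij
    by_contra hne
    exact (hd i j hne).1 (congrArg Subtype.val hij)
  · intro i j hij z hz hz'
    exact (hd i j hij).2 z hz hz'

end Pool.Agent.Lib.MP_699f60_co
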