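import Mathlib
import Pool.Agent.Lib.MP_699f60_co.Bodies
import Pool.Agent.Lib.MP_699f60_co.Good
import Pool.Agent.Lib.MP_699f60_co.Classes
import Pool.Agent.Lib.MP_699f60_co.Sep

section

set_option autoImplicit false

namespace Pool.Agent.Lib.MP_699f60_co

open Complex

variable {V : Type*} [Fintype V] [DecidableEq V]

/-- The count of `w`. -/
noncomputable def cc (M : Multiset (Finset V)) (w : V) : ℚ :=
  ((M.filter (fun A => w ∈ A)).map (fun A => 3 / (A.card : ℚ))).sum
    - 2 * (((M.filter (fun A => w ∈ A)).card : ℚ) - 1)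

/-- The cost of `w`. -/
noncomputable def gc (M : Multiset (Finset V)) (w : V) : ℚ :=
  ((M.filter (fun A => w ∈ A)).map (fun A => 2 - 3 / (A.card : ℚ))).sum

omit [Fintype V] [DecidableEq V] in
theorem sum_map_two_sub (N : Multiset (Finset V)) :
    (N.map (fun A => 2 - 3 / (A.card : ℚ))).sum =
      2 * (N.card : ℚ) - (N.map (fun A => 3 / (A.card : ℚ))).sum := by
  induction N using Multiset.induction_on with
  | empty => simp
  | cons A N ih =>
    rw [Multiset.map_cons, Multiset.sum_cons, Multiset.map_cons, Multiset.sum_cons,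
      Multiset.card_cons, ih]
    push_cast
    ring

omit [Fintype V] in
theorem cc_eq (M : Multiset (Finset V)) (w : V) : cc M w = 2 - gc M w := by
  unfold cc gc
  rw [sum_map_two_sub]
  ring

theorem sum_filter_swap (M : Multiset (Finset V)) (f : Finset V → ℚ) :
    ∑ w : V, ((M.filter (fun A => w ∈ A)).map f).sum = (M.map (fun A => (A.card : ℚ) * f A)).sum := by
  induction M using Multiset.induction_on with
  | empty => simp
  | cons A M ih =>
    rw [Multiset.map_cons, Multiset.sum_cons, ← ih]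
    have h1 : ∀ w : V, (((A ::ₘ M).filter (fun A => w ∈ A)).map f).sum =
        (if w ∈ A then f A else 0) + ((M.filter (fun A => w ∈ A)).map f).sum := by
      intro w
      by_cases hw : w ∈ A
      · rw [Multiset.filter_cons_of_pos (p := fun A => w ∈ A) _ hw, Multiset.map_cons,
          Multiset.sum_cons, if_pos hw]
      · rw [Multiset.filter_cons_of_neg (p := fun A => w ∈ A) _ hw, if_neg hw, zero_add]
    rw [Finset.sum_congr rfl (fun w _ => h1 w), Finset.sum_add_distrib]
    congr 1
    rw [← Finset.sum_filter, Finset.filter_mem_eq_inter, Finset.univ_inter, Finset.sum_const,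
      nsmul_eq_mul]

theorem sum_gc {M : Multiset (Finset V)} {U : Finset V} (hT : Tight M U) :
    ∑ w : V, gc M w = 2 * (U.card : ℚ) := by
  unfold gc
  rw [sum_filter_swap M (fun A => 2 - 3 / (A.card : ℚ))]
  obtain ⟨hA, hs⟩ := hT
  have h1 : (M.map (fun A => (A.card : ℚ) * (2 - 3 / (A.card : ℚ)))) =
      M.map (fun A => ((2 * (A.card : ℤ) - 3 : ℤ) : ℚ)) := by
    apply Multiset.map_congr rfl
    intro A hAM
    have h2 : (A.card : ℚ) ≠ 0 := by
      have := hA A hAM
      exact_mod_cast (by omega : A.card ≠ 0)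
    push_cast
    field_simp
  rw [h1]
  have h3 : ((M.map (fun A => (2 * (A.card : ℤ) - 3))).sum : ℚ) = 2 * (U.card : ℚ) := by
    exact_mod_cast hs
  rw [← h3]
  have h4 := Multiset.sum_hom (M.map (fun A => (2 * (A.card : ℤ) - 3))) (Int.castRingHom ℚ)
  rw [Multiset.map_map] at h4
  exact h4

theorem sum_cc {M : Multiset (Finset V)} {U : Finset V} (hT : Tight M U) :
    ∑ w ∈ U, cc M w = ∑ x ∈ Uᶜ,
      ((M.filter (fun A => x ∈ A)).map (fun A => 2 - 3 / (A.card : ℚ))).sum := by
  have h1 := sum_gc hT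
  rw [← Finset.sum_add_sum_compl U] at h1
  rw [Finset.sum_congr rfl (fun w _ => cc_eq M w), Finset.sum_sub_distrib, Finset.sum_const,
    nsmul_eq_mul]
  change _ = ∑ x ∈ Uᶜ, gc M x
  linarith

theorem two_ground {M : Multiset (Finset V)} {U : Finset V} {p : V → ℂ} (hU : U.Nonempty)
    (_hA : ∀ A ∈ M, 2 ≤ A.card) (hp : ∀ x y, x ≠ y → p x ≠ p y) (hR : Rigid M U p) :
    2 ≤ ∑ x ∈ Uᶜ, (M.filter (fun A => x ∈ A)).card := by
  by_contra hcon
  push Not at hcon
  obtain ⟨y, hy⟩ := hU
  by_cases h0 : ∃ x₀ ∈ Uᶜ, (M.filter (fun A => x₀ ∈ A)).card ≠ 0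
  · obtain ⟨x₀, hx₀, hne⟩ := h0
    have hx₀U : x₀ ∉ U := Finset.mem_compl.1 hx₀
    have hother : ∀ x ∈ Uᶜ, x ≠ x₀ → (M.filter (fun A => x ∈ A)).card = 0 := by
      intro x hx hxx
      by_contra hx0
      have h1 : ∑ z ∈ ({x₀, x} : Finset V), (M.filter (fun A => z ∈ A)).card ≤
          ∑ x ∈ Uᶜ, (M.filter (fun A => x ∈ A)).card := by
        apply Finset.sum_le_sum_of_subset
        intro z hz
        simp only [Finset.mem_insert, Finset.mem_singleton] at hz
        rcases hz with rfl | rfl
        · exact hx₀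
        · exact hx
      rw [Finset.sum_pair (Ne.symm hxx)] at h1
      omega
    have hsub : ∀ A ∈ M, ∀ x ∈ A, x ∈ U ∨ x = x₀ := by
      intro A hAM x hx
      by_contra hc
      push Not at hc
      have h1 := hother x (Finset.mem_compl.2 hc.1) hc.2
      rw [Multiset.card_eq_zero] at h1
      have h2 : A ∈ M.filter (fun A => x ∈ A) := Multiset.mem_filter.2 ⟨hAM, hx⟩
      rw [h1] at h2
      simp at h2
    have h3 := hR (fun z => if z ∈ U then I * (p z - p x₀) else 0) (fun x hx => by simp [hx]) ?_ y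
    · simp only [hy, if_true] at h3
      have h4 : p y ≠ p x₀ := hp y x₀ (fun h => hx₀U (h ▸ hy))
      exact (mul_ne_zero I_ne_zero (sub_ne_zero.2 h4)) h3
    · intro A hAM
      refine ⟨1, - (I * p x₀), ?_⟩
      intro x hx
      rcases hsub A hAM x hx with h | h
      · simp only [h, if_true]
        push_cast
        ring
      · subst h
        simp only [hx₀U, if_false]
        push_cast
        ring
  · push Not at h0
    have hsub : ∀ A ∈ M, ∀ x ∈ A, x ∈ U := by
      intro A hAM x hx
      by_contra hc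
      have h1 := h0 x (Finset.mem_compl.2 hc)
      rw [Multiset.card_eq_zero] at h1
      have h2 : A ∈ M.filter (fun A => x ∈ A) := Multiset.mem_filter.2 ⟨hAM, hx⟩
      rw [h1] at h2
      simp at h2
    have h3 := hR (fun z => if z ∈ U then 1 else 0) (fun x hx => by simp [hx]) ?_ y
    · simp [hy] at h3
    · intro A hAM
      refine ⟨0, 1, ?_⟩
      intro x hx
      simp [hsub A hAM x hx]

omit [Fintype V] [DecidableEq V] in
theorem half_le_term {A : Finset V} (h : 2 ≤ A.card) : (1 : ℚ) / 2 ≤ 2 - 3 / (A.card : ℚ) := by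
  have h1 : (2 : ℚ) ≤ A.card := by exact_mod_cast h
  have h2 : 3 / (A.card : ℚ) ≤ 3 / 2 := div_le_div_of_nonneg_left (by norm_num) (by norm_num) h1
  linarith

omit [Fintype V] [DecidableEq V] in
theorem half_card_le_sum (N : Multiset (Finset V)) (hN : ∀ A ∈ N, 2 ≤ A.card) :
    (N.card : ℚ) / 2 ≤ (N.map (fun A => 2 - 3 / (A.card : ℚ))).sum := by
  induction N using Multiset.induction_on with
  | empty => simp
  | cons A N ih =>
    rw [Multiset.map_cons, Multiset.sum_cons, Multiset.card_cons]
    have h1 := ih (fun B hB => hN B (Multiset.mem_cons_of_mem hB))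
    have h2 := half_le_term (hN A (Multiset.mem_cons_self _ _))
    push_cast
    linarith

theorem exists_pos {M : Multiset (Finset V)} {U : Finset V} {p : V → ℂ} (hU : U.Nonempty)
    (hT : Tight M U) (hp : ∀ x y, x ≠ y → p x ≠ p y) (hR : Rigid M U p) (v : V)
    (hv : v ∈ U → cc M v ≤ 3 / 4) : ∃ w ∈ U, w ≠ v ∧ 0 < cc M w := by
  by_contra hcon
  push Not at hcon
  have h1 := sum_cc hT
  have h2 := two_ground hU hT.1 hp hR
  have h3 : (1 : ℚ) ≤ ∑ w ∈ U, cc M w := by
    rw [h1]
    calc (1 : ℚ) ≤ (∑ x ∈ Uᶜ, ((M.filter (fun A => x ∈ A)).card : ℚ)) / 2 := by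
          have : (2 : ℚ) ≤ ∑ x ∈ Uᶜ, ((M.filter (fun A => x ∈ A)).card : ℚ) := by exact_mod_cast h2
          linarith
      _ = ∑ x ∈ Uᶜ, ((M.filter (fun A => x ∈ A)).card : ℚ) / 2 := by rw [Finset.sum_div]
      _ ≤ _ := by
          apply Finset.sum_le_sum
          intro x _
          apply half_card_le_sum
          intro A hA
          exact hT.1 A (Multiset.mem_filter.1 hA).1
  have h4 : ∑ w ∈ U, cc M w ≤ ∑ w ∈ U, (if w = v then (3 : ℚ) / 4 else 0) := by
    apply Finset.sum_le_sum
    intro w hw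
    by_cases hwv : w = v
    · rw [if_pos hwv, hwv]; exact hv (hwv ▸ hw)
    · rw [if_neg hwv]; exact hcon w hw hwv
  have h5 : ∑ w ∈ U, (if w = v then (3 : ℚ) / 4 else 0) ≤ 3 / 4 := by
    rw [Finset.sum_ite_eq' U v (fun _ => (3 : ℚ) / 4)]
    split_ifs
    · exact le_rfl
    · norm_num
  linarith

omit [Fintype V] [DecidableEq V] in
theorem term_le {A : Finset V} (h : 2 ≤ A.card) : 3 / (A.card : ℚ) ≤ 3 / 2 := by
  have := half_le_term h
  linarith

omit [Fintype V] [DecidableEq V] in
theorem term_le_one {A : Finset V} (h : 3 ≤ A.card) : 3 / (A.card : ℚ) ≤ 1 := by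
  have h1 : (3 : ℚ) ≤ A.card := by exact_mod_cast h
  rw [div_le_one (by linarith)]
  exact h1

omit [Fintype V] in
theorem type_of_pos {M : Multiset (Finset V)} (hA : ∀ A ∈ M, 2 ≤ A.card) {w : V}
    (hw : 0 < cc M w) (ht : M.filter (fun A => w ∈ A) ≠ 0) :
    (∃ A, M.filter (fun A => w ∈ A) = {A} ∧ 3 ≤ A.card) ∨
    (∃ A, M.filter (fun A => w ∈ A) = {A} ∧ A.card = 2) ∨
    (∃ A B, M.filter (fun A => w ∈ A) = {A, B} ∧ 2 ≤ A.card ∧ B.card = 2) ∨
    (∃ A B C, M.filter (fun A => w ∈ A) = {A, B, C} ∧ A.card = 2 ∧ B.card = 2 ∧ C.card = 2) := by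
  unfold cc at hw
  have hN : ∀ A ∈ M.filter (fun A => w ∈ A), 2 ≤ A.card := fun A h =>
    hA A (Multiset.mem_filter.1 h).1
  generalize M.filter (fun A => w ∈ A) = N at hw ht hN ⊢
  have hcard : N.card = 1 ∨ N.card = 2 ∨ N.card = 3 ∨ 4 ≤ N.card := by
    have : N.card ≠ 0 := fun h => ht (Multiset.card_eq_zero.1 h)
    omega
  rcases hcard with h | h | h | h
  · obtain ⟨A, rfl⟩ := Multiset.card_eq_one.1 h
    have h2 := hN A (Multiset.mem_singleton_self A)
    by_cases h3 : 3 ≤ A.card
    · exact Or.inl ⟨A, rfl, h3⟩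
    · exact Or.inr (Or.inl ⟨A, rfl, by omega⟩)
  · obtain ⟨A, B, rfl⟩ := Multiset.card_eq_two.1 h
    have h2 := hN A (by simp)
    have h3 := hN B (by simp)
    right; right; left
    by_cases hB : B.card = 2
    · exact ⟨A, B, rfl, h2, hB⟩
    · by_cases hA2 : A.card = 2
      · exact ⟨B, A, Multiset.pair_comm A B, h3, hA2⟩
      · exfalso
        have h4 := term_le_one (A := A) (by omega)
        have h5 := term_le_one (A := B) (by omega)
        simp only [Multiset.insert_eq_cons, Multiset.map_cons, Multiset.map_singleton,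
          Multiset.sum_cons, Multiset.sum_singleton, Multiset.card_cons,
          Multiset.card_singleton] at hw
        push_cast at hw
        linarith
  · obtain ⟨A, B, C, rfl⟩ := Multiset.card_eq_three.1 h
    have h1 := hN A (by simp)
    have h2 := hN B (by simp)
    have h3 := hN C (by simp)
    have e1 := term_le h1
    have e2 := term_le h2
    have e3 := term_le h3
    simp only [Multiset.insert_eq_cons, Multiset.map_cons, Multiset.map_singleton,
      Multiset.sum_cons, Multiset.sum_singleton, Multiset.card_cons,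
      Multiset.card_singleton] at hw
    push_cast at hw
    right; right; right
    refine ⟨A, B, C, rfl, ?_, ?_, ?_⟩
    · by_contra hc
      have := term_le_one (A := A) (by omega)
      linarith
    · by_contra hc
      have := term_le_one (A := B) (by omega)
      linarith
    · by_contra hc
      have := term_le_one (A := C) (by omega)
      linarith
  · exfalso
    have h1 := half_card_le_sum N hN
    rw [sum_map_two_sub] at h1
    have h2 : (4 : ℚ) ≤ N.card := by exact_mod_cast h
    linarith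

omit [Fintype V] in
theorem cc_le {M : Multiset (Finset V)} (hA : ∀ A ∈ M, 2 ≤ A.card) {v : V}
    (ht : M.filter (fun A => v ∈ A) ≠ 0)
    (h1 : ¬ ∃ A, M.filter (fun A => v ∈ A) = {A} ∧ A.card ≤ 3)
    (h2 : ¬ ∃ A B, M.filter (fun A => v ∈ A) = {A, B} ∧ A.card = 2 ∧ B.card = 2) :
    cc M v ≤ 3 / 4 := by
  unfold cc
  have hN : ∀ A ∈ M.filter (fun A => v ∈ A), 2 ≤ A.card := fun A h =>
    hA A (Multiset.mem_filter.1 h).1
  generalize M.filter (fun A => v ∈ A) = N at ht hN h1 h2 ⊢
  have hcard : N.card = 1 ∨ N.card = 2 ∨ N.card = 3 ∨ 4 ≤ N.card := by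
    have : N.card ≠ 0 := fun h => ht (Multiset.card_eq_zero.1 h)
    omega
  rcases hcard with h | h | h | h
  · obtain ⟨A, rfl⟩ := Multiset.card_eq_one.1 h
    have h3 : 4 ≤ A.card := by
      by_contra hc
      exact h1 ⟨A, rfl, by omega⟩
    have h4 : (4 : ℚ) ≤ A.card := by exact_mod_cast h3
    have h5 : 3 / (A.card : ℚ) ≤ 3 / 4 := div_le_div_of_nonneg_left (by norm_num) (by norm_num) h4
    simp only [Multiset.map_singleton, Multiset.sum_singleton, Multiset.card_singleton]
    push_cast
    linarith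
  · obtain ⟨A, B, rfl⟩ := Multiset.card_eq_two.1 h
    have e1 := term_le (hN A (by simp))
    have e2 := term_le (hN B (by simp))
    have h3 : 3 ≤ A.card ∨ 3 ≤ B.card := by
      by_contra hc
      push Not at hc
      have a1 := hN A (by simp)
      have a2 := hN B (by simp)
      exact h2 ⟨A, B, rfl, by omega, by omega⟩
    simp only [Multiset.insert_eq_cons, Multiset.map_cons, Multiset.map_singleton,
      Multiset.sum_cons, Multiset.sum_singleton, Multiset.card_cons, Multiset.card_singleton]
    push_cast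
    rcases h3 with h3 | h3
    · have := term_le_one h3
      linarith
    · have := term_le_one h3
      linarith
  · obtain ⟨A, B, C, rfl⟩ := Multiset.card_eq_three.1 h
    have e1 := term_le (hN A (by simp))
    have e2 := term_le (hN B (by simp))
    have e3 := term_le (hN C (by simp))
    simp only [Multiset.insert_eq_cons, Multiset.map_cons, Multiset.map_singleton,
      Multiset.sum_cons, Multiset.sum_singleton, Multiset.card_cons,
      Multiset.card_singleton]
    push_cast
    linarith
  · have h3 := half_card_le_sum N hN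
    rw [sum_map_two_sub] at h3
    have h4 : (4 : ℚ) ≤ N.card := by exact_mod_cast h
    linarith

end Pool.Agent.Lib.MP_699f60_co
end

section

section

set_option autoImplicit false

namespace Pool.Agent.Lib.MP_699f60_co

open Complex Function

variable {V : Type*} [Fintype V] [DecidableEq V]

theorem card2_form {A : Finset V} {w : V} (hw : w ∈ A) (h : A.card = 2) :
    ∃ x, w ≠ x ∧ A = {w, x} := by
  obtain ⟨a, b, hab, rfl⟩ := Finset.card_eq_two.mp h
  simp only [Finset.mem_insert, Finset.mem_singleton] at hw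
  rcases hw with rfl | rfl
  · exact ⟨b, hab, rfl⟩
  · exact ⟨a, Ne.symm hab, Finset.pair_comm _ _⟩

theorem card3_form {A : Finset V} {w : V} (hw : w ∈ A) (h : A.card = 3) :
    ∃ x y, w ≠ x ∧ w ≠ y ∧ x ≠ y ∧ A = {w, x, y} := by
  have h1 : (A.erase w).card = 2 := by
    rw [Finset.card_erase_of_mem hw, h]
  obtain ⟨a, b, hab, hA⟩ := Finset.card_eq_two.mp h1
  have ha : a ∈ A.erase w := by rw [hA]; simp
  have hb : b ∈ A.erase w := by rw [hA]; simp
  refine ⟨a, b, (Finset.mem_erase.mp ha).1.symm, (Finset.mem_erase.mp hb).1.symm, hab, ?_⟩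
  rw [← hA, Finset.insert_erase hw]

theorem crs_mir {a b z : ℂ} (h : crs (z - a) (z - b) ≠ 0) :
    crs (mir a b z - a) (mir a b z - b) ≠ 0 := by
  have hab : a ≠ b := by
    intro e
    apply h
    rw [e]
    simp only [crs]
    ring
  have hκ := mir_coeff hab
  have hd : (starRingEnd ℂ) (b - a) ≠ 0 := by
    intro h0
    apply hab
    have := congrArg (starRingEnd ℂ) h0
    rw [Complex.conj_conj, map_zero, sub_eq_zero] at this
    exact this.symm
  obtain ⟨κ, hκ'⟩ : ∃ κ, κ = (b - a) / (starRingEnd ℂ) (b - a) := ⟨_, rfl⟩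
  rw [← hκ'] at hκ
  have e1 : mir a b z - a = κ * (starRingEnd ℂ) (z - a) := by
    rw [hκ']
    unfold mir
    ring
  have e2 : mir a b z - b = κ * (starRingEnd ℂ) (z - b) := by
    have h1 : κ * (starRingEnd ℂ) (b - a) = b - a := by
      rw [hκ']
      field_simp
    have h2 : (starRingEnd ℂ) (z - a) = (starRingEnd ℂ) (z - b) + (starRingEnd ℂ) (b - a) := by
      rw [← map_add]
      congr 1
      ring
    have : mir a b z - b = (mir a b z - a) - (b - a) := by ring
    rw [this, e1, h2, mul_add, h1]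
    ring
  rw [e1, e2]
  have e3 : crs (κ * (starRingEnd ℂ) (z - a)) (κ * (starRingEnd ℂ) (z - b))
      = - (normSq κ * crs (z - a) (z - b)) := by
    simp only [crs, normSq_apply, mul_re, mul_im, conj_re, conj_im, sub_re, sub_im]
    ring
  rw [e3, hκ, one_mul]
  exact neg_ne_zero.mpr h

theorem filter_split (M : Multiset (Finset V)) (w : V) :
    M = M.filter (fun A => w ∈ A) + M.filter (fun A => ¬ w ∈ A) :=
  (Multiset.filter_add_not _ M).symm

/-- Every free vertex lies in some body. -/
theorem filter_ne_zero {M : Multiset (Finset V)} {U : Finset V} {p : V → ℂ}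
    (hR : Rigid M U p) {w : V} (hw : w ∈ U) : M.filter (fun A => w ∈ A) ≠ 0 := by
  intro h0
  have h1 : ∀ A ∈ M, w ∉ A := by
    intro A hA hwA
    have : A ∈ M.filter (fun A => w ∈ A) := Multiset.mem_filter.mpr ⟨hA, hwA⟩
    rw [h0] at this
    exact Multiset.notMem_zero _ this
  have h2 := hR (update 0 w 1) (by
      intro x hx
      have : x ≠ w := fun e => hx (e ▸ hw)
      rw [update_of_ne this]
      rfl) (by
      intro A hA
      rw [isRot_update' (h1 A hA)]
      exact ⟨0, 0, fun x _ => by simp⟩) w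
  rw [update_self] at h2
  exact one_ne_zero h2

/-- A free vertex is not attached by parallel bars only. -/
theorem not_all_bar {M : Multiset (Finset V)} {U : Finset V} {p : V → ℂ}
    (hR : Rigid M U p) {w x : V} (hw : w ∈ U) (hwx : w ≠ x) (hp : p w ≠ p x) :
    ¬ ∀ A ∈ M, w ∈ A → A = {w, x} := by
  intro h
  have h2 := hR (update 0 w (I * (p w - p x))) (by
      intro x hx
      have : x ≠ w := fun e => hx (e ▸ hw)
      rw [update_of_ne this]
      rfl) (by
      intro A hA
      by_cases hwA : w ∈ A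
      · rw [h A hA hwA]
        apply isRot_pair hp
        rw [update_self, update_of_ne (Ne.symm hwx)]
        have := dot_I_mul (p w - p x) 1
        simpa using this
      · rw [isRot_update' hwA]
        exact ⟨0, 0, fun x _ => by simp⟩) w
  rw [update_self] at h2
  rcases mul_eq_zero.mp h2 with h3 | h3
  · exact I_ne_zero h3
  · exact hp (sub_eq_zero.mp h3)

theorem rel_cons_base {R : Multiset (Finset V)} {U : Finset V} {s t v x y : V} {p : V → ℂ}
    (hvU : v ∈ U) :
    ∀ z, z ∉ U → update p v (mir (p x) (p y) (p v)) z = gm ∅ s t p z := by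
  intro z hz
  have : z ≠ v := fun e => hz (e ▸ hvU)
  rw [update_of_ne this]
  simp [gm]

theorem ms_rot (a b c : Finset V) (R : Multiset (Finset V)) :
    a ::ₘ b ::ₘ c ::ₘ R = b ::ₘ c ::ₘ a ::ₘ R := by
  rw [Multiset.cons_swap a b, Multiset.cons_swap a c]

theorem ms_swap (a b c : Finset V) (R : Multiset (Finset V)) :
    a ::ₘ b ::ₘ c ::ₘ R = a ::ₘ c ::ₘ b ::ₘ R := by
  rw [Multiset.cons_swap b c]

theorem ext_main (n : ℕ) : ∀ (M : Multiset (Finset V)) (U D : Finset V) (s t v : V),
    U.card = n → s ≠ t → s ∉ U → t ∉ U → s ∉ D → t ∉ D →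
    ((v ∈ U ∧ D = ∅) ∨ (v ∈ D ∧ v ∉ U)) → Tight M U → ∀ pf, Fine M U pf →
    Good M U D s t v := by
  induction n with
  | zero =>
    intro M U D s t v hU hst hsU htU hsD htD hv hT pf hpf
    have hU0 : U = ∅ := Finset.card_eq_zero.mp hU
    subst hU0
    have hvD : v ∈ D := by
      rcases hv with h | h
      · exact absurd h.1 (Finset.notMem_empty _)
      · exact h.1
    have hvs : v ≠ s := fun e => hsD (e ▸ hvD)
    have hvt : v ≠ t := fun e => htD (e ▸ hvD)
    have hM : M = 0 := by
      by_contra hne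
      obtain ⟨A, hA⟩ := Multiset.exists_mem_of_ne_zero hne
      obtain ⟨R, rfl⟩ := Multiset.exists_cons_of_mem hA
      have h1 := tight_cons.mp hT
      have h2 : 0 ≤ (R.map (fun A => (2 * (A.card : ℤ) - 3))).sum := by
        apply Multiset.sum_nonneg
        intro z hz
        obtain ⟨B, hB, rfl⟩ := Multiset.mem_map.mp hz
        have := h1.2.1 B hB
        have : (2 : ℤ) ≤ B.card := by exact_mod_cast this
        linarith
      have h3 : (2 : ℤ) ≤ A.card := by exact_mod_cast h1.1
      have h4 := h1.2.2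
      simp only [Finset.card_empty] at h4
      push_cast at h4
      linarith
    subst hM
    apply improve hst hsU htU hsD htD hT hpf (p₀ := pf) (q₀ := gm D s t pf)
    · exact ⟨fun x _ => rfl, fun A hA => absurd hA (Multiset.notMem_zero _)⟩
    · simp only [gm, hsD, htD, if_false]
      exact hpf.1.1 s t hst
    · intro A hA
      exact absurd hA (Multiset.notMem_zero _)
    · intro u hu _ x
      exact hu x (Finset.notMem_empty _)
    · simp only [gm, hvD, if_true]
      exact mir_ne (hpf.1.2 s t v hst hvt.symm hvs.symm)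
  | succ n ih =>
    intro M U D s t v hU hst hsU htU hsD htD hv hT pf hpf
    have hUne : U.Nonempty := by
      rw [← Finset.card_pos, hU]; omega
    have hinj := hpf.1.1
    -- the immediate cases at `v`
    by_cases hb1 : v ∈ U ∧ ∃ A, M.filter (fun A => v ∈ A) = {A} ∧ A.card ≤ 3
    · obtain ⟨hvU, A, hA, hc⟩ := hb1
      have hD : D = ∅ := by
        rcases hv with h | h
        · exact h.2
        · exact absurd hvU h.2
      subst hD
      have hAm : A ∈ M ∧ v ∈ A := by
        rw [← Multiset.mem_filter (p := fun A => v ∈ A), hA]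
        exact Multiset.mem_singleton_self A
      have hc3 : A.card = 3 := by
        have h2 := hT.1 A hAm.1
        by_contra hne
        have hc2 : A.card = 2 := by omega
        obtain ⟨x, hvx, hAx⟩ := card2_form hAm.2 hc2
        apply not_all_bar hpf.2 hvU hvx (hinj v x hvx)
        intro B hB hvB
        have : B ∈ M.filter (fun A => v ∈ A) := Multiset.mem_filter.mpr ⟨hB, hvB⟩
        rw [hA, Multiset.mem_singleton] at this
        rw [this, hAx]
      obtain ⟨x, y, hvx, hvy, hxy, hAe⟩ := card3_form hAm.2 hc3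
      have hM : M = A ::ₘ M.filter (fun A => ¬ v ∈ A) := by
        conv_lhs => rw [filter_split M v, hA]
        rw [Multiset.singleton_add]
      obtain ⟨R, hRdef⟩ : ∃ R, R = M.filter (fun A => ¬ v ∈ A) := ⟨_, rfl⟩
      have hR : ∀ B ∈ R, v ∉ B := by
        rw [hRdef]; intro B hB; exact (Multiset.mem_filter.mp hB).2
      rw [← hRdef] at hM
      rw [hM] at hT hpf ⊢
      have hT2 := tight_cons.mp hT
      have hxA : x ∈ A := by rw [hAe]; simp
      have hyA : y ∈ A := by rw [hAe]; simp
      apply improve hst hsU htU hsD htD hT hpf (p₀ := pf)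
        (q₀ := update pf v (mir (pf x) (pf y) (pf v)))
      · refine ⟨rel_cons_base (R := R) hvU, ?_⟩
        rw [Multiset.forall_mem_cons]
        constructor
        · rw [hAe]
          exact cong_mir hvx hvy (hinj x y hxy)
        · intro B hB
          have := cong_update (hR B hB) (Cong.refl pf B) (pf v) (mir (pf x) (pf y) (pf v))
          rwa [update_eq_self] at this
      · have hsv : s ≠ v := fun e => hsU (e ▸ hvU)
        have htv : t ≠ v := fun e => htU (e ▸ hvU)
        rw [update_of_ne hsv, update_of_ne htv]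
        exact hinj s t hst
      · unfold NC
        rw [Multiset.forall_mem_cons]
        refine ⟨⟨x, hxA, y, hyA, ?_⟩, nc_update hR (nc_of_inj hT2.2.1 hinj) _⟩
        rw [update_of_ne hvx.symm, update_of_ne hvy.symm]
        exact hinj x y hxy
      · exact rigid_lift0 hR hAm.2 ⟨x, hxA, y, hyA, hvx.symm, hvy.symm, hinj x y hxy⟩
          (rigid_red0 hR hvU hAm.2 hpf.2)
      · rw [update_self]
        exact mir_ne (hpf.1.2 x y v hxy hvy.symm hvx.symm)
    by_cases hb2 : v ∈ U ∧ ∃ A B, M.filter (fun A => v ∈ A) = {A, B} ∧ A.card = 2 ∧ B.card = 2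
    · obtain ⟨hvU, A, B, hAB, hcA, hcB⟩ := hb2
      have hD : D = ∅ := by
        rcases hv with h | h
        · exact h.2
        · exact absurd hvU h.2
      subst hD
      have hAm : A ∈ M ∧ v ∈ A := by
        rw [← Multiset.mem_filter (p := fun A => v ∈ A), hAB]
        simp
      have hBm : B ∈ M ∧ v ∈ B := by
        rw [← Multiset.mem_filter (p := fun A => v ∈ A), hAB]
        simp
      obtain ⟨x, hvx, hAx⟩ := card2_form hAm.2 hcA
      obtain ⟨y, hvy, hBy⟩ := card2_form hBm.2 hcB
      have hxy : x ≠ y := by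
        intro e
        apply not_all_bar hpf.2 hvU hvx (hinj v x hvx)
        intro C hC hvC
        have : C ∈ M.filter (fun A => v ∈ A) := Multiset.mem_filter.mpr ⟨hC, hvC⟩
        rw [hAB] at this
        simp only [Multiset.insert_eq_cons, Multiset.mem_cons, Multiset.mem_singleton] at this
        rcases this with h | h
        · rw [h, hAx]
        · rw [h, hBy, e]
      have hM : M = A ::ₘ B ::ₘ M.filter (fun A => ¬ v ∈ A) := by
        conv_lhs => rw [filter_split M v, hAB]
        simp only [Multiset.insert_eq_cons, Multiset.cons_add, Multiset.singleton_add]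
      obtain ⟨R, hRdef⟩ : ∃ R, R = M.filter (fun A => ¬ v ∈ A) := ⟨_, rfl⟩
      have hR : ∀ B ∈ R, v ∉ B := by
        rw [hRdef]; intro B hB; exact (Multiset.mem_filter.mp hB).2
      rw [← hRdef, hAx, hBy] at hM
      rw [hM] at hT hpf ⊢
      have hT2 := tight_cons.mp hT
      have hcR : ∀ C ∈ R, 2 ≤ C.card := fun C hC => hT2.2.1 C (Multiset.mem_cons_of_mem hC)
      have hcr : crs (pf v - pf x) (pf v - pf y) ≠ 0 := by
        have := hpf.1.2 v x y hvx hxy hvy
        intro h0
        apply this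
        simp only [crs, sub_re, sub_im] at h0 ⊢
        linarith
      have hcr' := crs_mir hcr
      apply improve hst hsU htU hsD htD hT hpf (p₀ := pf)
        (q₀ := update pf v (mir (pf x) (pf y) (pf v)))
      · refine ⟨rel_cons_base (R := R) hvU, ?_⟩
        rw [Multiset.forall_mem_cons, Multiset.forall_mem_cons]
        have hcm := cong_mir hvx hvy (hinj x y hxy)
        refine ⟨hcm.mono ?_, hcm.mono ?_, ?_⟩
        · intro z hz
          simp only [Finset.mem_insert, Finset.mem_singleton] at hz ⊢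
          tauto
        · intro z hz
          simp only [Finset.mem_insert, Finset.mem_singleton] at hz ⊢
          tauto
        · intro B hB
          have := cong_update (hR B hB) (Cong.refl pf B) (pf v) (mir (pf x) (pf y) (pf v))
          rwa [update_eq_self] at this
      · have hsv : s ≠ v := fun e => hsU (e ▸ hvU)
        have htv : t ≠ v := fun e => htU (e ▸ hvU)
        rw [update_of_ne hsv, update_of_ne htv]
        exact hinj s t hst
      · unfold NC
        rw [Multiset.forall_mem_cons, Multiset.forall_mem_cons]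
        refine ⟨⟨v, by simp, x, by simp, ?_⟩, ⟨v, by simp, y, by simp, ?_⟩,
          nc_update hR (nc_of_inj hcR hinj) _⟩
        · rw [update_self, update_of_ne hvx.symm]
          intro e
          apply hcr'
          rw [e]
          simp [crs]
        · rw [update_self, update_of_ne hvy.symm]
          intro e
          apply hcr'
          rw [e]
          simp [crs]
      · exact rigid_lift1 hR hvx hvy hcr' (rigid_red1 hR hvU hvx hvy hcr hpf.2)
      · rw [update_self]
        exact mir_ne (hpf.1.2 x y v hxy hvy.symm hvx.symm)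
    -- a vertex to remove
    have hvc : v ∈ U → cc M v ≤ 3 / 4 := by
      intro hvU
      apply cc_le hT.1 (filter_ne_zero hpf.2 hvU)
      · intro h; exact hb1 ⟨hvU, h⟩
      · intro h; exact hb2 ⟨hvU, h⟩
    obtain ⟨w, hwU, hwv, hcw⟩ := exists_pos hUne hT hinj hpf.2 v hvc
    have hvw : v ≠ w := Ne.symm hwv
    have hcardU : (U.erase w).card = n := by
      rw [Finset.card_erase_of_mem hwU, hU]; rfl
    have hcardU' : ((U.erase w).card : ℤ) + 1 = U.card := by
      exact_mod_cast Finset.card_erase_add_one hwU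
    have hsU' : s ∉ U.erase w := fun h => hsU (Finset.mem_of_mem_erase h)
    have htU' : t ∉ U.erase w := fun h => htU (Finset.mem_of_mem_erase h)
    have hv' : (v ∈ U.erase w ∧ D = ∅) ∨ (v ∈ D ∧ v ∉ U.erase w) := by
      rcases hv with h | h
      · left; exact ⟨Finset.mem_erase.mpr ⟨hvw, h.1⟩, h.2⟩
      · right; exact ⟨h.1, fun h' => h.2 (Finset.mem_of_mem_erase h')⟩
    have IH : ∀ M' : Multiset (Finset V), Tight M' (U.erase w) → Rigid M' (U.erase w) pf →
        Good M' (U.erase w) D s t v := fun M' hT' hR' =>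
      ih M' (U.erase w) D s t v hcardU hst hsU' htU' hsD htD hv' hT' pf ⟨hpf.1, hR'⟩
    obtain ⟨R, hRdef⟩ : ∃ R, R = M.filter (fun A => ¬ w ∈ A) := ⟨_, rfl⟩
    have hR : ∀ B ∈ R, w ∉ B := by
      rw [hRdef]; intro B hB; exact (Multiset.mem_filter.mp hB).2
    have hmem : ∀ A, A ∈ M.filter (fun A => w ∈ A) → A ∈ M ∧ w ∈ A := by
      intro A hA
      exact Multiset.mem_filter.mp hA
    rcases type_of_pos hT.1 hcw (filter_ne_zero hpf.2 hwU) with
      ⟨A, hA, hc⟩ | ⟨A, hA, hc⟩ | ⟨A, B, hAB, hcA, hcB⟩ | ⟨A, B, C, hABC, hcA, hcB, hcC⟩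
    · -- type 0
      obtain ⟨hAM, hwA⟩ := hmem A (by rw [hA]; simp)
      have hM : M = A ::ₘ R := by
        conv_lhs => rw [filter_split M w, hA]
        rw [Multiset.singleton_add, hRdef]
      rw [hM] at hT hpf ⊢
      apply good0 hst hsU htU hsD htD hT hpf hR hwU hwA hc hvw
      have hT2 := tight_cons.mp hT
      have hcA : ((A.erase w).card : ℤ) + 1 = A.card := by
        exact_mod_cast Finset.card_erase_add_one hwA
      apply IH _ _ (rigid_red0 hR hwU hwA hpf.2)
      rw [tight_cons]
      refine ⟨?_, hT2.2.1, ?_⟩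
      · rw [Finset.card_erase_of_mem hwA]; omega
      · linarith [hT2.2.2]
    · -- one bar
      exfalso
      obtain ⟨hAM, hwA⟩ := hmem A (by rw [hA]; simp)
      obtain ⟨x, hwx, hAx⟩ := card2_form hwA hc
      apply not_all_bar hpf.2 hwU hwx (hinj w x hwx)
      intro B hB hwB
      have : B ∈ M.filter (fun A => w ∈ A) := Multiset.mem_filter.mpr ⟨hB, hwB⟩
      rw [hA, Multiset.mem_singleton] at this
      rw [this, hAx]
    · obtain ⟨hAM, hwA⟩ := hmem A (by rw [hAB]; simp)
      obtain ⟨hBM, hwB⟩ := hmem B (by rw [hAB]; simp)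
      have hM : M = A ::ₘ B ::ₘ R := by
        conv_lhs => rw [filter_split M w, hAB]
        simp only [Multiset.insert_eq_cons, Multiset.cons_add, Multiset.singleton_add, hRdef]
      obtain ⟨b, hwb, hBb⟩ := card2_form hwB hcB
      by_cases hcA2 : A.card = 2
      · -- type I
        obtain ⟨x, hwx, hAx⟩ := card2_form hwA hcA2
        have hxb : x ≠ b := by
          intro e
          apply not_all_bar hpf.2 hwU hwx (hinj w x hwx)
          intro C hC hwC
          have : C ∈ M.filter (fun A => w ∈ A) := Multiset.mem_filter.mpr ⟨hC, hwC⟩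
          rw [hAB] at this
          simp only [Multiset.insert_eq_cons, Multiset.mem_cons, Multiset.mem_singleton] at this
          rcases this with h | h
          · rw [h, hAx]
          · rw [h, hBb, e]
        rw [hAx, hBb] at hM
        rw [hM] at hT hpf ⊢
        apply good1 hst hsU htU hsD htD hT hpf hR hwU hwx hwb hxb hvw
        have hT2 := tight_cons.mp hT
        have hT3 := hT2.2.2
        rw [Multiset.map_cons, Multiset.sum_cons, Finset.card_pair hwx,
          Finset.card_pair hwb] at hT3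
        push_cast at hT3
        apply IH
        · refine ⟨fun C hC => hT2.2.1 C (Multiset.mem_cons_of_mem hC), ?_⟩
          linarith
        · apply rigid_red1 hR hwU hwx hwb _ hpf.2
          have := hpf.1.2 w x b hwx hxb hwb
          intro h0
          apply this
          simp only [crs, sub_re, sub_im] at h0 ⊢
          linarith
      · -- type II
        have hc3 : 3 ≤ A.card := by omega
        rw [hBb] at hM
        rw [hM] at hT hpf ⊢
        have hT2 := tight_cons.mp hT
        have hT3 := hT2.2.2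
        rw [Multiset.map_cons, Multiset.sum_cons, Finset.card_pair hwb] at hT3
        push_cast at hT3
        have hbA : b ∉ A := by
          intro hbA
          have hRig : Rigid (A ::ₘ R) U pf := by
            intro u hu hrot
            apply hpf.2 u hu
            rw [Multiset.forall_mem_cons] at hrot
            rw [Multiset.forall_mem_cons, Multiset.forall_mem_cons]
            refine ⟨hrot.1, hrot.1.mono ?_, hrot.2⟩
            intro z hz
            simp only [Finset.mem_insert, Finset.mem_singleton] at hz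
            rcases hz with rfl | rfl
            · exact hwA
            · exact hbA
          have := dim_le (by
            rw [Multiset.forall_mem_cons]
            exact ⟨hcA, fun C hC => hT2.2.1 C (Multiset.mem_cons_of_mem hC)⟩) hinj hRig
          rw [Multiset.map_cons, Multiset.sum_cons] at this
          linarith
        have hcard : 2 ≤ (A.erase w).card := by
          rw [Finset.card_erase_of_mem hwA]; omega
        obtain ⟨a, ha, a', ha', haa⟩ := Finset.one_lt_card.mp hcard
        have hab : a ≠ b := fun e => hbA (e ▸ (Finset.mem_erase.mp ha).2)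
        have hab' : a' ≠ b := fun e => hbA (e ▸ (Finset.mem_erase.mp ha').2)
        have hcr : crs (pf a - pf b) (pf a' - pf b) ≠ 0 :=
          hpf.1.2 b a a' hab.symm haa hab'.symm
        have hcA' : ((A.erase w).card : ℤ) + 1 = A.card := by
          exact_mod_cast Finset.card_erase_add_one hwA
        rcases rigid_red2 hR hwU hwA hwb (hinj w b hwb) hpf.2 ha ha' hcr with h | h
        · apply good2 hst hsU htU hsD htD hT hpf hR hwU hwA hwb ha ha' haa hab hvw
          apply IH _ _ h
          rw [tight_cons, Multiset.map_cons, Multiset.sum_cons, Finset.card_pair hab]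
          refine ⟨le_refl _, ?_, ?_⟩
          · rw [Multiset.forall_mem_cons]
            exact ⟨hcard, fun C hC => hT2.2.1 C (Multiset.mem_cons_of_mem hC)⟩
          · push_cast
            linarith
        · apply good2 hst hsU htU hsD htD hT hpf hR hwU hwA hwb ha' ha haa.symm hab' hvw
          apply IH _ _ h
          rw [tight_cons, Multiset.map_cons, Multiset.sum_cons, Finset.card_pair hab']
          refine ⟨le_refl _, ?_, ?_⟩
          · rw [Multiset.forall_mem_cons]
            exact ⟨hcard, fun C hC => hT2.2.1 C (Multiset.mem_cons_of_mem hC)⟩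
          · push_cast
            linarith
    · -- type III
      obtain ⟨hAM, hwA⟩ := hmem A (by rw [hABC]; simp)
      obtain ⟨hBM, hwB⟩ := hmem B (by rw [hABC]; simp)
      obtain ⟨hCM, hwC⟩ := hmem C (by rw [hABC]; simp)
      have hM : M = A ::ₘ B ::ₘ C ::ₘ R := by
        conv_lhs => rw [filter_split M w, hABC]
        simp only [Multiset.insert_eq_cons, Multiset.cons_add, Multiset.singleton_add, hRdef]
      obtain ⟨x, hwx, hAx⟩ := card2_form hwA hcA
      obtain ⟨y, hwy, hBy⟩ := card2_form hwB hcB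
      obtain ⟨z, hwz, hCz⟩ := card2_form hwC hcC
      rw [hAx, hBy, hCz] at hM
      -- distinctness
      have hdup : ∀ (A B : Finset V), A.card = 2 → M ≠ A ::ₘ A ::ₘ B ::ₘ R := by
        intro A B hA hM'
        rw [hM'] at hT hpf
        have hRig : Rigid (A ::ₘ B ::ₘ R) U pf := by
          intro u hu hrot
          apply hpf.2 u hu
          rw [Multiset.forall_mem_cons]
          exact ⟨(Multiset.forall_mem_cons.mp hrot).1, hrot⟩
        have hT2 := tight_cons.mp hT
        have := dim_le hT2.2.1 hinj hRig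
        have h3 := hT2.2.2
        rw [hA] at h3
        push_cast at h3
        linarith
      have hxy : x ≠ y := by
        intro e
        apply hdup {w, x} {w, z} (Finset.card_pair hwx)
        rw [hM, e]
      have hyz : y ≠ z := by
        intro e
        apply hdup {w, y} {w, x} (Finset.card_pair hwy)
        rw [hM, e]
        exact ms_rot _ _ _ _
      have hxz : x ≠ z := by
        intro e
        apply hdup {w, x} {w, y} (Finset.card_pair hwx)
        rw [hM, e]
        exact ms_swap _ _ _ _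
      have main3 : ∀ x y z : V, w ≠ x → w ≠ y → w ≠ z → x ≠ y → y ≠ z → x ≠ z →
          M = {w, x} ::ₘ {w, y} ::ₘ {w, z} ::ₘ R →
          Rigid ({x, y} ::ₘ R) (U.erase w) pf → Good M U D s t v := by
        intro x y z hwx hwy hwz hxy hyz hxz hM h
        rw [hM] at hT hpf ⊢
        apply good3 hst hsU htU hsD htD hT hpf hR hwU hwx hwy hwz hxy hyz hxz hvw
        apply IH _ _ h
        have hT2 := hT
        simp only [tight_cons, Multiset.forall_mem_cons, Multiset.map_cons,
          Multiset.sum_cons] at hT2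
        obtain ⟨-, ⟨-, -, hcR⟩, hsum⟩ := hT2
        rw [Finset.card_pair hwx, Finset.card_pair hwy, Finset.card_pair hwz] at hsum
        push_cast at hsum
        rw [tight_cons, Finset.card_pair hxy]
        refine ⟨le_refl _, hcR, ?_⟩
        push_cast
        linarith
      have hpfM := hpf
      rw [hM] at hpfM
      have hcr1 : crs (pf w - pf x) (pf w - pf y) ≠ 0 := by
        have := hpf.1.2 w x y hwx hxy hwy
        intro h0
        apply this
        simp only [crs, sub_re, sub_im] at h0 ⊢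
        linarith
      rcases rigid_red3 hR hwU hwx hwy hwz (hinj w z hwz) hcr1 (hpf.1.2 x y z hxy hyz hxz)
        hpfM.2 with h | h | h
      · exact main3 x y z hwx hwy hwz hxy hyz hxz hM h
      · apply main3 y z x hwy hwz hwx hyz hxz.symm hxy.symm _ h
        rw [hM]
        exact ms_rot _ _ _ _
      · apply main3 x z y hwx hwz hwy hxz hyz.symm hxy _ h
        rw [hM]
        exact ms_swap _ _ _ _

end Pool.Agent.Lib.MP_699f60_co
end

section

set_option autoImplicit false

namespace Pool.Agent.Lib.MP_699f60_co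

open Complex Function

variable {V : Type*} [Fintype V] [DecidableEq V]

/-- The complete graph is rigid. -/
theorem complete_rigid {p u : V → ℂ} (hp : GP p) (h : ∀ e, SL p e u = 0) (A : Finset V) :
    IsRot p u A := by
  by_cases hA : ∃ a ∈ A, ∃ b ∈ A, a ≠ b
  · obtain ⟨a, ha, b, hb, hab⟩ := hA
    obtain ⟨ω, t, hr⟩ := isRot_pair (hp.1 a b hab) (h s(a, b))
    have hra := hr a (by simp)
    have hrb := hr b (by simp)
    refine ⟨ω, t, fun x _ => ?_⟩
    by_cases hxa : x = a
    · rw [hxa]; exact hra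
    by_cases hxb : x = b
    · rw [hxb]; exact hrb
    have e1 : dot (p x - p a) (u x - (ω * (I * p x) + t)) = 0 := by
      have := h s(x, a)
      rw [SL_mk, hra] at this
      have e : u x - (ω * (I * p a) + t)
          = (u x - (ω * (I * p x) + t)) + ω * (I * (p x - p a)) := by ring
      rw [e, dot_add_right, dot_I_mul, add_zero] at this
      exact this
    have e2 : dot (p x - p b) (u x - (ω * (I * p x) + t)) = 0 := by
      have := h s(x, b)
      rw [SL_mk, hrb] at this
      have e : u x - (ω * (I * p b) + t)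
          = (u x - (ω * (I * p x) + t)) + ω * (I * (p x - p b)) := by ring
      rw [e, dot_add_right, dot_I_mul, add_zero] at this
      exact this
    have hcr : crs (p x - p a) (p x - p b) ≠ 0 := by
      have := hp.2 x a b hxa hab hxb
      intro h0
      apply this
      simp only [crs, sub_re, sub_im] at h0 ⊢
      linarith
    exact sub_eq_zero.mp (eq_zero_of_dot hcr e1 e2)
  · push Not at hA
    by_cases hne : A.Nonempty
    · obtain ⟨a, ha⟩ := hne
      refine ⟨0, u a, fun x hx => ?_⟩
      rw [hA x hx a ha]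
      simp
    · rw [Finset.not_nonempty_iff_eq_empty] at hne
      subst hne
      exact ⟨0, 0, fun x hx => absurd hx (Finset.notMem_empty _)⟩

/-- The body system outside a tight union of classes. -/
theorem front {p : V → ℂ} (hp : Generic p) {E : Set (Sym2 V)} (hE : ∀ e ∈ E, ¬ e.IsDiag)
    (Z : Finset (Set (Sym2 V))) (hZ : ∀ H ∈ Z, IsClass p E H) (B : Finset V)
    (hB : ∀ H ∈ Z, vs H ⊆ B) (hB2 : 2 ≤ B.card)
    (hcount : ∑ H ∈ Z, (2 * ((vs H).card : ℤ) - 3) = 2 * B.card - 3) :
    ∃ M : Multiset (Finset V), Tight M Bᶜ ∧ Rigid M Bᶜ p ∧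
      ∀ e ∈ E, (∃ A ∈ M, ∀ x ∈ e, x ∈ A) ∨ (∀ x ∈ e, x ∈ B) := by
  classical
  have hgp := generic_gp hp
  have hinj := hgp.1
  -- a basis of `E` and its extension
  obtain ⟨T₀, hT₀⟩ := (Mx p).exists_isBasis E (by rw [Mx_E]; exact Set.subset_univ _)
  obtain ⟨S₀, hS₀, hTS₀⟩ := hT₀.indep.exists_isBase_superset
  obtain ⟨T, hT⟩ : ∃ T : Finset (Sym2 V), (T : Set (Sym2 V)) = T₀ :=
    ⟨(Set.toFinite T₀).toFinset, Set.Finite.coe_toFinset _⟩
  obtain ⟨S, hS⟩ : ∃ S : Finset (Sym2 V), (S : Set (Sym2 V)) = S₀ :=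
    ⟨(Set.toFinite S₀).toFinset, Set.Finite.coe_toFinset _⟩
  rw [← hT] at hT₀ hTS₀
  rw [← hS] at hS₀ hTS₀
  have hTS : T ⊆ S := by exact_mod_cast hTS₀
  have hTE : (T : Set (Sym2 V)) ⊆ E := hT₀.subset
  have hTI : LinearIndepOn ℝ (SL p) (T : Set (Sym2 V)) := Mx_indep.mp hT₀.indep
  have hTcl : ∀ e ∈ E, Cl p T e := fun e he => Mx_closure.mp (hT₀.subset_closure he)
  have hSI : LinearIndepOn ℝ (SL p) (S : Set (Sym2 V)) := Mx_indep.mp hS₀.indep
  have hScl : ∀ e, Cl p S e := by
    intro e
    rw [← Mx_closure, hS₀.closure_eq, Mx_E]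
    exact Set.mem_univ _
  have hSd : ∀ e ∈ S, ¬ e.IsDiag := by
    intro e he hd
    obtain ⟨u, -, hu⟩ := indep_iff.mp hSI e he
    exact hu (SL_diag hd u)
  obtain ⟨a, ha, b, hb, hab⟩ := Finset.one_lt_card.mp hB2
  have hScard : S.card + 3 = 2 * (Finset.univ : Finset V).card := by
    apply card_of_rigidOn (p := p) (F := S) (A := Finset.univ)
    · exact ⟨a, Finset.mem_univ _, b, Finset.mem_univ _, hinj a b hab⟩
    · intro e _ x _; exact Finset.mem_univ _
    · exact hSI
    · intro u hu
      exact complete_rigid hgp (fun e => hScl e u hu) _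
  -- the classes
  obtain ⟨HH, hHH⟩ : ∃ HH : Finset (Set (Sym2 V)), ∀ H, H ∈ HH ↔ IsClass p E H :=
    ⟨(Set.toFinite {H | IsClass p E H}).toFinset, fun H => by
      rw [Set.Finite.mem_toFinset, Set.mem_ofPred_eq]⟩
  have hZH : Z ⊆ HH := fun H hH => (hHH H).mpr (hZ H hH)
  have hfib : ∀ H ∈ HH, ((T.filter (fun e => {f | f ∈ E ∧ Rl p E e f} = H)).card : ℤ)
      = 2 * ((vs H).card : ℤ) - 3 := by
    intro H hH
    have hHc := (hHH H).mp hH
    have h1 := hHc.card hp hE hTE hTI hTcl
      (TH := T.filter (fun e => {f | f ∈ E ∧ Rl p E e f} = H)) (by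
        intro e
        rw [Finset.mem_filter]
        constructor
        · rintro ⟨h1, h2⟩
          refine ⟨h1, ?_⟩
          rw [← h2]
          exact ⟨hTE h1, Or.inl rfl⟩
        · rintro ⟨h1, h2⟩
          exact ⟨h1, (hHc.eq_of_mem h2).symm⟩)
    have h2 : ((T.filter (fun e => {f | f ∈ E ∧ Rl p E e f} = H)).card : ℤ) + 3
        = 2 * ((vs H).card : ℤ) := by exact_mod_cast h1
    linarith
  have hTsum : (T.card : ℤ) = ∑ H ∈ HH, (2 * ((vs H).card : ℤ) - 3) := by
    rw [Finset.card_eq_sum_card_fiberwise (f := fun e => {f | f ∈ E ∧ Rl p E e f}) (t := HH)]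
    · push_cast
      exact Finset.sum_congr rfl hfib
    · intro e he
      rw [Finset.mem_coe, hHH]
      exact ⟨e, hTE he, rfl⟩
  refine ⟨(HH \ Z).val.map vs + (S \ T).val.map Sym2.toFinset, ⟨?_, ?_⟩, ?_, ?_⟩
  · intro A hA
    rw [Multiset.mem_add, Multiset.mem_map, Multiset.mem_map] at hA
    rcases hA with ⟨H, hH, rfl⟩ | ⟨e, he, rfl⟩
    · rw [Finset.mem_val, Finset.mem_sdiff] at hH
      have hHc := (hHH H).mp hH.1
      obtain ⟨e₀, he₀⟩ := hHc.nonempty
      have hd := hE e₀ (hHc.subset he₀)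
      induction e₀ using Sym2.ind with
      | _ x y =>
      rw [Sym2.mk_isDiag_iff] at hd
      apply Finset.one_lt_card.mpr
      exact ⟨x, mem_vs.mpr ⟨_, he₀, by simp⟩, y, mem_vs.mpr ⟨_, he₀, by simp⟩, hd⟩
    · rw [Finset.mem_val, Finset.mem_sdiff] at he
      rw [Sym2.card_toFinset_of_not_isDiag _ (hSd e he.1)]
  · rw [Multiset.map_add, Multiset.sum_add, Multiset.map_map, Multiset.map_map]
    have h1 : (Multiset.map ((fun A : Finset V => 2 * (A.card : ℤ) - 3) ∘ vs)
        (HH \ Z).val).sum = ∑ H ∈ HH \ Z, (2 * ((vs H).card : ℤ) - 3) := rfl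
    have h2 : (Multiset.map ((fun A : Finset V => 2 * (A.card : ℤ) - 3) ∘ Sym2.toFinset)
        (S \ T).val).sum = ∑ e ∈ S \ T, (2 * ((Sym2.toFinset e).card : ℤ) - 3) := rfl
    rw [h1, h2]
    have h3 : ∑ e ∈ S \ T, (2 * ((Sym2.toFinset e).card : ℤ) - 3) = (S.card : ℤ) - T.card := by
      rw [Finset.sum_congr rfl (g := fun _ => (1 : ℤ))]
      · rw [Finset.sum_const, Finset.card_sdiff_of_subset hTS, nsmul_eq_mul, mul_one,
          Nat.cast_sub (Finset.card_le_card hTS)]
      · intro e he
        rw [Finset.mem_sdiff] at he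
        rw [Sym2.card_toFinset_of_not_isDiag _ (hSd e he.1)]
        norm_num
    have h4 := Finset.sum_sdiff hZH (f := fun H => (2 * ((vs H).card : ℤ) - 3))
    have h5 : ((Bᶜ).card : ℤ) = (Finset.univ : Finset V).card - B.card := by
      rw [Finset.card_compl, Nat.cast_sub (Finset.card_le_univ B), Finset.card_univ]
    have h6 : (S.card : ℤ) + 3 = 2 * ((Finset.univ : Finset V).card : ℤ) := by
      exact_mod_cast hScard
    rw [h3, h5]
    linarith
  · intro u hu hrot
    have huB : ∀ x ∈ B, u x = 0 := fun x hx => hu x (by simpa using hx)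
    have hTz : ∀ e ∈ S, SL p e u = 0 := by
      intro e he
      by_cases heT : e ∈ T
      · obtain ⟨H, hH, heH⟩ := exists_class (p := p) (hTE heT)
        by_cases hHZ : H ∈ Z
        · have : SL p e u = SL p e 0 := by
            apply SL_congr (fun _ _ => rfl)
            intro x hx
            rw [Pi.zero_apply]
            exact huB x (hB H hHZ (mem_vs.mpr ⟨e, heH, hx⟩))
          rw [this, map_zero]
        · have := hrot (vs H) (by
            rw [Multiset.mem_add]
            left
            rw [Multiset.mem_map]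
            refine ⟨H, ?_, rfl⟩
            rw [Finset.mem_val, Finset.mem_sdiff]
            exact ⟨(hHH H).mpr hH, hHZ⟩)
          exact this.SL_eq (fun x hx => mem_vs.mpr ⟨e, heH, hx⟩)
      · have := hrot (Sym2.toFinset e) (by
            rw [Multiset.mem_add]
            right
            rw [Multiset.mem_map]
            refine ⟨e, ?_, rfl⟩
            rw [Finset.mem_val, Finset.mem_sdiff]
            exact ⟨he, heT⟩)
        exact this.SL_eq (fun x hx => Sym2.mem_toFinset.mpr hx)
    have hall := complete_rigid (u := u) hgp (fun e => hScl e u hTz) Finset.univ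
    intro x
    exact hall.eq_zero (Finset.mem_univ a) (Finset.mem_univ b) (hinj a b hab) (huB a ha)
      (huB b hb) x (Finset.mem_univ x)
  · intro e he
    obtain ⟨H, hH, heH⟩ := exists_class (p := p) he
    by_cases hHZ : H ∈ Z
    · right
      intro x hx
      exact hB H hHZ (mem_vs.mpr ⟨e, heH, hx⟩)
    · left
      refine ⟨vs H, ?_, fun x hx => mem_vs.mpr ⟨e, heH, hx⟩⟩
      rw [Multiset.mem_add]
      left
      rw [Multiset.mem_map]
      refine ⟨H, ?_, rfl⟩
      rw [Finset.mem_val, Finset.mem_sdiff]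
      exact ⟨(hHH H).mpr hH, hHZ⟩

end Pool.Agent.Lib.MP_699f60_co
end

section

set_option autoImplicit false

namespace Pool.Agent.Lib.MP_699f60_co

open Complex Function Topology

variable {V : Type*} [Fintype V] [DecidableEq V]

theorem normSq_mir {a b : ℂ} (h : a ≠ b) (z w : ℂ) :
    normSq (mir a b z - mir a b w) = normSq (z - w) := by
  have h1 : mir a b z - mir a b w
      = (b - a) / (starRingEnd ℂ) (b - a) * (starRingEnd ℂ) (z - w) := by
    simp only [mir, map_sub]
    ring
  rw [h1, normSq_mul, mir_coeff h, one_mul, normSq_conj]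

/-- Moving `v` by a ground motion. -/
theorem move {p : V → ℂ} (hp : Generic p) {E : Set (Sym2 V)} (hE : ∀ e ∈ E, ¬ e.IsDiag)
    (Z : Finset (Set (Sym2 V))) (hZ : ∀ H ∈ Z, IsClass p E H) (B : Finset V)
    (hB : ∀ H ∈ Z, vs H ⊆ B)
    (hcount : ∑ H ∈ Z, (2 * ((vs H).card : ℤ) - 3) = 2 * B.card - 3)
    {D : Finset V} (hDB : D ⊆ B) {s t : V} (hsB : s ∈ B) (htB : t ∈ B) (hst : s ≠ t)
    (hsD : s ∉ D) (htD : t ∉ D)
    (hDE : ∀ x y, s(x, y) ∈ E → x ∈ B → y ∈ B → x ∈ D → y ∈ D ∨ y = s ∨ y = t)
    {v : V} (hv : (v ∉ B ∧ D = ∅) ∨ v ∈ D) {P : Finset V} (hPB : ∀ x ∈ P, x ∈ B ∧ x ∉ D) :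
    ∃ p' q : V → ℂ, Generic p' ∧ (∀ x ∈ P, q x = p' x) ∧
      (∀ x y, s(x, y) ∈ E → normSq (q x - q y) = normSq (p' x - p' y)) ∧ q v ≠ p' v := by
  have hB2 : 2 ≤ B.card := Finset.one_lt_card.mpr ⟨s, hsB, t, htB, hst⟩
  obtain ⟨M, hT, hR, hM⟩ := front hp hE Z hZ B hB hB2 hcount
  have hsU : s ∉ Bᶜ := by simpa using hsB
  have htU : t ∉ Bᶜ := by simpa using htB
  have hv' : (v ∈ Bᶜ ∧ D = ∅) ∨ (v ∈ D ∧ v ∉ Bᶜ) := by
    rcases hv with h | h
    · left; exact ⟨by simpa using h.1, h.2⟩
    · right; exact ⟨h, by simpa using hDB h⟩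
  obtain ⟨p₁, q₁, hp₁, hq₁, hRel, hne⟩ := ext_main _ M Bᶜ D s t v rfl hst hsU htU hsD htD hv' hT
    p ⟨generic_gp hp, hR⟩
  obtain ⟨O₁, O₂, hO₁, hO₂, hm₁, hm₂, hdis⟩ := t2_separation hne
  have hO₁' : {q : V → ℂ | q v ∈ O₁} ∈ 𝓝 q₁ :=
    (continuous_apply v).continuousAt.preimage_mem_nhds (hO₁.mem_nhds hm₁)
  have hO₂' : {p : V → ℂ | p v ∈ O₂} ∈ 𝓝 p₁ :=
    (continuous_apply v).continuousAt.preimage_mem_nhds (hO₂.mem_nhds hm₂)
  have h1 := pl hsU htU hsD htD hT hRel (hq₁.1.1 s t hst) (nc_of_inj hT.1 hq₁.1.1) hq₁.2 hO₁'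
  obtain ⟨p', ⟨⟨q, hqO, hRel'⟩, hpO⟩, hp'⟩ := exists_generic_near p₁
    (Filter.inter_mem h1 hO₂')
  have hgp' := generic_gp hp'
  have hgm : ∀ x, x ∈ B → q x = gm D s t p' x := fun x hx => hRel'.1 x (by simpa using hx)
  refine ⟨p', q, hp', ?_, ?_, ?_⟩
  · intro x hx
    rw [hgm x (hPB x hx).1]
    simp only [gm, (hPB x hx).2, if_false]
  · intro x y hxy
    rcases hM _ hxy with ⟨A, hA, hAx⟩ | hBx
    · exact (hRel'.2 A hA).normSq_sub (hAx x (by simp)) (hAx y (by simp))
    · have hx := hBx x (by simp)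
      have hy := hBx y (by simp)
      have hps := hgp'.1 s t hst
      have hmir : ∀ z, z ∈ B → (z ∈ D ∨ z = s ∨ z = t) → q z = mir (p' s) (p' t) (p' z) := by
        intro z hz h
        rw [hgm z hz]
        rcases h with h | rfl | rfl
        · simp only [gm, h, if_true]
        · simp only [gm, hsD, if_false, mir_left]
        · simp only [gm, htD, if_false, mir_right]
      by_cases hxD : x ∈ D
      · rw [hmir x hx (Or.inl hxD), hmir y hy (hDE x y hxy hx hy hxD), normSq_mir hps]
      · by_cases hyD : y ∈ D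
        · rw [hmir y hy (Or.inl hyD),
            hmir x hx (hDE y x (by rw [Sym2.eq_swap]; exact hxy) hy hx hyD), normSq_mir hps]
        · rw [hgm x hx, hgm y hy]
          simp only [gm, hxD, hyD, if_false]
  · intro h0
    have h3 : q v ∈ O₁ := hqO
    have h4 : p' v ∈ O₂ := hpO
    rw [h0] at h3
    exact Set.disjoint_left.mp hdis h3 h4

/-- The four-point circuit. -/
theorem k4_same {p : V → ℂ} (hp : Generic p) {E H : Set (Sym2 V)} (hH : IsClass p E H)
    {a b c d : V} (hab : a ≠ b) (hac : a ≠ c) (had : a ≠ d) (hbc : b ≠ c) (hbd : b ≠ d)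
    (hcd : c ≠ d) (h1 : s(a, b) ∈ E) (h2 : s(a, c) ∈ E) (h3 : s(a, d) ∈ E)
    (h4 : s(b, c) ∈ E) (h5 : s(b, d) ∈ E) (h6 : s(c, d) ∈ E) (hHab : s(a, b) ∈ H) :
    s(a, c) ∈ H := by
  have hgp := generic_gp hp
  obtain ⟨F, hF⟩ : ∃ F : Finset (Sym2 V),
    F = {s(a, b), s(a, c), s(a, d), s(b, c), s(b, d), s(c, d)} := ⟨_, rfl⟩
  have hFcard : F.card = 6 := by
    rw [hF]
    rw [Finset.card_insert_of_notMem, Finset.card_insert_of_notMem,
      Finset.card_insert_of_notMem, Finset.card_insert_of_notMem,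
      Finset.card_insert_of_notMem, Finset.card_singleton]
    · simp [hab, hac, had, hbc, hbd, hcd, hab.symm, hac.symm, had.symm, hbc.symm, hbd.symm,
        hcd.symm]
    · simp [hab, hac, had, hbc, hbd, hcd, hab.symm, hac.symm, had.symm, hbc.symm, hbd.symm,
        hcd.symm]
    · simp [hab, hac, had, hbc, hbd, hcd, hab.symm, hac.symm, had.symm, hbc.symm, hbd.symm,
        hcd.symm]
    · simp [hab, hac, had, hbc, hbd, hcd, hab.symm, hac.symm, had.symm, hbc.symm, hbd.symm,
        hcd.symm]
    · simp [hab, hac, had, hbc, hbd, hcd, hab.symm, hac.symm, had.symm, hbc.symm, hbd.symm,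
        hcd.symm]
  have hFE : (F : Set (Sym2 V)) ⊆ E := by
    intro e he
    rw [hF] at he
    simp only [Finset.coe_insert, Finset.coe_singleton, Set.mem_insert_iff,
      Set.mem_singleton_iff] at he
    rcases he with rfl | rfl | rfl | rfl | rfl | rfl <;> assumption
  have hFA : ∀ e ∈ F, ∀ x ∈ e, x ∈ ({a, b, c, d} : Finset V) := by
    intro e he x hx
    rw [hF] at he
    simp only [Finset.mem_insert, Finset.mem_singleton] at he
    rcases he with rfl | rfl | rfl | rfl | rfl | rfl <;>
    · have := Sym2.mem_iff.mp hx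
      simp only [Finset.mem_insert, Finset.mem_singleton]
      tauto
  have hdep : ¬ LinearIndepOn ℝ (SL p) (F : Set (Sym2 V)) := by
    intro hI
    have := indep_card_le (p := p) (F := F) (A := {a, b, c, d})
      ⟨a, by simp, b, by simp, hgp.1 a b hab⟩ hFA hI
    have h4 : ({a, b, c, d} : Finset V).card ≤ 4 := Finset.card_le_four
    omega
  rw [← Mx_indep, Matroid.not_indep_iff (by rw [Mx_E]; exact Set.subset_univ _)] at hdep
  obtain ⟨C, hCF, hC⟩ := hdep.exists_isCircuit_subset
  have hd : ∀ e ∈ C, ¬ e.IsDiag := by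
    intro e he
    have := hCF he
    rw [hF] at this
    simp only [Finset.coe_insert, Finset.coe_singleton, Set.mem_insert_iff,
      Set.mem_singleton_iff] at this
    rcases this with rfl | rfl | rfl | rfl | rfl | rfl <;> rw [Sym2.mk_isDiag_iff] <;> assumption
  -- every vertex of `C` has all its three edges
  have hfull : ∀ z, z ∈ vs C → ∀ w ∈ ({a, b, c, d} : Finset V), w ≠ z → s(z, w) ∈ C := by
    intro z hz w hw hwz
    by_contra hcon
    obtain ⟨e, he, hze⟩ := mem_vs.mp hz
    obtain ⟨x, rfl⟩ := Sym2.mem_iff_exists.mp hze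
    have hzx : z ≠ x := by
      intro e'; exact hd _ he (by rw [Sym2.mk_isDiag_iff]; exact e')
    have hzA := hFA _ (hCF he) z (by simp)
    have hxA := hFA _ (hCF he) x (by simp)
    -- the remaining vertex
    have hxw : x ≠ w := by rintro rfl; exact hcon he
    obtain ⟨e₂, he₂, hze₂, hne₂, -⟩ := min_degree hgp hC hd (y := x) he
    obtain ⟨y, rfl⟩ := Sym2.mem_iff_exists.mp hze₂
    obtain ⟨e₃, he₃, hze₃, hne₃, hne₃'⟩ := min_degree hgp hC hd (y := y) he
    obtain ⟨t, rfl⟩ := Sym2.mem_iff_exists.mp hze₃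
    have hzy : z ≠ y := by
      intro e'; exact hd _ he₂ (by rw [Sym2.mk_isDiag_iff]; exact e')
    have hzt : z ≠ t := by
      intro e'; exact hd _ he₃ (by rw [Sym2.mk_isDiag_iff]; exact e')
    have hyA := hFA _ (hCF he₂) y (by simp)
    have htA := hFA _ (hCF he₃) t (by simp)
    have hxy : x ≠ y := by rintro rfl; exact hne₂ rfl
    have hxt : x ≠ t := by rintro rfl; exact hne₃ rfl
    have hyt : y ≠ t := by rintro rfl; exact hne₃' rfl
    have hyw : y ≠ w := by rintro rfl; exact hcon he₂
    have htw : t ≠ w := by rintro rfl; exact hcon he₃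
    have h5 : ({z, x, y, t, w} : Finset V) ⊆ {a, b, c, d} := by
      intro k hk
      simp only [Finset.mem_insert, Finset.mem_singleton] at hk
      rcases hk with rfl | rfl | rfl | rfl | rfl <;> assumption
    have h6 := Finset.card_le_card h5
    have h7 : ({z, x, y, t, w} : Finset V).card = 5 := by
      rw [Finset.card_insert_of_notMem, Finset.card_insert_of_notMem,
        Finset.card_insert_of_notMem, Finset.card_insert_of_notMem, Finset.card_singleton]
      · simpa using htw
      · simp [hyt, hyw]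
      · simp [hxy, hxt, hxw]
      · simp [hzx, hzy, hzt, hwz.symm]
    have h8 : ({a, b, c, d} : Finset V).card ≤ 4 := Finset.card_le_four
    omega
  have haC : a ∈ vs C := by
    obtain ⟨e, he⟩ := hC.nonempty
    induction e using Sym2.ind with
    | _ x y =>
    have hx : x ∈ vs C := mem_vs.mpr ⟨_, he, by simp⟩
    by_cases hax : a = x
    · rw [hax]; exact hx
    · exact mem_vs.mpr ⟨_, hfull x hx a (by simp) hax, by simp⟩
  have hCE : C ⊆ E := hCF.trans hFE
  exact hH.circuit_subset hC hCE (hfull a haC b (by simp) hab.symm) hHab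
    (hfull a haC c (by simp) hac.symm)

end Pool.Agent.Lib.MP_699f60_co
end

section

set_option autoImplicit false

namespace Pool.Agent.Lib.MP_699f60_co

open Complex Function Topology

variable {V : Type*} [Fintype V] [DecidableEq V]

/-- Unique localizability, for placements in `ℂ`. -/
def Loc (E : Set (Sym2 V)) (P : Finset V) (v : V) : Prop :=
  ∀ p q : V → ℂ, Generic p → (∀ x ∈ P, q x = p x) →
    (∀ x y, s(x, y) ∈ E → normSq (q x - q y) = normSq (p x - p y)) → q v = p v

/-- Three openly disjoint paths. -/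
def Kap3 (H : SimpleGraph V) (v b : V) : Prop :=
  ∃ w : Fin 3 → H.Walk v b, (∀ i, (w i).IsPath) ∧ ∀ i j, i ≠ j → w i ≠ w j ∧
    ∀ z, z ∈ (w i).support → z ∈ (w j).support → z = v ∨ z = b

theorem loc_card {p : V → ℂ} (hp : Generic p) {E : Set (Sym2 V)} {P : Finset V} {v : V}
    (hvP : v ∉ P) (hLoc : Loc E P v) : 3 ≤ P.card := by
  have hgp := generic_gp hp
  by_contra hcon
  have h3 : P.card = 0 ∨ P.card = 1 ∨ P.card = 2 := by omega
  rcases h3 with h | h | h
  · rw [Finset.card_eq_zero] at h
    subst h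
    have := hLoc p (fun x => p x + 1) hp (fun x hx => absurd hx (Finset.notMem_empty _))
      (fun x y _ => by rw [add_sub_add_right_eq_sub])
    simp at this
  · obtain ⟨a, rfl⟩ := Finset.card_eq_one.mp h
    have hva : v ≠ a := by simpa using hvP
    have := hLoc p (fun x => 2 * p a - p x) hp (fun x hx => by
      rw [Finset.mem_singleton] at hx
      subst hx
      ring) (fun x y _ => by
      have : 2 * p a - p x - (2 * p a - p y) = -(p x - p y) := by ring
      rw [this, normSq_neg])
    apply hgp.1 v a hva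
    linear_combination (-1 / 2 : ℂ) * this
  · obtain ⟨a, b, hab, rfl⟩ := Finset.card_eq_two.mp h
    have hvab : v ≠ a ∧ v ≠ b := by
      simp only [Finset.mem_insert, Finset.mem_singleton, not_or] at hvP
      exact hvP
    have := hLoc p (fun x => mir (p a) (p b) (p x)) hp (fun x hx => by
      simp only [Finset.mem_insert, Finset.mem_singleton] at hx
      rcases hx with rfl | rfl
      · exact mir_left _ _
      · exact mir_right _ _) (fun x y _ => normSq_mir (hgp.1 a b hab) _ _)
    exact mir_ne (hgp.2 a b v hab hvab.2.symm hvab.1.symm) this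

section cases

variable {p : V → ℂ} {E H : Set (Sym2 V)} {P : Finset V} {v b : V}

/-- `v` outside the class containing `P`. -/
theorem case_out (hp : Generic p) (hE : ∀ e ∈ E, ¬ e.IsDiag) (hH : IsClass p E H)
    (hPH : ∀ x ∈ P, x ∈ vs H) (hPc : 3 ≤ P.card) (hv : v ∉ vs H) : ¬ Loc E P v := by
  intro hLoc
  obtain ⟨s, hs, t, ht, hst⟩ := Finset.one_lt_card.mp (show 1 < P.card by omega)
  obtain ⟨p', q, hp', h1, h2, h3⟩ := move hp hE {H} (by simpa using hH) (vs H) (by simp)
    (by simp) (D := ∅) (Finset.empty_subset _) (hPH s hs) (hPH t ht) hst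
    (Finset.notMem_empty _) (Finset.notMem_empty _)
    (fun x y _ _ _ hx => absurd hx (Finset.notMem_empty _)) (v := v) (Or.inl ⟨hv, rfl⟩)
    (P := P) (fun x hx => ⟨hPH x hx, Finset.notMem_empty _⟩)
  exact h3 (hLoc p' q hp' h1 h2)

/-- `v` in the class containing `P`, with a small separator. -/
theorem case_sep (hp : Generic p) (hE : ∀ e ∈ E, ¬ e.IsDiag) (hH : IsClass p E H)
    (hPH : ∀ x ∈ P, x ∈ vs H) (hPc : 3 ≤ P.card) (hPE : ∀ x ∈ P, ∀ y ∈ P, x ≠ y → s(x, y) ∈ E)
    (hv : v ∈ vs H) (hvP : v ∉ P) (hb : b ∈ P)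
    (hk : ¬ Kap3 (SimpleGraph.fromEdgeSet H) v b) : ¬ Loc E P v := by
  intro hLoc
  have hgp := generic_gp hp
  have hvb : v ≠ b := fun e => hvP (e ▸ hb)
  obtain ⟨S, D₀, hvS, hbS, hcase, hvD₀, hbD₀, hdis, hcl⟩ := exists_sep _ hvb hk
  -- edges of the class
  have hHmem : ∀ x y, s(x, y) ∈ E → x ∈ vs H → y ∈ vs H → s(x, y) ∈ H := by
    intro x y hxy hx hy
    apply hH.mem_of_vs hp hE hxy
    intro w hw
    have : w = x ∨ w = y := by simpa using hw
    rcases this with rfl | rfl
    · exact hx
    · exact hy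
  have hadj : ∀ x y, (SimpleGraph.fromEdgeSet H).Adj x y ↔ s(x, y) ∈ H := by
    intro x y
    rw [SimpleGraph.fromEdgeSet_adj]
    constructor
    · exact fun h => h.1
    · intro h
      refine ⟨h, fun e => ?_⟩
      exact hE _ (hH.subset h) (by rw [Sym2.mk_isDiag_iff]; exact e)
  have hPH' : ∀ x ∈ P, ∀ y ∈ P, x ≠ y → s(x, y) ∈ H := fun x hx y hy hxy =>
    hHmem x y (hPE x hx y hy hxy) (hPH x hx) (hPH y hy)
  -- `P` does not meet `D₀`
  have hPD : ∀ x ∈ P, x ∉ D₀ := by
    intro x hx hxD
    by_cases hxb : x = b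
    · exact hbD₀ (hxb ▸ hxD)
    · have hxv : x ≠ v := fun e => hvP (e ▸ hx)
      rcases hcl x hxD b ((hadj x b).mpr (hPH' x hx b hb hxb)) (fun h => hxv h.1) with h | h
      · exact hbD₀ h
      · exact hbS h
  rcases hcase with ⟨hnadj, hS2⟩ | ⟨hadjvb, hS1⟩
  · -- a two-separator
    obtain ⟨W, hW1, hW2, hW3⟩ := Finset.exists_subsuperset_card_eq
      (s := S ∩ vs H) (t := (vs H) \ D₀) (n := 2) (by
        intro x hx
        rw [Finset.mem_inter] at hx
        rw [Finset.mem_sdiff]
        exact ⟨hx.2, fun h => Finset.disjoint_left.mp hdis h hx.1⟩)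
      (le_trans (Finset.card_le_card Finset.inter_subset_left) hS2) (by
        have h1 : P ⊆ (vs H) \ D₀ := fun x hx => by
          rw [Finset.mem_sdiff]; exact ⟨hPH x hx, hPD x hx⟩
        have := Finset.card_le_card h1
        omega)
    obtain ⟨s, t, hst, rfl⟩ := Finset.card_eq_two.mp hW3
    have hs := hW2 (show s ∈ ({s, t} : Finset V) by simp)
    have ht := hW2 (show t ∈ ({s, t} : Finset V) by simp)
    rw [Finset.mem_sdiff] at hs ht
    obtain ⟨p', q, hp', h1, h2, h3⟩ := move hp hE {H} (by simpa using hH) (vs H) (by simp)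
      (by simp) (D := D₀ ∩ vs H) Finset.inter_subset_right hs.1 ht.1 hst
      (fun h => hs.2 (Finset.mem_inter.mp h).1) (fun h => ht.2 (Finset.mem_inter.mp h).1)
      (by
        intro x y hxy hx hy hxD
        rw [Finset.mem_inter] at hxD
        have hxyH := hHmem x y hxy hx hy
        rcases hcl x hxD.1 y ((hadj x y).mpr hxyH) (by
          rintro ⟨rfl, rfl⟩
          exact hnadj ((hadj _ _).mpr hxyH)) with h | h
        · left; exact Finset.mem_inter.mpr ⟨h, hy⟩
        · right
          have := hW1 (Finset.mem_inter.mpr ⟨h, hy⟩)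
          simpa using this)
      (v := v) (Or.inr (Finset.mem_inter.mpr ⟨hvD₀, hv⟩))
      (P := P) (fun x hx => ⟨hPH x hx, fun h => hPD x hx (Finset.mem_inter.mp h).1⟩)
    exact h3 (hLoc p' q hp' h1 h2)
  · -- the edge `vb` is present: contradiction with rigidity
    rw [hadj] at hadjvb
    obtain ⟨s, hsB, hsD, hsb, hsS⟩ : ∃ s, s ∈ vs H ∧ s ∉ D₀ ∧ s ≠ b ∧
        ∀ x ∈ S, x ∈ vs H → x = s := by
      by_cases hSe : ∃ x ∈ S, x ∈ vs H
      · obtain ⟨x, hxS, hxH⟩ := hSe
        refine ⟨x, hxH, fun h => Finset.disjoint_left.mp hdis h hxS,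
          fun e => hbS (e ▸ hxS), fun y hy _ => ?_⟩
        exact Finset.card_le_one.mp hS1 y hy x hxS
      · push Not at hSe
        obtain ⟨x, hx, y, hy, hxy⟩ := Finset.one_lt_card.mp (show 1 < P.card by omega)
        by_cases hxb : x = b
        · refine ⟨y, hPH y hy, hPD y hy, fun e => hxy (hxb.trans e.symm), ?_⟩
          intro z hz hzH
          exact absurd hzH (hSe z hz)
        · refine ⟨x, hPH x hx, hPD x hx, hxb, ?_⟩
          intro z hz hzH
          exact absurd hzH (hSe z hz)
    -- another element of the class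
    obtain ⟨f, hf, hfne⟩ : ∃ f ∈ H, f ≠ s(v, b) := by
      obtain ⟨x, hx, y, hy, hxy⟩ := Finset.one_lt_card.mp (show 1 < P.card by omega)
      refine ⟨s(x, y), hPH' x hx y hy hxy, ?_⟩
      intro e
      rw [Sym2.eq_iff] at e
      rcases e with ⟨h, -⟩ | ⟨-, h⟩
      · exact hvP (h ▸ hx)
      · exact hvP (h ▸ hy)
    have hf' := hf
    rw [hH.eq_of_mem hadjvb] at hf'
    rcases hf'.2 with h | ⟨C, hC, hCE, h1, h2⟩
    · exact hfne h.symm
    have hCH := hH.circuit_subset hC hCE h1 hadjvb
    have hclvb : Cl p (H \ {s(v, b)}) s(v, b) := (circuit_cl hC h1).mono (by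
      intro e he
      exact ⟨hCH he.1, he.2⟩)
    -- the motion
    obtain ⟨u, hu⟩ : ∃ u : V → ℂ, u = fun x => if x ∈ D₀ then I * (p x - p s) else 0 := ⟨_, rfl⟩
    have hz : ∀ e ∈ H \ {s(v, b)}, SL p e u = 0 := by
      rintro e ⟨heH, hene⟩
      rw [Set.mem_singleton_iff] at hene
      -- one end in `D₀`, the other not
      have key : ∀ x y, s(x, y) ∈ H → s(x, y) ≠ s(v, b) → x ∈ D₀ → y ∉ D₀ → y = s := by
        intro x y hxy hne hx hy
        rcases hcl x hx y ((hadj x y).mpr hxy) (by
          rintro ⟨rfl, rfl⟩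
          exact hne rfl) with h | h
        · exact absurd h hy
        · exact hsS y h (mem_vs.mpr ⟨_, hxy, by simp⟩)
      induction e using Sym2.ind with
      | _ x y =>
      rw [SL_mk, hu]
      by_cases hx : x ∈ D₀
      · by_cases hy : y ∈ D₀
        · simp only [hx, hy, if_true]
          have e1 : I * (p x - p s) - I * (p y - p s) = (1 : ℝ) * (I * (p x - p y)) := by
            push_cast
            ring
          rw [e1, dot_I_mul]
        · have hys := key x y heH hene hx hy
          simp only [hx, hy, if_true, if_false]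
          have e1 : I * (p x - p s) - 0 = (1 : ℝ) * (I * (p x - p y)) := by
            rw [hys]
            push_cast
            ring
          rw [e1, dot_I_mul]
      · by_cases hy : y ∈ D₀
        · have hxs := key y x (by rw [Sym2.eq_swap]; exact heH)
            (by rw [Sym2.eq_swap]; exact hene) hy hx
          simp only [hx, hy, if_true, if_false]
          have e1 : 0 - I * (p y - p s) = (1 : ℝ) * (I * (p x - p y)) := by
            rw [hxs]
            push_cast
            ring
          rw [e1, dot_I_mul]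
        · simp only [hx, hy, if_false, sub_self]
          exact dot_zero_right _
    have hz' : ∀ e ∈ H, SL p e u = 0 := by
      intro e he
      by_cases hee : e = s(v, b)
      · rw [hee]
        exact hclvb u hz
      · exact hz e ⟨he, hee⟩
    have hrot := hH.rigid hp hE u hz'
    have hsv : v ≠ s := fun e => hsD (e ▸ hvD₀)
    have huv := hrot.eq_zero hsB (hPH b hb) (hgp.1 s b hsb) (by
      rw [hu]; simp [hsD]) (by rw [hu]; simp [hbD₀]) v hv
    rw [hu] at huv
    simp only [hvD₀, if_true] at huv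
    rcases mul_eq_zero.mp huv with h | h
    · exact I_ne_zero h
    · exact hgp.1 v s hsv (sub_eq_zero.mp h)

end cases

end Pool.Agent.Lib.MP_699f60_co
end

section

set_option autoImplicit false

namespace Pool.Agent.Lib.MP_699f60_co

open Complex Function Topology

variable {V : Type*} [Fintype V] [DecidableEq V]

section tri

variable {p : V → ℂ} {E H₁ H₂ H₃ : Set (Sym2 V)} {v a b c : V}

/-- The three classes of a triangle. -/
theorem case_tri (hp : Generic p) (hE : ∀ e ∈ E, ¬ e.IsDiag) (hH₁ : IsClass p E H₁)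
    (hH₂ : IsClass p E H₂) (hH₃ : IsClass p E H₃) (h12 : H₁ ≠ H₂) (h23 : H₂ ≠ H₃)
    (h13 : H₁ ≠ H₃) (hab : a ≠ b) (hbc : b ≠ c) (hac : a ≠ c) (ha1 : a ∈ vs H₁)
    (hb1 : b ∈ vs H₁) (hb2 : b ∈ vs H₂) (hc2 : c ∈ vs H₂) (hc3 : c ∈ vs H₃)
    (ha3 : a ∈ vs H₃) (hva : v ≠ a) (hvb : v ≠ b) (hvc : v ≠ c)
    (hcase : v ∈ vs H₁ ∨ v ∉ vs H₁ ∪ vs H₂ ∪ vs H₃) : ¬ Loc E {a, b, c} v := by
  classical
  intro hLoc
  have hgp := generic_gp hp
  -- intersections
  have i12 : vs H₁ ∩ vs H₂ = {b} := by
    ext x
    rw [Finset.mem_inter, Finset.mem_singleton]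
    constructor
    · exact fun h => hH₁.share hp hE hH₂ h12 h.1 h.2 hb1 hb2
    · rintro rfl; exact ⟨hb1, hb2⟩
  have i23 : vs H₂ ∩ vs H₃ = {c} := by
    ext x
    rw [Finset.mem_inter, Finset.mem_singleton]
    constructor
    · exact fun h => hH₂.share hp hE hH₃ h23 h.1 h.2 hc2 hc3
    · rintro rfl; exact ⟨hc2, hc3⟩
  have i13 : vs H₁ ∩ vs H₃ = {a} := by
    ext x
    rw [Finset.mem_inter, Finset.mem_singleton]
    constructor
    · exact fun h => hH₁.share hp hE hH₃ h13 h.1 h.2 ha1 ha3
    · rintro rfl; exact ⟨ha1, ha3⟩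
  have hc1 : c ∉ vs H₁ := by
    intro h
    have : c ∈ vs H₁ ∩ vs H₂ := Finset.mem_inter.mpr ⟨h, hc2⟩
    rw [i12, Finset.mem_singleton] at this
    exact hbc this.symm
  obtain ⟨B, hBdef⟩ : ∃ B, B = vs H₁ ∪ vs H₂ ∪ vs H₃ := ⟨_, rfl⟩
  have hBc : (B.card : ℤ) = (vs H₁).card + (vs H₂).card + (vs H₃).card - 3 := by
    have e1 := Finset.card_union_add_card_inter (vs H₁) (vs H₂)
    have e2 := Finset.card_union_add_card_inter (vs H₁ ∪ vs H₂) (vs H₃)
    have e3 : (vs H₁ ∪ vs H₂) ∩ vs H₃ = {a, c} := by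
      rw [Finset.union_inter_distrib_right, i13, i23]
      rfl
    rw [i12, Finset.card_singleton] at e1
    rw [e3, Finset.card_pair hac] at e2
    rw [hBdef]
    have e1' : (((vs H₁ ∪ vs H₂).card : ℤ)) + 1 = (vs H₁).card + (vs H₂).card := by
      exact_mod_cast e1
    have e2' : (((vs H₁ ∪ vs H₂ ∪ vs H₃).card : ℤ)) + 2
        = (vs H₁ ∪ vs H₂).card + (vs H₃).card := by
      exact_mod_cast e2
    linarith
  have hZ : ∀ H ∈ ({H₁, H₂, H₃} : Finset (Set (Sym2 V))), IsClass p E H := by
    intro H hH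
    simp only [Finset.mem_insert, Finset.mem_singleton] at hH
    rcases hH with rfl | rfl | rfl <;> assumption
  have hZB : ∀ H ∈ ({H₁, H₂, H₃} : Finset (Set (Sym2 V))), vs H ⊆ B := by
    intro H hH x hx
    simp only [Finset.mem_insert, Finset.mem_singleton] at hH
    rw [hBdef, Finset.mem_union, Finset.mem_union]
    rcases hH with rfl | rfl | rfl
    · exact Or.inl (Or.inl hx)
    · exact Or.inl (Or.inr hx)
    · exact Or.inr hx
  have hcount : ∑ H ∈ ({H₁, H₂, H₃} : Finset (Set (Sym2 V))), (2 * ((vs H).card : ℤ) - 3)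
      = 2 * B.card - 3 := by
    rw [Finset.sum_insert (by simp [h12, h13]), Finset.sum_insert (by simp [h23]),
      Finset.sum_singleton, hBc]
    ring
  have haB : a ∈ B := hZB H₁ (by simp) ha1
  have hbB : b ∈ B := hZB H₁ (by simp) hb1
  have hcB : c ∈ B := hZB H₂ (by simp) hc2
  by_cases hv1 : v ∈ vs H₁
  · obtain ⟨D, hD⟩ : ∃ D, D = (vs H₁ \ {a, b} : Finset V) := ⟨_, rfl⟩
    have hmD : ∀ x, x ∈ D ↔ x ∈ vs H₁ ∧ x ≠ a ∧ x ≠ b := by
      intro x
      rw [hD, Finset.mem_sdiff]
      simp only [Finset.mem_insert, Finset.mem_singleton, not_or]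
    obtain ⟨p', q, hp', h1, h2, h3⟩ := move hp hE {H₁, H₂, H₃} hZ B hZB hcount (D := D)
      (fun x hx => hZB H₁ (by simp) ((hmD x).mp hx).1) haB hbB hab
      (fun h => ((hmD a).mp h).2.1 rfl) (fun h => ((hmD b).mp h).2.2 rfl)
      (by
        intro x y hxy hx hy hxD
        obtain ⟨hx1, hxa, hxb⟩ := (hmD x).mp hxD
        -- `y ∈ vs H₁`
        suffices hy1 : y ∈ vs H₁ by
          by_cases hya : y = a
          · exact Or.inr (Or.inl hya)
          · by_cases hyb : y = b
            · exact Or.inr (Or.inr hyb)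
            · exact Or.inl ((hmD y).mpr ⟨hy1, hya, hyb⟩)
        by_contra hy1
        have hn1 : s(x, y) ∉ H₁ := fun h => hy1 (mem_vs.mpr ⟨_, h, by simp⟩)
        have hn2 : s(x, y) ∉ H₂ := by
          intro h
          have : x ∈ vs H₁ ∩ vs H₂ := Finset.mem_inter.mpr ⟨hx1, mem_vs.mpr ⟨_, h, by simp⟩⟩
          rw [i12, Finset.mem_singleton] at this
          exact hxb this
        have hn3 : s(x, y) ∉ H₃ := by
          intro h
          have : x ∈ vs H₁ ∩ vs H₃ := Finset.mem_inter.mpr ⟨hx1, mem_vs.mpr ⟨_, h, by simp⟩⟩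
          rw [i13, Finset.mem_singleton] at this
          exact hxa this
        have hcl : Cl p (H₁ ∪ H₂ ∪ H₃) s(x, y) := by
          intro u hu
          have r1 := hH₁.rigid hp hE u (fun e he => hu e (Or.inl (Or.inl he)))
          have r2 := hH₂.rigid hp hE u (fun e he => hu e (Or.inl (Or.inr he)))
          have r3 := hH₃.rigid hp hE u (fun e he => hu e (Or.inr he))
          have r := r1.triangle r2 r3 ha1 hb1 hb2 hc2 ha3 hc3 (hgp.2 a b c hab hbc hac)
          rw [← hBdef] at r
          apply r.SL_eq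
          intro w hw
          have : w = x ∨ w = y := by simpa using hw
          rcases this with rfl | rfl
          · exact hx
          · exact hy
        have hnu : s(x, y) ∉ H₁ ∪ H₂ ∪ H₃ := by
          rintro ((h | h) | h)
          · exact hn1 h
          · exact hn2 h
          · exact hn3 h
        obtain ⟨C, hC, hCc, hCe⟩ := exists_circuit hcl hnu
        have hCE : C ⊆ E := by
          intro e he
          rcases hC he with rfl | (h | h) | h
          · exact hxy
          · exact hH₁.subset h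
          · exact hH₂.subset h
          · exact hH₃.subset h
        obtain ⟨g, hg, hge⟩ := circuit_other hgp.1 hCc hCe (hE _ hxy)
        rcases hC hg with h | (h | h) | h
        · exact hge h
        · exact hn1 (hH₁.circuit_subset hCc hCE hg h hCe)
        · exact hn2 (hH₂.circuit_subset hCc hCE hg h hCe)
        · exact hn3 (hH₃.circuit_subset hCc hCE hg h hCe))
      (v := v) (Or.inr ((hmD v).mpr ⟨hv1, hva, hvb⟩))
      (P := {a, b, c}) (by
        intro x hx
        simp only [Finset.mem_insert, Finset.mem_singleton] at hx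
        rcases hx with rfl | rfl | rfl
        · exact ⟨haB, fun h => ((hmD x).mp h).2.1 rfl⟩
        · exact ⟨hbB, fun h => ((hmD x).mp h).2.2 rfl⟩
        · exact ⟨hcB, fun h => hc1 ((hmD x).mp h).1⟩)
    exact h3 (hLoc p' q hp' h1 h2)
  · have hvB : v ∉ B := by
      rw [hBdef]
      rcases hcase with h | h
      · exact absurd h hv1
      · exact h
    obtain ⟨p', q, hp', h1, h2, h3⟩ := move hp hE {H₁, H₂, H₃} hZ B hZB hcount (D := ∅)
      (Finset.empty_subset _) haB hbB hab (Finset.notMem_empty _) (Finset.notMem_empty _)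
      (fun x y _ _ _ hx => absurd hx (Finset.notMem_empty _)) (v := v) (Or.inl ⟨hvB, rfl⟩)
      (P := {a, b, c}) (by
        intro x hx
        simp only [Finset.mem_insert, Finset.mem_singleton] at hx
        rcases hx with rfl | rfl | rfl
        · exact ⟨haB, Finset.notMem_empty _⟩
        · exact ⟨hbB, Finset.notMem_empty _⟩
        · exact ⟨hcB, Finset.notMem_empty _⟩)
    exact h3 (hLoc p' q hp' h1 h2)

end tri

/-- The main theorem, for placements in `ℂ`. -/
theorem main_C {p : V → ℂ} (hp : Generic p) {E : Set (Sym2 V)} (hE : ∀ e ∈ E, ¬ e.IsDiag)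
    {P : Finset V} {v : V} (hvP : v ∉ P) (hPE : ∀ x ∈ P, ∀ y ∈ P, x ≠ y → s(x, y) ∈ E)
    (hLoc : Loc E P v) :
    3 ≤ P.card ∧ ∃ H, IsClass p E H ∧ (∀ x ∈ P, x ∈ vs H) ∧ v ∈ vs H ∧
      ∀ b ∈ P, Kap3 (SimpleGraph.fromEdgeSet H) v b := by
  classical
  have h3 := loc_card hp hvP hLoc
  refine ⟨h3, ?_⟩
  by_cases hin : ∃ H, IsClass p E H ∧ ∀ x ∈ P, x ∈ vs H
  · obtain ⟨H, hH, hPH⟩ := hin
    have hv : v ∈ vs H := by
      by_contra hv
      exact case_out hp hE hH hPH h3 hv hLoc
    refine ⟨H, hH, hPH, hv, fun b hb => ?_⟩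
    by_contra hk
    exact case_sep hp hE hH hPH h3 hPE hv hvP hb hk hLoc
  · exfalso
    -- `P` has exactly three elements
    obtain ⟨a, ha, b, hb, hab⟩ := Finset.one_lt_card.mp (show 1 < P.card by omega)
    have hcard : P.card = 3 := by
      by_contra hne
      apply hin
      obtain ⟨H, hH, hHab⟩ := exists_class (p := p) (hPE a ha b hb hab)
      refine ⟨H, hH, fun c hc => ?_⟩
      by_cases hca : c = a
      · rw [hca]; exact mem_vs.mpr ⟨_, hHab, by simp⟩
      by_cases hcb : c = b
      · rw [hcb]; exact mem_vs.mpr ⟨_, hHab, by simp⟩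
      obtain ⟨d, hd⟩ : ∃ d, d ∈ P \ {a, b, c} := by
        rw [← Finset.Nonempty, ← Finset.card_pos]
        have h1 := Finset.le_card_sdiff ({a, b, c} : Finset V) P
        have h2 : ({a, b, c} : Finset V).card ≤ 3 := Finset.card_le_three
        omega
      rw [Finset.mem_sdiff] at hd
      simp only [Finset.mem_insert, Finset.mem_singleton, not_or] at hd
      obtain ⟨hdP, hda, hdb, hdc⟩ := hd
      have hac := k4_same hp hH hab (Ne.symm hca) (Ne.symm hda) (Ne.symm hcb) (Ne.symm hdb)
        (Ne.symm hdc) (hPE a ha b hb hab) (hPE a ha c hc (Ne.symm hca))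
        (hPE a ha d hdP (Ne.symm hda)) (hPE b hb c hc (Ne.symm hcb))
        (hPE b hb d hdP (Ne.symm hdb)) (hPE c hc d hdP (Ne.symm hdc)) hHab
      exact mem_vs.mpr ⟨_, hac, by simp⟩
    obtain ⟨a, b, c, hab, hac, hbc, rfl⟩ := Finset.card_eq_three.mp hcard
    have hva : v ≠ a := fun e => hvP (by rw [e]; simp)
    have hvb : v ≠ b := fun e => hvP (by rw [e]; simp)
    have hvc : v ≠ c := fun e => hvP (by rw [e]; simp)
    obtain ⟨H₁, hH₁, h1⟩ := exists_class (p := p) (hPE a (by simp) b (by simp) hab)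
    obtain ⟨H₂, hH₂, h2⟩ := exists_class (p := p) (hPE b (by simp) c (by simp) hbc)
    obtain ⟨H₃, hH₃, h3'⟩ := exists_class (p := p) (hPE a (by simp) c (by simp) hac)
    have ha1 : a ∈ vs H₁ := mem_vs.mpr ⟨_, h1, by simp⟩
    have hb1 : b ∈ vs H₁ := mem_vs.mpr ⟨_, h1, by simp⟩
    have hb2 : b ∈ vs H₂ := mem_vs.mpr ⟨_, h2, by simp⟩
    have hc2 : c ∈ vs H₂ := mem_vs.mpr ⟨_, h2, by simp⟩
    have ha3 : a ∈ vs H₃ := mem_vs.mpr ⟨_, h3', by simp⟩
    have hc3 : c ∈ vs H₃ := mem_vs.mpr ⟨_, h3', by simp⟩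
    have hall : ∀ H, IsClass p E H → a ∈ vs H → b ∈ vs H → c ∈ vs H → False := by
      intro H hH h1 h2 h3
      apply hin
      refine ⟨H, hH, fun x hx => ?_⟩
      simp only [Finset.mem_insert, Finset.mem_singleton] at hx
      rcases hx with rfl | rfl | rfl <;> assumption
    have h12 : H₁ ≠ H₂ := by
      rintro rfl
      exact hall _ hH₁ ha1 hb1 hc2
    have h23 : H₂ ≠ H₃ := by
      rintro rfl
      exact hall _ hH₂ ha3 hb2 hc2
    have h13 : H₁ ≠ H₃ := by
      rintro rfl
      exact hall _ hH₁ ha1 hb1 hc3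
    by_cases hv1 : v ∈ vs H₁
    · exact case_tri hp hE hH₁ hH₂ hH₃ h12 h23 h13 hab hbc hac ha1 hb1 hb2 hc2 hc3 ha3 hva hvb
        hvc (Or.inl hv1) hLoc
    by_cases hv2 : v ∈ vs H₂
    · apply case_tri hp hE hH₂ hH₃ hH₁ h23 h13.symm h12.symm hbc hac.symm hab.symm hb2 hc2 hc3
        ha3 ha1 hb1 hvb hvc hva (Or.inl hv2)
      have e : ({b, c, a} : Finset V) = {a, b, c} := by
        ext x
        simp only [Finset.mem_insert, Finset.mem_singleton]
        tauto
      rw [e]
      exact hLoc
    by_cases hv3 : v ∈ vs H₃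
    · apply case_tri hp hE hH₃ hH₁ hH₂ h13.symm h12 h23.symm hac.symm hab hbc.symm hc3 ha3 ha1
        hb1 hb2 hc2 hvc hva hvb (Or.inl hv3)
      have e : ({c, a, b} : Finset V) = {a, b, c} := by
        ext x
        simp only [Finset.mem_insert, Finset.mem_singleton]
        tauto
      rw [e]
      exact hLoc
    · apply case_tri hp hE hH₁ hH₂ hH₃ h12 h23 h13 hab hbc hac ha1 hb1 hb2 hc2 hc3 ha3 hva hvb
        hvc (Or.inr _) hLoc
      simp only [Finset.mem_union, not_or]
      exact ⟨⟨hv1, hv2⟩, hv3⟩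

end Pool.Agent.Lib.MP_699f60_co
end
end
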